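import Mathlib

/-! Bipartite subconfigurations: a configuration on two sides in which every vertex has large
out-degree to the other side has many bad pairs. -/

set_option autoImplicit false

open Finset

namespace Pool.Agent.L0h25.FDF

section
variable {V : Type} [Fintype V] [DecidableEq V] {x : V → ℝ} {c : V → V → ℕ} {s : V → Bool}

/-- the mass of a finite set -/
noncomputable def mass (x : V → ℝ) (T : Finset V) : ℝ := ∑ v ∈ T, x v

theorem mass_nonneg (hx : ∀ v, 0 < x v) (T : Finset V) : 0 ≤ mass x T :=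
  Finset.sum_nonneg fun v _ => (hx v).le

theorem mass_mono (hx : ∀ v, 0 < x v) {T U : Finset V} (h : T ⊆ U) : mass x T ≤ mass x U :=
  Finset.sum_le_sum_of_subset_of_nonneg h fun v _ _ => (hx v).le

theorem mass_union_le (hx : ∀ v, 0 < x v) (T U : Finset V) : mass x (T ∪ U) ≤ mass x T + mass x U := by
  have h : mass x (T ∪ U) + mass x (T ∩ U) = mass x T + mass x U := Finset.sum_union_inter
  have := mass_nonneg hx (T ∩ U)
  linarith

theorem mass_sdiff (T U : Finset V) : mass x (T \ U) + mass x (T ∩ U) = mass x T :=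
  by have := Finset.sum_inter_add_sum_sdiff T U x; unfold mass; linarith

/-- the out-neighbours of `z` in `S` on the other side -/
def fo (c : V → V → ℕ) (s : V → Bool) (S : Finset V) (z : V) : Finset V :=
  S.filter fun w => s w ≠ s z ∧ c z w = 1

/-- the neighbours of `z` in `S` on its side -/
def fi (c : V → V → ℕ) (s : V → Bool) (S : Finset V) (z : V) : Finset V :=
  S.filter fun w => s w = s z ∧ c z w ≠ 0

/-- the non-neighbours of `z` in `S` on the other side -/
def fc (c : V → V → ℕ) (s : V → Bool) (S : Finset V) (z : V) : Finset V :=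
  S.filter fun w => s w ≠ s z ∧ c z w = 0

/-- the hypotheses on a relation -/
structure Rl (c : V → V → ℕ) : Prop where
  lt : ∀ u v, c u v < 3
  z : ∀ u v, c u v = 0 → c v u = 0
  o : ∀ u v, c u v = 1 → c v u = 2
  t : ∀ u v, c u v = 2 → c v u = 1
  free : ∀ a b d e, ¬ (c a b = 1 ∧ c b d = 1 ∧ c d e = 1 ∧ c e a = 1 ∧ c a d = 0 ∧ c b e = 0)

theorem Rl.cases (h : Rl c) (u v : V) : c u v = 0 ∨ c u v = 1 ∨ c v u = 1 := by
  have h1 := h.lt u v
  have h2 : c u v = 0 ∨ c u v = 1 ∨ c u v = 2 := by omega
  rcases h2 with h2 | h2 | h2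
  · exact Or.inl h2
  · exact Or.inr (Or.inl h2)
  · exact Or.inr (Or.inr (h.t _ _ h2))

theorem bool_eq {a b d : Bool} (h1 : a ≠ d) (h2 : b ≠ d) : a = b := by
  cases a <;> cases b <;> cases d <;> simp_all

/-- the double counting of arcs between two sets -/
theorem dc (T U : Finset V) (R : V → V → Prop) [∀ a b, Decidable (R a b)] :
    ∑ z ∈ T, x z * mass x (U.filter fun y => R z y) = ∑ y ∈ U, x y * mass x (T.filter fun z => R z y) := by
  unfold mass
  simp only [Finset.sum_filter, Finset.mul_sum]
  rw [Finset.sum_comm]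
  refine Finset.sum_congr rfl fun y _ => Finset.sum_congr rfl fun z _ => ?_
  split_ifs <;> ring

/-- the main lemma on bipartite configurations -/
theorem bip (hx : ∀ v, 0 < x v) (hc : Rl c) (S : Finset V) (hS : S.Nonempty) (rho b : ℝ)
    (hr : 0 < rho) (hf : ∀ z ∈ S, rho ≤ mass x (fo c s S z))
    (hb : ∀ z ∈ S, mass x (fi c s S z) + mass x (fc c s S z) ≤ b) : rho ≤ 3 * b := by
  obtain ⟨v, hv, hmin⟩ := Finset.exists_min_image S (fun z => mass x (fo c s S z)) hS
  have hrs : rho ≤ mass x (fo c s S v) := hf v hv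
  -- the out-neighbours of `v`
  have hYne : (fo c s S v).Nonempty := by
    rw [Finset.nonempty_iff_ne_empty]
    intro h0
    rw [h0] at hrs
    simp only [mass, Finset.sum_empty] at hrs
    linarith
  let Z : V → Finset V := fun y => S.filter fun z => s z = s v ∧ c y z = 1 ∧ c v z = 0
  obtain ⟨y, hy, hymin⟩ := Finset.exists_min_image (fo c s S v) (fun y => mass x (Z y)) hYne
  have hyS : y ∈ S := (Finset.mem_filter.mp hy).1
  have hys : s y ≠ s v := (Finset.mem_filter.mp hy).2.1
  have hvy : c v y = 1 := (Finset.mem_filter.mp hy).2.2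
  have hrs1 : mass x (fo c s S v) ≤ mass x (fo c s S y) := hmin y hyS
  -- (1)
  have h1 : mass x (fo c s S y) ≤ mass x (Z y) + mass x (fi c s S v) := by
    refine le_trans (mass_mono hx ?_) (mass_union_le hx _ _)
    intro z hz
    obtain ⟨hzS, hzs, hyz⟩ := Finset.mem_filter.mp hz
    have hzs' : s z = s v := bool_eq hzs (Ne.symm hys)
    by_cases h0 : c v z = 0
    · exact Finset.mem_union_left _ (Finset.mem_filter.mpr ⟨hzS, hzs', hyz, h0⟩)
    · exact Finset.mem_union_right _ (Finset.mem_filter.mpr ⟨hzS, hzs', h0⟩)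
  -- (2)
  let Y' : Finset V := (fo c s S v).filter fun w => c y w = 0
  have h2 : ∀ z ∈ Z y, mass x (fo c s S v) ≤
      mass x (fi c s S y) + mass x (fc c s S v) + mass x (Y'.filter fun w => c z w = 1) := by
    intro z hz
    obtain ⟨hzS, hzs, hyz, hvz⟩ := Finset.mem_filter.mp hz
    refine le_trans (hmin z hzS) (le_trans (mass_mono hx ?_) (le_trans (mass_union_le hx _ _)
      (add_le_add (mass_union_le hx _ _) (le_refl _))))
    intro w hw
    obtain ⟨hwS, hws, hzw⟩ := Finset.mem_filter.mp hw
    have hws' : s w ≠ s v := by rw [← hzs]; exact hws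
    have hwy : s w = s y := bool_eq hws' hys
    by_cases h0 : c y w = 0
    · rcases hc.cases v w with h | h | h
      · exact Finset.mem_union_left _ (Finset.mem_union_right _ (Finset.mem_filter.mpr ⟨hwS, hws', h⟩))
      · exact Finset.mem_union_right _ (Finset.mem_filter.mpr ⟨Finset.mem_filter.mpr
          ⟨Finset.mem_filter.mpr ⟨hwS, hws', h⟩, h0⟩, hzw⟩)
      · exact absurd ⟨hvy, hyz, hzw, h, hvz, h0⟩ (hc.free v y z w)
    · exact Finset.mem_union_left _ (Finset.mem_union_left _ (Finset.mem_filter.mpr ⟨hwS, hwy, h0⟩))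
  -- (3)
  have hbv := hb v hv
  have hby := hb y hyS
  have hfiv := mass_nonneg hx (fi c s S v)
  have hfcv := mass_nonneg hx (fc c s S v)
  have hfiy := mass_nonneg hx (fi c s S y)
  have hfcy := mass_nonneg hx (fc c s S y)
  have hb0 : 0 ≤ b := by linarith
  have h3 : ∀ w ∈ Y', mass x ((Z y).filter fun z => c z w = 1) ≤ b + mass x (fc c s S y) := by
    intro w hw
    obtain ⟨hwY, hyw⟩ := Finset.mem_filter.mp hw
    obtain ⟨hwS, hws, hvw⟩ := Finset.mem_filter.mp hwY
    by_cases hne : ((Z y).filter fun z => c z w = 1).Nonempty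
    · obtain ⟨z, hz⟩ := hne
      obtain ⟨hzZ, hzw⟩ := Finset.mem_filter.mp hz
      obtain ⟨hzS, hzs, hyz, hvz⟩ := Finset.mem_filter.mp hzZ
      have hmono : mass x ((Z y).filter fun z => c z w = 1) ≤ mass x (Z y \ Z w) := by
        refine mass_mono hx ?_
        intro u hu
        obtain ⟨huZ, huw⟩ := Finset.mem_filter.mp hu
        refine Finset.mem_sdiff.mpr ⟨huZ, fun hcon => ?_⟩
        have hwu : c w u = 1 := (Finset.mem_filter.mp hcon).2.2.1
        have := hc.o _ _ hwu
        omega
      have hmm : mass x (Z y) ≤ mass x (Z w) := hymin w hwY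
      have e1 := mass_sdiff (x := x) (Z y) (Z w)
      have e2 := mass_sdiff (x := x) (Z w) (Z y)
      rw [Finset.inter_comm] at e2
      have hle : mass x (Z w \ Z y) ≤ mass x (fi c s S z) + mass x (fc c s S y) := by
        refine le_trans (mass_mono hx ?_) (mass_union_le hx _ _)
        intro u hu
        obtain ⟨hu1, hu2⟩ := Finset.mem_sdiff.mp hu
        obtain ⟨huS, hus, hwu, hvu⟩ := Finset.mem_filter.mp hu1
        have hyu : c y u ≠ 1 := fun h => hu2 (Finset.mem_filter.mpr ⟨huS, hus, h, hvu⟩)
        rcases hc.cases y u with h | h | h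
        · refine Finset.mem_union_right _ (Finset.mem_filter.mpr ⟨huS, ?_, h⟩)
          rw [hus]; exact Ne.symm hys
        · exact absurd h hyu
        · refine Finset.mem_union_left _ (Finset.mem_filter.mpr ⟨huS, ?_, fun h0 => ?_⟩)
          · rw [hus, hzs]
          · exact hc.free y z w u ⟨hyz, hzw, hwu, h, hyw, h0⟩
      have hbz := hb z hzS
      have hfcz := mass_nonneg hx (fc c s S z)
      linarith
    · rw [Finset.not_nonempty_iff_eq_empty] at hne
      rw [hne]
      have : mass x (∅ : Finset V) = 0 := by simp [mass]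
      rw [this]
      linarith
  -- (4)
  have h4 := dc (x := x) (Z y) Y' (fun z w => c z w = 1)
  have h5 : ∑ z ∈ Z y, x z * mass x (Y'.filter fun w => c z w = 1) ≥
      ∑ z ∈ Z y, x z * (mass x (fo c s S v) - mass x (fi c s S y) - mass x (fc c s S v)) := by
    refine Finset.sum_le_sum fun z hz => mul_le_mul_of_nonneg_left ?_ (hx z).le
    have := h2 z hz
    linarith
  have h6 : ∑ w ∈ Y', x w * mass x ((Z y).filter fun z => c z w = 1) ≤
      ∑ w ∈ Y', x w * (b + mass x (fc c s S y)) :=
    Finset.sum_le_sum fun w hw => mul_le_mul_of_nonneg_left (h3 w hw) (hx w).le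
  rw [← Finset.sum_mul] at h5 h6
  have h7 : mass x Y' ≤ mass x (fo c s S v) := mass_mono hx (Finset.filter_subset _ _)
  have h8 : (mass x (Z y)) * (mass x (fo c s S v) - mass x (fi c s S y) - mass x (fc c s S v)) ≤
      mass x (fo c s S v) * (b + mass x (fc c s S y)) := by
    have e1 : (∑ i ∈ Z y, x i) = mass x (Z y) := rfl
    have e2 : (∑ i ∈ Y', x i) = mass x Y' := rfl
    rw [e1] at h5
    rw [e2] at h6
    have := mul_le_mul_of_nonneg_right h7 (by linarith : 0 ≤ b + mass x (fc c s S y))
    linarith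
  -- (5)
  generalize mass x (fo c s S v) = R at *
  generalize mass x (Z y) = ze at *
  generalize mass x (fi c s S y) = i1 at *
  generalize mass x (fc c s S y) = c1 at *
  generalize mass x (fi c s S v) = is at *
  generalize mass x (fc c s S v) = cs at *
  by_contra hcon
  push Not at hcon
  have hR : 0 < R - i1 - cs := by linarith
  have h9 : (R - is) * (R - i1 - cs) ≤ ze * (R - i1 - cs) :=
    mul_le_mul_of_nonneg_right (by linarith) hR.le
  nlinarith [mul_nonneg hfiv hfiy, mul_nonneg hfiv hfcv]

end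

end Pool.Agent.L0h25.FDF
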