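import Pool.Agent.L0h25.FDF.Sdp2
import Pool.Agent.L0h25.FDF.Bip

/-! Weighted configurations with a class function: basic quantities. -/

set_option autoImplicit false

open Finset

namespace Pool.Agent.L0h25.FDF

/-- a weighted configuration with a class function -/
structure Cfg (V : Type) [Fintype V] where
  x : V → ℝ
  c : V → V → ℕ
  k : V → Fin 3
  hx : ∀ v, 0 < x v
  hx1 : ∑ v, x v = 1
  hc : Rl c

def bi (b : Bool) : ℤ := cond b 1 0

theorem bi_cases (b : Bool) : ((bi b : ℤ) : ℝ) = 0 ∨ ((bi b : ℤ) : ℝ) = 1 := by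
  cases b <;> simp [bi]

/-- the edge table as a polynomial -/
theorem F_int : ∀ r s t : Fin 3, (fld FTT 1 (tc (r : ℕ) (s : ℕ) (t : ℕ)) : ℤ) =
    bi (decide ((r : ℕ) = 0)) * bi (decide ((s : ℕ) = 0)) + bi (decide ((r : ℕ) = 0)) * bi (decide ((t : ℕ) = 0))
    + bi (decide ((s : ℕ) = 0)) * bi (decide ((t : ℕ) = 0))
    - 2 * (bi (decide ((r : ℕ) = 0)) * bi (decide ((s : ℕ) = 0)) * bi (decide ((t : ℕ) = 0)))
    + bi (decide ((r : ℕ) = 1)) * bi (decide ((s : ℕ) = 1))
    + bi (decide ((r : ℕ) = 2)) * bi (decide ((t : ℕ) = 1))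
    + bi (decide ((s : ℕ) = 2)) * bi (decide ((t : ℕ) = 2)) := by decide +kernel

namespace Cfg
variable {V : Type} [Fintype V] (K : Cfg V)

/-- arcs -/
noncomputable def A (u v : V) : ℝ := ((bi (decide (K.c u v = 1)) : ℤ) : ℝ)
/-- non-adjacent pairs -/
noncomputable def N (u v : V) : ℝ := ((bi (decide (K.c u v = 0)) : ℤ) : ℝ)
/-- class indicator -/
noncomputable def z (l : Fin 3) (v : V) : ℝ := ((bi (decide (K.k v = l)) : ℤ) : ℝ)

/-- expectation -/
noncomputable def E (f : V → ℝ) : ℝ := ∑ v, K.x v * f v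

theorem E_add (f g : V → ℝ) : K.E (fun v => f v + g v) = K.E f + K.E g := by
  unfold E; rw [← Finset.sum_add_distrib]; exact Finset.sum_congr rfl fun v _ => by ring

theorem E_sub (f g : V → ℝ) : K.E (fun v => f v - g v) = K.E f - K.E g := by
  unfold E; rw [← Finset.sum_sub_distrib]; exact Finset.sum_congr rfl fun v _ => by ring

theorem E_mul (r : ℝ) (f : V → ℝ) : K.E (fun v => r * f v) = r * K.E f := by
  unfold E; rw [Finset.mul_sum]; exact Finset.sum_congr rfl fun v _ => by ring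

theorem E_const (r : ℝ) : K.E (fun _ => r) = r := by
  unfold E; rw [← Finset.sum_mul, K.hx1, one_mul]

theorem E_mono {f g : V → ℝ} (h : ∀ v, f v ≤ g v) : K.E f ≤ K.E g :=
  Finset.sum_le_sum fun v _ => mul_le_mul_of_nonneg_left (h v) (K.hx v).le

theorem E_nonneg {f : V → ℝ} (h : ∀ v, 0 ≤ f v) : 0 ≤ K.E f :=
  Finset.sum_nonneg fun v _ => mul_nonneg (K.hx v).le (h v)

theorem E_congr {f g : V → ℝ} (h : ∀ v, f v = g v) : K.E f = K.E g :=
  Finset.sum_congr rfl fun v _ => by rw [h v]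

theorem E_comm (G : V → V → ℝ) : K.E (fun u => K.E (fun v => G u v)) = K.E (fun v => K.E (fun u => G u v)) := by
  unfold E
  simp only [Finset.mul_sum]
  rw [Finset.sum_comm]
  exact Finset.sum_congr rfl fun v _ => Finset.sum_congr rfl fun u _ => by ring

theorem E_mul_right (r : ℝ) (f : V → ℝ) : K.E (fun v => f v * r) = K.E f * r := by
  unfold E; rw [Finset.sum_mul]; exact Finset.sum_congr rfl fun v _ => by ring

theorem E_prod (f g : V → ℝ) : K.E (fun u => K.E (fun v => f u * g v)) = K.E f * K.E g := by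
  have : ∀ u, K.E (fun v => f u * g v) = f u * K.E g := fun u => K.E_mul (f u) g
  rw [K.E_congr this, K.E_mul_right]

noncomputable def o (v : V) : ℝ := K.E fun w => K.A v w
noncomputable def io (v : V) : ℝ := K.E fun w => K.A w v
noncomputable def bt (v : V) : ℝ := K.E fun w => K.N v w
noncomputable def al (l : Fin 3) : ℝ := K.E fun w => K.z l w
noncomputable def y (l : Fin 3) (v : V) : ℝ := K.E fun w => K.z l w * K.N v w

theorem A_cases (u v : V) : K.A u v = 0 ∨ K.A u v = 1 := bi_cases _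
theorem N_cases (u v : V) : K.N u v = 0 ∨ K.N u v = 1 := bi_cases _
theorem z_cases (l : Fin 3) (v : V) : K.z l v = 0 ∨ K.z l v = 1 := bi_cases _

theorem A_nonneg (u v : V) : 0 ≤ K.A u v := by rcases K.A_cases u v with h | h <;> rw [h]; norm_num
theorem N_nonneg (u v : V) : 0 ≤ K.N u v := by rcases K.N_cases u v with h | h <;> rw [h]; norm_num
theorem z_nonneg (l : Fin 3) (v : V) : 0 ≤ K.z l v := by rcases K.z_cases l v with h | h <;> rw [h]; norm_num
theorem A_le (u v : V) : K.A u v ≤ 1 := by rcases K.A_cases u v with h | h <;> rw [h]; norm_num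
theorem N_le (u v : V) : K.N u v ≤ 1 := by rcases K.N_cases u v with h | h <;> rw [h]; norm_num
theorem z_le (l : Fin 3) (v : V) : K.z l v ≤ 1 := by rcases K.z_cases l v with h | h <;> rw [h]; norm_num

theorem N_symm (u v : V) : K.N u v = K.N v u := by
  have h0 : K.c u v = 0 ↔ K.c v u = 0 := ⟨K.hc.z u v, K.hc.z v u⟩
  unfold N
  by_cases h : K.c u v = 0
  · have h1 := h0.mp h
    simp [h, h1]
  · have h1 : ¬ K.c v u = 0 := fun h2 => h (h0.mpr h2)
    simp [h, h1]

theorem A_two (u v : V) : ((bi (decide (K.c u v = 2)) : ℤ) : ℝ) = K.A v u := by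
  have h0 : K.c u v = 2 ↔ K.c v u = 1 := ⟨K.hc.t u v, K.hc.o v u⟩
  unfold A
  by_cases h : K.c u v = 2
  · have h1 := h0.mp h
    simp [h, h1]
  · have h1 : ¬ K.c v u = 1 := fun h2 => h (h0.mpr h2)
    simp [h, h1]

theorem sum_one (u v : V) : K.A u v + K.A v u + K.N u v = 1 := by
  have h3 := K.hc.lt u v
  rw [← K.A_two u v]
  unfold A N
  have : K.c u v = 0 ∨ K.c u v = 1 ∨ K.c u v = 2 := by omega
  rcases this with h | h | h <;> simp [h, bi]

theorem N_self (v : V) : K.N v v = 1 := by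
  have h1 := K.sum_one v v
  rcases K.A_cases v v with h | h
  · linarith
  · have := K.N_nonneg v v
    linarith

theorem F_eq (a b g : V) : (fld FTT 1 (tc (K.c a b) (K.c a g) (K.c b g)) : ℝ) =
    K.N a b * K.N a g + K.N a b * K.N b g + K.N a g * K.N b g - 2 * (K.N a b * K.N a g * K.N b g)
    + K.A a b * K.A a g + K.A b a * K.A b g + K.A g a * K.A g b := by
  have h := F_int ⟨K.c a b, K.hc.lt a b⟩ ⟨K.c a g, K.hc.lt a g⟩ ⟨K.c b g, K.hc.lt b g⟩
  have h2 := congrArg (fun t : ℤ => (t : ℝ)) h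
  simp only at h2
  push_cast at h2
  rw [K.A_two, K.A_two, K.A_two] at h2
  exact h2

/-- the density -/
theorem pp_eq : pp K.x K.c = K.E fun a => K.E fun b => K.E fun g =>
    (fld FTT 1 (tc (K.c a b) (K.c a g) (K.c b g)) : ℝ) := by
  unfold pp E
  simp only [Finset.mul_sum]
  exact Finset.sum_congr rfl fun a _ => Finset.sum_congr rfl fun b _ => Finset.sum_congr rfl fun g _ => by ring

/-- the link density of a vertex -/
noncomputable def dd (v : V) : ℝ := K.E fun b => K.E fun g =>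
    (fld FTT 1 (tc (K.c v b) (K.c v g) (K.c b g)) : ℝ)

/-- pairs at distance two in the non-adjacency graph -/
noncomputable def eta (v : V) : ℝ := K.E fun b => K.E fun g => K.N v b * K.N b g * (1 - K.N v g)

theorem dd_eq (v : V) : K.dd v = K.o v ^ 2 + 2 * (K.E fun b => K.A b v * K.o b) + K.bt v ^ 2 + 2 * K.eta v := by
  have e1 : K.dd v = (K.E fun b => K.E fun g => K.N v b * K.N v g) +
      (K.E fun b => K.E fun g => K.N v b * K.N b g * (1 - K.N v g)) +
      (K.E fun b => K.E fun g => K.N v g * K.N g b * (1 - K.N v b)) +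
      (K.E fun b => K.E fun g => K.A v b * K.A v g) +
      (K.E fun b => K.E fun g => K.A b v * K.A b g) +
      (K.E fun b => K.E fun g => K.A g v * K.A g b) := by
    unfold dd
    simp only [← K.E_add]
    refine K.E_congr fun b => K.E_congr fun g => ?_
    rw [K.F_eq, K.N_symm g b]
    ring
  have e2 : (K.E fun b => K.E fun g => K.N v g * K.N g b * (1 - K.N v b)) = K.eta v := by
    rw [K.E_comm]; rfl
  have e3 : (K.E fun b => K.E fun g => K.A g v * K.A g b) = K.E fun b => K.A b v * K.o b := by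
    rw [K.E_comm]
    exact K.E_congr fun g => K.E_mul _ _
  have e4 : (K.E fun b => K.E fun g => K.A b v * K.A b g) = K.E fun b => K.A b v * K.o b :=
    K.E_congr fun g => K.E_mul _ _
  have e5 : (K.E fun b => K.E fun g => K.N v b * K.N v g) = K.bt v ^ 2 := by
    rw [K.E_prod]; unfold bt; ring
  have e6 : (K.E fun b => K.E fun g => K.A v b * K.A v g) = K.o v ^ 2 := by
    rw [K.E_prod]; unfold o; ring
  have e7 : (K.E fun b => K.E fun g => K.N v b * K.N b g * (1 - K.N v g)) = K.eta v := rfl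
  rw [e1, e2, e3, e4, e5, e6, e7]
  ring

theorem sum_oib (v : V) : K.o v + K.io v + K.bt v = 1 := by
  unfold o io bt
  rw [← K.E_add, ← K.E_add, ← K.E_const 1]
  exact K.E_congr fun w => K.sum_one v w

theorem E_io : K.E K.io = K.E K.o := by
  unfold io o
  rw [K.E_comm]

theorem z_sum (v : V) : K.z 0 v + K.z 1 v + K.z 2 v = 1 := by
  unfold z
  generalize K.k v = a
  fin_cases a <;> simp [bi]

theorem al_sum : K.al 0 + K.al 1 + K.al 2 = 1 := by
  unfold al
  rw [← K.E_add, ← K.E_add, ← K.E_const 1]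
  exact K.E_congr fun w => K.z_sum w

theorem y_sum (v : V) : K.y 0 v + K.y 1 v + K.y 2 v = K.bt v := by
  unfold y bt
  rw [← K.E_add, ← K.E_add]
  refine K.E_congr fun w => ?_
  have := K.z_sum w
  linear_combination (K.N v w) * this

theorem y_nonneg (l : Fin 3) (v : V) : 0 ≤ K.y l v :=
  K.E_nonneg fun w => mul_nonneg (K.z_nonneg l w) (K.N_nonneg v w)

theorem y_le (l : Fin 3) (v : V) : K.y l v ≤ K.al l := by
  refine K.E_mono fun w => ?_
  have h1 := K.z_nonneg l w
  have h2 := K.N_le v w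
  nlinarith

theorem al_nonneg (l : Fin 3) : 0 ≤ K.al l := K.E_nonneg fun w => K.z_nonneg l w

/-- summing a quantity depending on the class -/
theorem sum_class (f : Fin 3 → ℝ) (v : V) : f (K.k v) = f 0 * K.z 0 v + f 1 * K.z 1 v + f 2 * K.z 2 v := by
  unfold z
  generalize K.k v = a
  fin_cases a <;> simp [bi]

theorem E_class (f : Fin 3 → ℝ) : (K.E fun v => f (K.k v)) = f 0 * K.al 0 + f 1 * K.al 1 + f 2 * K.al 2 := by
  rw [K.E_congr (K.sum_class f), K.E_add, K.E_add, K.E_mul, K.E_mul, K.E_mul]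
  rfl

/-- adjacent mass in the own class -/
noncomputable def a (v : V) : ℝ := K.al (K.k v) - K.y (K.k v) v
/-- non-adjacent mass in the next class -/
noncomputable def b (v : V) : ℝ := K.y (K.k v + 1) v
/-- non-adjacent mass in the third class -/
noncomputable def d (v : V) : ℝ := K.y (K.k v + 2) v

theorem a_nonneg (v : V) : 0 ≤ K.a v := sub_nonneg.mpr (K.y_le _ v)
theorem b_nonneg (v : V) : 0 ≤ K.b v := K.y_nonneg _ v
theorem d_nonneg (v : V) : 0 ≤ K.d v := K.y_nonneg _ v

theorem sum_rot (f : Fin 3 → ℝ) (i : Fin 3) : f i + f (i + 1) + f (i + 2) = f 0 + f 1 + f 2 := by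
  fin_cases i
  · rfl
  · change f 1 + f 2 + f 0 = _; ring
  · change f 2 + f 0 + f 1 = _; ring

theorem bt_eq (v : V) : K.bt v = K.al (K.k v) - K.a v + K.b v + K.d v := by
  have := sum_rot (fun l => K.y l v) (K.k v)
  rw [← K.y_sum, ← this]
  unfold a b d
  ring

end Cfg

end Pool.Agent.L0h25.FDF
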