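import Pool.Agent.L0h25.FDF.An1

/-! The main lower bound for the density in terms of a partition. -/

set_option autoImplicit false

open Finset

namespace Pool.Agent.L0h25.FDF

def zi (a l : Fin 3) : ℤ := bi (decide (a = l))

/-- the contribution of a triple centred at `w` -/
def Qi {R : Type} [CommRing R] (zu zv : Fin 3 → R) (nu nv : R) (i : Fin 3) : R :=
  - (zu i * (1 - nu)) * (zv i * (1 - nv)) +
  ((zu (i + 1) * nu) * zv (i + 1) + zu (i + 1) * (zv (i + 1) * nv) - (zu (i + 1) * nu) * (zv (i + 1) * nv)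
    - (zu i * (1 - nu)) * (zv (i + 1) * nv) - (zu (i + 1) * nu) * (zv i * (1 - nv))) +
  ((zu (i + 2) * nu) * zv (i + 2) + zu (i + 2) * (zv (i + 2) * nv) - (zu (i + 2) * nu) * (zv (i + 2) * nv)
    - (zu i * (1 - nu)) * (zv (i + 2) * nv) - (zu (i + 2) * nu) * (zv i * (1 - nv)))

theorem triple_int : ∀ u v w : Fin 3, ∀ n1 n2 n3 : Bool,
    zi u 0 * zi v 0 * zi w 0 + zi u 1 * zi v 1 * zi w 1 + zi u 2 * zi v 2 * zi w 2 +
    Qi (zi u) (zi v) (bi n2) (bi n3) w + Qi (zi u) (zi w) (bi n1) (bi n3) v + Qi (zi v) (zi w) (bi n1) (bi n2) u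
    ≤ bi n1 * bi n2 + bi n1 * bi n3 + bi n2 * bi n3 - 2 * (bi n1 * bi n2 * bi n3) := by
  decide +kernel

namespace Cfg
variable {V : Type} [Fintype V] (K : Cfg V)

theorem Qi_cast (u v : V) (n1 n2 : Bool) (i : Fin 3) :
    ((Qi (zi (K.k u)) (zi (K.k v)) (bi n1) (bi n2) i : ℤ) : ℝ) =
    Qi (fun l => K.z l u) (fun l => K.z l v) ((bi n1 : ℤ) : ℝ) ((bi n2 : ℤ) : ℝ) i := by
  unfold Qi z zi
  push_cast
  rfl

noncomputable def Q (w u v : V) : ℝ := Qi (fun l => K.z l u) (fun l => K.z l v) (K.N w u) (K.N w v) (K.k w)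

theorem triple (u v w : V) :
    K.z 0 u * K.z 0 v * K.z 0 w + K.z 1 u * K.z 1 v * K.z 1 w + K.z 2 u * K.z 2 v * K.z 2 w +
    K.Q w u v + K.Q v u w + K.Q u v w ≤
    K.N u v * K.N u w + K.N u v * K.N v w + K.N u w * K.N v w - 2 * (K.N u v * K.N u w * K.N v w) := by
  have h := triple_int (K.k u) (K.k v) (K.k w) (decide (K.c u v = 0)) (decide (K.c u w = 0)) (decide (K.c v w = 0))
  have h2 := (Int.cast_le (R := ℝ)).mpr h
  push_cast at h2
  rw [K.Qi_cast, K.Qi_cast, K.Qi_cast] at h2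
  unfold Q
  rw [K.N_symm w u, K.N_symm w v, K.N_symm v u]
  exact h2

/-- the integral of the centred contribution -/
theorem Q_int (w : V) : (K.E fun u => K.E fun v => K.Q w u v) =
    - K.a w ^ 2 + (2 * K.b w * K.al (K.k w + 1) - K.b w ^ 2 - 2 * K.a w * K.b w) +
      (2 * K.d w * K.al (K.k w + 2) - K.d w ^ 2 - 2 * K.a w * K.d w) := by
  have ha : (K.E fun u => K.z (K.k w) u * (1 - K.N w u)) = K.a w := by
    unfold a al y
    rw [← K.E_sub]
    exact K.E_congr fun u => by ring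
  have hb : (K.E fun u => K.z (K.k w + 1) u * K.N w u) = K.b w := rfl
  have hd : (K.E fun u => K.z (K.k w + 2) u * K.N w u) = K.d w := rfl
  have hp : ∀ f g : V → ℝ, (K.E fun u => K.E fun v => f u * g v) = K.E f * K.E g := K.E_prod
  have e : (K.E fun u => K.E fun v => K.Q w u v) =
      - (K.E fun u => K.E fun v => (K.z (K.k w) u * (1 - K.N w u)) * (K.z (K.k w) v * (1 - K.N w v))) +
      ((K.E fun u => K.E fun v => (K.z (K.k w + 1) u * K.N w u) * K.z (K.k w + 1) v) +
       (K.E fun u => K.E fun v => K.z (K.k w + 1) u * (K.z (K.k w + 1) v * K.N w v)) -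
       (K.E fun u => K.E fun v => (K.z (K.k w + 1) u * K.N w u) * (K.z (K.k w + 1) v * K.N w v)) -
       (K.E fun u => K.E fun v => (K.z (K.k w) u * (1 - K.N w u)) * (K.z (K.k w + 1) v * K.N w v)) -
       (K.E fun u => K.E fun v => (K.z (K.k w + 1) u * K.N w u) * (K.z (K.k w) v * (1 - K.N w v)))) +
      ((K.E fun u => K.E fun v => (K.z (K.k w + 2) u * K.N w u) * K.z (K.k w + 2) v) +
       (K.E fun u => K.E fun v => K.z (K.k w + 2) u * (K.z (K.k w + 2) v * K.N w v)) -
       (K.E fun u => K.E fun v => (K.z (K.k w + 2) u * K.N w u) * (K.z (K.k w + 2) v * K.N w v)) -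
       (K.E fun u => K.E fun v => (K.z (K.k w) u * (1 - K.N w u)) * (K.z (K.k w + 2) v * K.N w v)) -
       (K.E fun u => K.E fun v => (K.z (K.k w + 2) u * K.N w u) * (K.z (K.k w) v * (1 - K.N w v)))) := by
    have e0 : ∀ f : V → V → ℝ, - (K.E fun u => K.E fun v => f u v) = K.E fun u => K.E fun v => - f u v := by
      intro f
      have : ∀ u, (K.E fun v => - f u v) = - 1 * K.E fun v => f u v := by
        intro u; rw [← K.E_mul]; exact K.E_congr fun v => by ring
      rw [K.E_congr this, K.E_mul]; ring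
    rw [e0]
    simp only [← K.E_add, ← K.E_sub]
    refine K.E_congr fun u => K.E_congr fun v => ?_
    unfold Q Qi
    ring
  rw [e]
  simp only [hp, ha, hb, hd]
  have h1 : K.E (K.z (K.k w + 1)) = K.al (K.k w + 1) := rfl
  have h2 : K.E (K.z (K.k w + 2)) = K.al (K.k w + 2) := rfl
  have h3 : (K.E fun v => K.z (K.k w + 1) v) = K.al (K.k w + 1) := rfl
  have h4 : (K.E fun v => K.z (K.k w + 2) v) = K.al (K.k w + 2) := rfl
  simp only [h1, h2]
  ring

/-- the first lower bound -/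
theorem lower0 : 3 * (K.E fun v => K.o v ^ 2) + (K.al 0 ^ 3 + K.al 1 ^ 3 + K.al 2 ^ 3) +
    3 * (K.E fun w => - K.a w ^ 2 + (2 * K.b w * K.al (K.k w + 1) - K.b w ^ 2 - 2 * K.a w * K.b w) +
      (2 * K.d w * K.al (K.k w + 2) - K.d w ^ 2 - 2 * K.a w * K.d w)) ≤ pp K.x K.c := by
  rw [K.pp_eq]
  have h1 : (K.E fun u => K.E fun v => K.E fun w =>
      (K.A u v * K.A u w + K.A v u * K.A v w + K.A w u * K.A w v) +
      (K.z 0 u * K.z 0 v * K.z 0 w + K.z 1 u * K.z 1 v * K.z 1 w + K.z 2 u * K.z 2 v * K.z 2 w +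
      K.Q w u v + K.Q v u w + K.Q u v w)) ≤ K.E fun a => K.E fun b => K.E fun g =>
    (fld FTT 1 (tc (K.c a b) (K.c a g) (K.c b g)) : ℝ) := by
    refine K.E_mono fun u => K.E_mono fun v => K.E_mono fun w => ?_
    rw [K.F_eq]
    have := K.triple u v w
    linarith
  refine le_trans (le_of_eq ?_) h1
  have hA : (K.E fun u => K.E fun v => K.E fun w => K.A u v * K.A u w) = K.E fun v => K.o v ^ 2 := by
    refine K.E_congr fun u => ?_
    rw [K.E_prod]; unfold o; ring
  have hB : (K.E fun u => K.E fun v => K.E fun w => K.A v u * K.A v w) = K.E fun v => K.o v ^ 2 := by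
    rw [K.E_comm]; exact hA
  have hC : (K.E fun u => K.E fun v => K.E fun w => K.A w u * K.A w v) = K.E fun v => K.o v ^ 2 := by
    rw [← hB]
    refine K.E_congr fun u => ?_
    rw [K.E_comm]
  have hz : ∀ l, (K.E fun u => K.E fun v => K.E fun w => K.z l u * K.z l v * K.z l w) = K.al l ^ 3 := by
    intro l
    have : ∀ u, (K.E fun v => K.E fun w => K.z l u * K.z l v * K.z l w) = K.z l u * (K.al l * K.al l) := by
      intro u
      have h3 : (K.al l * K.al l) = K.E fun v => K.E fun w => K.z l v * K.z l w := (K.E_prod _ _).symm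
      rw [h3, ← K.E_mul]
      refine K.E_congr fun v => ?_
      rw [← K.E_mul]
      exact K.E_congr fun w => by ring
    rw [K.E_congr this, K.E_mul_right]
    unfold al
    ring
  have hQ3 : (K.E fun u => K.E fun v => K.E fun w => K.Q u v w) =
      K.E fun w => - K.a w ^ 2 + (2 * K.b w * K.al (K.k w + 1) - K.b w ^ 2 - 2 * K.a w * K.b w) +
      (2 * K.d w * K.al (K.k w + 2) - K.d w ^ 2 - 2 * K.a w * K.d w) := K.E_congr fun u => K.Q_int u
  have hQ2 : (K.E fun u => K.E fun v => K.E fun w => K.Q v u w) =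
      K.E fun u => K.E fun v => K.E fun w => K.Q u v w := by
    rw [K.E_comm]
  have hQ1 : (K.E fun u => K.E fun v => K.E fun w => K.Q w u v) =
      K.E fun u => K.E fun v => K.E fun w => K.Q u v w := by
    rw [← hQ2]
    refine K.E_congr fun u => ?_
    rw [K.E_comm]
  rw [hQ3] at hQ1 hQ2
  simp only [K.E_add]
  rw [hA, hB, hC, hz, hz, hz, hQ1, hQ2, hQ3]
  simp only [K.E_add]
  ring

/-- switching the two endpoints of a non-adjacent pair in different classes -/
theorem swap (f : Fin 3 → ℝ) : (K.E fun v => K.b v * f (K.k v)) = K.E fun v => K.d v * f (K.k v + 2) := by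
  have e1 : (K.E fun v => K.b v * f (K.k v)) =
      K.E fun v => K.E fun w => K.z (K.k v + 1) w * K.N v w * f (K.k v) := by
    refine K.E_congr fun v => ?_
    rw [K.E_mul_right]; rfl
  have e2 : (K.E fun v => K.d v * f (K.k v + 2)) =
      K.E fun v => K.E fun w => K.z (K.k v + 2) w * K.N v w * f (K.k v + 2) := by
    refine K.E_congr fun v => ?_
    rw [K.E_mul_right]; rfl
  rw [e1, e2, K.E_comm]
  refine K.E_congr fun v => K.E_congr fun w => ?_
  rw [K.N_symm w v]
  unfold z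
  generalize K.k v = i
  generalize K.k w = j
  fin_cases i <;> fin_cases j <;> simp [bi]

end Cfg

end Pool.Agent.L0h25.FDF
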