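import Pool.Agent.L0h25.FDF.An2

/-! The lower bound in normal form, and local optimality of the partition. -/

set_option autoImplicit false

open Finset

namespace Pool.Agent.L0h25.FDF
namespace Cfg
variable {V : Type} [Fintype V] (K : Cfg V)

noncomputable def de (l : Fin 3) : ℝ := K.al l - 1 / 3
noncomputable def q : ℝ := K.de 0 ^ 2 + K.de 1 ^ 2 + K.de 2 ^ 2
noncomputable def r : ℝ := K.de 0 ^ 3 + K.de 1 ^ 3 + K.de 2 ^ 3
noncomputable def m : ℝ := 1 / 3 - K.q / 2

noncomputable def G (v : V) : ℝ :=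
  K.a v * (1 - 3 / 2 * K.q - 3 * K.a v) +
  K.b v * (1 - 3 * K.de (K.k v + 2) + 3 / 2 * K.q - 3 * K.b v - 6 * K.a v) +
  K.d v * (1 - 3 * K.de (K.k v + 1) + 3 / 2 * K.q - 3 * K.d v - 6 * K.a v)

theorem de_sum : K.de 0 + K.de 1 + K.de 2 = 0 := by
  have := K.al_sum
  unfold de; linarith

theorem de_rot (i : Fin 3) : K.de i + K.de (i + 1) + K.de (i + 2) = 0 := by
  rw [sum_rot]; exact K.de_sum

theorem E_o : K.E K.o = K.m + (K.E K.a - K.E K.b - K.E K.d) / 2 := by
  have h1 : K.E (fun v => K.o v + K.io v + K.bt v) = 1 := by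
    rw [K.E_congr K.sum_oib, K.E_const]
  rw [K.E_add, K.E_add] at h1
  have h2 : (K.E fun v => K.io v) = K.E K.o := K.E_io
  have h3 : (K.E fun v => K.bt v) = (K.al 0 * K.al 0 + K.al 1 * K.al 1 + K.al 2 * K.al 2) - K.E K.a + K.E K.b + K.E K.d := by
    rw [K.E_congr K.bt_eq, K.E_add, K.E_add, K.E_sub, K.E_class]
  have h4 : (K.E fun v => K.o v) = K.E K.o := rfl
  rw [h2, h3, h4] at h1
  have h5 := K.al_sum
  have h6 : K.al 2 = 1 - K.al 0 - K.al 1 := by linarith
  unfold m q de
  rw [h6] at h1 ⊢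
  linarith

theorem swap_de : (K.E fun v => K.b v * K.de (K.k v + 1)) + (K.E fun v => K.d v * K.de (K.k v + 2)) =
    - (K.E fun v => K.b v * K.de (K.k v + 2)) ∧
    (K.E fun v => K.b v * K.de (K.k v + 1)) + (K.E fun v => K.d v * K.de (K.k v + 2)) =
    - (K.E fun v => K.d v * K.de (K.k v + 1)) := by
  have h1 := K.swap (fun l => K.de (l + 1))
  have h2 := K.swap (fun l => K.de l)
  have h3 : ∀ i : Fin 3, i + 2 + 1 = i := by decide
  simp only [h3] at h1
  have h4 : (K.E fun v => K.b v * K.de (K.k v)) + (K.E fun v => K.b v * K.de (K.k v + 1)) +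
      (K.E fun v => K.b v * K.de (K.k v + 2)) = 0 := by
    rw [← K.E_add, ← K.E_add, ← K.E_const 0]
    refine K.E_congr fun v => ?_
    have := K.de_rot (K.k v)
    linear_combination K.b v * this
  have h5 : (K.E fun v => K.d v * K.de (K.k v)) + (K.E fun v => K.d v * K.de (K.k v + 1)) +
      (K.E fun v => K.d v * K.de (K.k v + 2)) = 0 := by
    rw [← K.E_add, ← K.E_add, ← K.E_const 0]
    refine K.E_congr fun v => ?_
    have := K.de_rot (K.k v)
    linear_combination K.d v * this
  constructor <;> linarith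

theorem lower : 4 / 9 + K.r + 3 / 4 * K.q ^ 2 + 3 * (K.E fun v => (K.o v - K.m) ^ 2) + K.E K.G ≤ pp K.x K.c := by
  refine le_trans (le_of_eq ?_) K.lower0
  have e1 : (K.E fun v => (K.o v - K.m) ^ 2) = (K.E fun v => K.o v ^ 2) - 2 * K.m * K.E K.o + K.m ^ 2 := by
    rw [← K.E_mul, ← K.E_sub]
    conv_rhs => rw [← K.E_const (K.m ^ 2)]
    rw [← K.E_add]
    exact K.E_congr fun v => by ring
  have e2 : K.E K.G = (1 - 3 / 2 * K.q) * K.E K.a - 3 * (K.E fun v => K.a v ^ 2) +
      (1 + 3 / 2 * K.q) * K.E K.b - 3 * (K.E fun v => K.b v * K.de (K.k v + 2)) - 3 * (K.E fun v => K.b v ^ 2)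
        - 6 * (K.E fun v => K.a v * K.b v) +
      (1 + 3 / 2 * K.q) * K.E K.d - 3 * (K.E fun v => K.d v * K.de (K.k v + 1)) - 3 * (K.E fun v => K.d v ^ 2)
        - 6 * (K.E fun v => K.a v * K.d v) := by
    simp only [← K.E_mul, ← K.E_add, ← K.E_sub]
    refine K.E_congr fun v => ?_
    unfold G; ring
  have e3 : (K.E fun w => - K.a w ^ 2 + (2 * K.b w * K.al (K.k w + 1) - K.b w ^ 2 - 2 * K.a w * K.b w) +
      (2 * K.d w * K.al (K.k w + 2) - K.d w ^ 2 - 2 * K.a w * K.d w)) =
      2 / 3 * K.E K.b + 2 / 3 * K.E K.d - (K.E fun v => K.a v ^ 2) + 2 * (K.E fun v => K.b v * K.de (K.k v + 1))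
        - (K.E fun v => K.b v ^ 2) - 2 * (K.E fun v => K.a v * K.b v)
        + 2 * (K.E fun v => K.d v * K.de (K.k v + 2)) - (K.E fun v => K.d v ^ 2)
        - 2 * (K.E fun v => K.a v * K.d v) := by
    simp only [← K.E_mul, ← K.E_add, ← K.E_sub]
    refine K.E_congr fun v => ?_
    unfold de; ring
  obtain ⟨s1, s2⟩ := K.swap_de
  have hσ : K.al 0 ^ 3 + K.al 1 ^ 3 + K.al 2 ^ 3 = 1 / 9 + K.q + K.r := by
    have := K.de_sum
    have h0 : K.al 0 = 1 / 3 + K.de 0 := by unfold de; ring
    have h1 : K.al 1 = 1 / 3 + K.de 1 := by unfold de; ring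
    have h2 : K.al 2 = 1 / 3 + K.de 2 := by unfold de; ring
    unfold q r
    rw [h0, h1, h2]
    linear_combination (1 / 3 : ℝ) * this
  rw [e1, e2, e3, K.E_o, hσ]
  unfold m
  linear_combination -3 * s1 - 3 * s2

/-- the bad-pair indicator for a class function -/
noncomputable def bk (k : V → Fin 3) (u w : V) : ℝ := if k u = k w then 1 - K.N u w else K.N u w

noncomputable def Bk (k : V → Fin 3) : ℝ := K.E fun u => K.E fun w => K.bk k u w

theorem z_eq (l : Fin 3) (w : V) : K.z l w = if K.k w = l then 1 else 0 := by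
  unfold z
  by_cases h : K.k w = l <;> simp [h, bi]

theorem Bk_row (u : V) : (K.E fun w => K.bk K.k u w) = K.a u + K.b u + K.d u := by
  have e : (K.E fun w => K.bk K.k u w) = (K.E fun w => K.z (K.k u) w) - (K.E fun w => K.z (K.k u) w * K.N u w) +
      (K.E fun w => K.z (K.k u + 1) w * K.N u w) + (K.E fun w => K.z (K.k u + 2) w * K.N u w) := by
    rw [← K.E_sub, ← K.E_add, ← K.E_add]
    refine K.E_congr fun w => ?_
    unfold bk
    rw [K.z_eq, K.z_eq, K.z_eq]
    generalize K.k u = i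
    generalize K.k w = j
    fin_cases i <;> fin_cases j <;> simp
  rw [e]; rfl

theorem Bk_eq : K.Bk K.k = K.E K.a + K.E K.b + K.E K.d := by
  unfold Bk
  rw [K.E_congr K.Bk_row, K.E_add, K.E_add]

/-- a row and a column -/
theorem rowcol (h : V → V → ℝ) (v : V) (hs : ∀ u w, h u w = h w u) (hv : h v v = 0)
    (h0 : ∀ u w, u ≠ v → w ≠ v → h u w = 0) :
    (K.E fun u => K.E fun w => h u w) = 2 * (K.x v * K.E fun w => h v w) := by
  classical
  have e : ∀ u, (K.E fun w => h u w) = (if u = v then K.E (fun w => h v w) else 0) + K.x v * h v u := by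
    intro u
    by_cases hu : u = v
    · rw [if_pos hu, hu, hv]; ring
    · rw [if_neg hu, zero_add, hs v u]
      unfold E
      rw [Finset.sum_eq_single v]
      · intro w _ hw
        show K.x w * h u w = 0
        rw [h0 u w hu hw, mul_zero]
      · intro hcon; exact absurd (Finset.mem_univ v) hcon
  rw [K.E_congr e, K.E_add, K.E_mul]
  have : ∀ t : ℝ, (K.E fun u => if u = v then t else 0) = K.x v * t := by
    intro t
    unfold E
    simp
  rw [this]
  ring

theorem opt_gen (hmin : ∀ k, K.Bk K.k ≤ K.Bk k) (v : V) (l : Fin 3) :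
    K.a v + K.b v + K.d v ≤ K.E fun w => if l = K.k w then 1 - K.N v w else K.N v w := by
  classical
  have h1 := hmin (Function.update K.k v l)
  have hh : ∀ u w, K.bk (Function.update K.k v l) u w - K.bk K.k u w =
      K.bk (Function.update K.k v l) w u - K.bk K.k w u := by
    intro u w
    unfold bk
    rw [K.N_symm w u]
    have e1 : (Function.update K.k v l u = Function.update K.k v l w) =
      (Function.update K.k v l w = Function.update K.k v l u) := propext eq_comm
    have e2 : (K.k u = K.k w) = (K.k w = K.k u) := propext eq_comm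
    simp only [e1, e2]
  have hvv : K.bk (Function.update K.k v l) v v - K.bk K.k v v = 0 := by
    unfold bk; simp
  have h0 : ∀ u w, u ≠ v → w ≠ v → K.bk (Function.update K.k v l) u w - K.bk K.k u w = 0 := by
    intro u w hu hw
    unfold bk
    rw [Function.update_of_ne hu, Function.update_of_ne hw, sub_self]
  have h2 := K.rowcol (fun u w => K.bk (Function.update K.k v l) u w - K.bk K.k u w) v hh hvv h0
  have h3 : (K.E fun u => K.E fun w => (K.bk (Function.update K.k v l) u w - K.bk K.k u w)) =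
      K.Bk (Function.update K.k v l) - K.Bk K.k := by
    unfold Bk
    rw [← K.E_sub]
    exact K.E_congr fun u => K.E_sub _ _
  have hxv := K.hx v
  have h4 : 0 ≤ K.E fun w => (K.bk (Function.update K.k v l) v w - K.bk K.k v w) := by
    have h5 : 0 ≤ 2 * (K.x v * K.E fun w => (K.bk (Function.update K.k v l) v w - K.bk K.k v w)) := by
      rw [← h2, h3]; linarith
    by_contra hcon
    push Not at hcon
    have := mul_pos_of_neg_of_neg (neg_lt_zero.mpr hxv) hcon
    nlinarith
  rw [K.E_sub, K.Bk_row] at h4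
  have h6 : (K.E fun w => K.bk (Function.update K.k v l) v w) ≤
      K.E fun w => if l = K.k w then 1 - K.N v w else K.N v w := by
    refine K.E_mono fun w => ?_
    unfold bk
    rw [Function.update_self]
    by_cases hw : w = v
    · subst hw
      rw [Function.update_self, if_pos rfl, K.N_self]
      split_ifs <;> norm_num
    · rw [Function.update_of_ne hw]
  linarith

theorem opt1 (hmin : ∀ k, K.Bk K.k ≤ K.Bk k) (v : V) :
    2 * (K.a v + K.b v) ≤ K.al (K.k v) + K.al (K.k v + 1) := by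
  have h := K.opt_gen hmin v (K.k v + 1)
  have e : (K.E fun w => if K.k v + 1 = K.k w then 1 - K.N v w else K.N v w) =
      (K.E fun w => K.z (K.k v) w * K.N v w) + (K.E fun w => K.z (K.k v + 1) w)
       - (K.E fun w => K.z (K.k v + 1) w * K.N v w) + (K.E fun w => K.z (K.k v + 2) w * K.N v w) := by
    rw [← K.E_add, ← K.E_sub, ← K.E_add]
    refine K.E_congr fun w => ?_
    rw [K.z_eq, K.z_eq, K.z_eq]
    generalize K.k v = i
    generalize K.k w = j
    fin_cases i <;> fin_cases j <;> simp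
  rw [e] at h
  have e1 : (K.E fun w => K.z (K.k v) w * K.N v w) = K.y (K.k v) v := rfl
  have e2 : (K.E fun w => K.z (K.k v + 1) w) = K.al (K.k v + 1) := rfl
  have e3 : (K.E fun w => K.z (K.k v + 1) w * K.N v w) = K.b v := rfl
  have e4 : (K.E fun w => K.z (K.k v + 2) w * K.N v w) = K.d v := rfl
  have e5 : K.a v = K.al (K.k v) - K.y (K.k v) v := rfl
  rw [e1, e2, e3, e4] at h
  linarith

theorem opt2 (hmin : ∀ k, K.Bk K.k ≤ K.Bk k) (v : V) :
    2 * (K.a v + K.d v) ≤ K.al (K.k v) + K.al (K.k v + 2) := by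
  have h := K.opt_gen hmin v (K.k v + 2)
  have e : (K.E fun w => if K.k v + 2 = K.k w then 1 - K.N v w else K.N v w) =
      (K.E fun w => K.z (K.k v) w * K.N v w) + (K.E fun w => K.z (K.k v + 2) w)
       - (K.E fun w => K.z (K.k v + 2) w * K.N v w) + (K.E fun w => K.z (K.k v + 1) w * K.N v w) := by
    rw [← K.E_add, ← K.E_sub, ← K.E_add]
    refine K.E_congr fun w => ?_
    rw [K.z_eq, K.z_eq, K.z_eq]
    generalize K.k v = i
    generalize K.k w = j
    fin_cases i <;> fin_cases j <;> simp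
  rw [e] at h
  have e1 : (K.E fun w => K.z (K.k v) w * K.N v w) = K.y (K.k v) v := rfl
  have e2 : (K.E fun w => K.z (K.k v + 2) w) = K.al (K.k v + 2) := rfl
  have e3 : (K.E fun w => K.z (K.k v + 1) w * K.N v w) = K.b v := rfl
  have e4 : (K.E fun w => K.z (K.k v + 2) w * K.N v w) = K.d v := rfl
  have e5 : K.a v = K.al (K.k v) - K.y (K.k v) v := rfl
  rw [e1, e2, e3, e4] at h
  linarith

end Cfg

end Pool.Agent.L0h25.FDF
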