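import Mathlib

/-! Inequalities in real variables. -/

set_option autoImplicit false

namespace Pool.Agent.L0h25.FDF

theorem r_bound {e0 e1 e2 : ℝ} (hs : e0 + e1 + e2 = 0) :
    6 * (e0 ^ 3 + e1 ^ 3 + e2 ^ 3) ^ 2 ≤ (e0 ^ 2 + e1 ^ 2 + e2 ^ 2) ^ 3 := by
  have h2 : e2 = - e0 - e1 := by linarith
  subst h2
  nlinarith [sq_nonneg ((e0 - e1) * (2 * e0 + e1) * (e0 + 2 * e1))]

theorem r_bound2 {q r : ℝ} (h : 6 * r ^ 2 ≤ q ^ 3) (h0 : 0 ≤ q) (hq : q ≤ 16 / 1000) :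
    - (517 / 10000 * q) ≤ r := by
  have h1 : r ^ 2 ≤ (517 / 10000 * q) ^ 2 := by
    have h2 : q ^ 3 ≤ 16 / 1000 * q ^ 2 := by nlinarith [sq_nonneg q]
    nlinarith [sq_nonneg q]
  exact (abs_le.mp (abs_le_of_sq_le_sq h1 (by linarith))).1

theorem de_bound {e0 e1 e2 : ℝ} (hs : e0 + e1 + e2 = 0) :
    e0 ^ 2 ≤ 2 / 3 * (e0 ^ 2 + e1 ^ 2 + e2 ^ 2) := by
  have h2 : e2 = - e0 - e1 := by linarith
  subst h2
  nlinarith [sq_nonneg (e0 + 2 * e1)]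

theorem de_abs {e q : ℝ} (h : e ^ 2 ≤ 2 / 3 * q) (hq : q ≤ 16 / 1000) :
    - (1033 / 10000) ≤ e ∧ e ≤ 1033 / 10000 := by
  constructor <;> nlinarith

/-- one term of the crude bound -/
theorem term_bound {b P : ℝ} (h0 : 0 ≤ b) (h1 : b ≤ P) :
    (1 / 4 ≤ P ∧ 0 ≤ b * (6 * P - 3 * b - 3 / 4)) ∨
    (P ≤ 1 / 4 ∧ P * (3 * P - 3 / 4) ≤ b * (6 * P - 3 * b - 3 / 4)) := by
  rcases le_total (1 / 4) P with h | h
  · left
    refine ⟨h, ?_⟩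
    exact mul_nonneg h0 (by linarith)
  · right
    refine ⟨h, ?_⟩
    nlinarith [mul_nonneg (sub_nonneg.mpr h1) (by linarith : 0 ≤ 3 / 4 - 3 * (P - b))]

/-- the crude bound -/
theorem crude_real {a b d e1 e2 q : ℝ} (ha : 0 ≤ a) (hb : 0 ≤ b) (hd : 0 ≤ d)
    (h1 : 2 * (a + b) ≤ 2 / 3 - e2) (h2 : 2 * (a + d) ≤ 2 / 3 - e1)
    (hq0 : 0 ≤ q) (hq : q ≤ 16 / 1000)
    (he1 : - (1033 / 10000) ≤ e1) (he1' : e1 ≤ 1033 / 10000)
    (he2 : - (1033 / 10000) ≤ e2) (he2' : e2 ≤ 1033 / 10000)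
    (he0 : - (1033 / 10000) ≤ - e1 - e2) (he0' : - e1 - e2 ≤ 1033 / 10000) :
    - (1 / 4) * (a + b + d) ≤ a * (1 - 3 / 2 * q - 3 * a) + b * (1 - 3 * e2 + 3 / 2 * q - 3 * b - 6 * a) +
      d * (1 - 3 * e1 + 3 / 2 * q - 3 * d - 6 * a) := by
  have hP := term_bound hb (by linarith : b ≤ 1 / 3 - a - e2 / 2)
  have hR := term_bound hd (by linarith : d ≤ 1 / 3 - a - e1 / 2)
  have hqa : q * a ≤ 16 / 1000 * a := mul_le_mul_of_nonneg_right hq ha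
  have hqb : 0 ≤ q * b := mul_nonneg hq0 hb
  have hqd : 0 ≤ q * d := mul_nonneg hq0 hd
  have key : 0 ≤ a * (5 / 4 - 24 / 1000 - 3 * a) + b * (6 * (1 / 3 - a - e2 / 2) - 3 * b - 3 / 4) +
      d * (6 * (1 / 3 - a - e1 / 2) - 3 * d - 3 / 4) := by
    have hP0 : 0 ≤ 1 / 3 - a - e2 / 2 := by linarith
    have hR0 : 0 ≤ 1 / 3 - a - e1 / 2 := by linarith
    rcases hP with ⟨p1, p2⟩ | ⟨p1, p2⟩ <;> rcases hR with ⟨r1, r2⟩ | ⟨r1, r2⟩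
    · have : 0 ≤ a * (5 / 4 - 24 / 1000 - 3 * a) := mul_nonneg ha (by linarith)
      linarith
    · have : 0 ≤ a * (5 / 4 - 24 / 1000 - 3 * a) + (1 / 3 - a - e1 / 2) * (3 * (1 / 3 - a - e1 / 2) - 3 / 4) := by
        nlinarith [mul_nonneg hR0 (sub_nonneg.mpr r1), mul_nonneg hR0 (sub_nonneg.mpr he1'),
          mul_nonneg hR0 (by linarith : 0 ≤ e1 + 1033 / 10000), mul_nonneg (sub_nonneg.mpr he1') (by linarith : 0 ≤ e1 + 1033 / 10000),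
          mul_nonneg (sub_nonneg.mpr r1) (sub_nonneg.mpr he1'), mul_nonneg (sub_nonneg.mpr r1) (by linarith : 0 ≤ e1 + 1033 / 10000)]
      linarith
    · have : 0 ≤ a * (5 / 4 - 24 / 1000 - 3 * a) + (1 / 3 - a - e2 / 2) * (3 * (1 / 3 - a - e2 / 2) - 3 / 4) := by
        nlinarith [mul_nonneg hP0 (sub_nonneg.mpr p1), mul_nonneg hP0 (sub_nonneg.mpr he2'),
          mul_nonneg hP0 (by linarith : 0 ≤ e2 + 1033 / 10000), mul_nonneg (sub_nonneg.mpr he2') (by linarith : 0 ≤ e2 + 1033 / 10000),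
          mul_nonneg (sub_nonneg.mpr p1) (sub_nonneg.mpr he2'), mul_nonneg (sub_nonneg.mpr p1) (by linarith : 0 ≤ e2 + 1033 / 10000)]
      linarith
    · have : 0 ≤ a * (5 / 4 - 24 / 1000 - 3 * a) + (1 / 3 - a - e1 / 2) * (3 * (1 / 3 - a - e1 / 2) - 3 / 4)
          + (1 / 3 - a - e2 / 2) * (3 * (1 / 3 - a - e2 / 2) - 3 / 4) := by
        nlinarith [sq_nonneg (e1 - e2), sq_nonneg (6 * a + (2726 / 1000 - 6 * (2 / 3 - (e1 + e2) / 2))),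
          mul_nonneg (by linarith : 0 ≤ 1033 / 10000 - (e1 + e2)) (by linarith : 0 ≤ (e1 + e2) + 1033 / 10000)]
      linarith
  nlinarith

/-- the threshold -/
theorem tau_bound {e q : ℝ} (h : e ^ 2 ≤ 2 / 3 * q) :
    2012 / 100000 - 64 / 100 * q ≤ 95 / 1000 * (1 / 3 + e - 95 / 1000) := by
  nlinarith [sq_nonneg (e + 95 / 1920)]

theorem small_or_large {s al T tau : ℝ} (h0 : s * (al - s) ≤ tau) (h1 : tau ≤ T * (al - T))
    (h2 : 2 * T ≤ al) : s ≤ T ∨ al - s ≤ T := by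
  by_contra hcon
  push Not at hcon
  nlinarith [mul_pos (sub_pos.mpr hcon.1) (by linarith : 0 < al - s - T)]

theorem small_sum {s0 s1 s2 a0 a1 a2 T tau : ℝ} (hT : 0 < T) (ht : 0 < tau) (h0 : 0 ≤ s0) (h1 : 0 ≤ s1) (h2 : 0 ≤ s2)
    (g0 : s0 ≤ T) (g1 : s1 ≤ T) (g2 : s2 ≤ T)
    (k0 : tau ≤ T * (a0 - T)) (k1 : tau ≤ T * (a1 - T)) (k2 : tau ≤ T * (a2 - T))
    (h : s0 * (a0 - s0) + s1 * (a1 - s1) + s2 * (a2 - s2) ≤ tau) :
    s0 + s1 + s2 ≤ T ∧ s0 * (a0 - T) + s1 * (a1 - T) + s2 * (a2 - T) ≤ tau := by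
  have hh : s0 * (a0 - T) + s1 * (a1 - T) + s2 * (a2 - T) ≤ tau := by
    nlinarith [mul_nonneg h0 (sub_nonneg.mpr g0), mul_nonneg h1 (sub_nonneg.mpr g1), mul_nonneg h2 (sub_nonneg.mpr g2)]
  refine ⟨?_, hh⟩
  have e0 := mul_le_mul_of_nonneg_left k0 h0
  have e1 := mul_le_mul_of_nonneg_left k1 h1
  have e2 := mul_le_mul_of_nonneg_left k2 h2
  have e3 := mul_le_mul_of_nonneg_left hh hT.le
  have e4 : (s0 + s1 + s2) * tau ≤ T * tau := by nlinarith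
  exact le_of_mul_le_mul_right e4 ht

theorem small_ex {s al T tau : ℝ} (hs : 0 ≤ s) (hs' : s ≤ al) (h0 : s * (al - s) ≤ tau)
    (h1 : tau ≤ T * (al - T)) (h2 : 2 * T ≤ al) :
    ∃ t, 0 ≤ t ∧ t ≤ T ∧ t * (al - t) = s * (al - s) ∧ (t = s ∨ t = al - s) := by
  rcases small_or_large h0 h1 h2 with h | h
  · exact ⟨s, hs, h, rfl, Or.inl rfl⟩
  · exact ⟨al - s, by linarith, h, by ring, Or.inr rfl⟩

/-- a vertex with two large classes -/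
theorem two_large {e q X : ℝ} (he : e ^ 2 ≤ 2 / 3 * q) (hu : e ≤ 1033 / 10000)
    (hX : 2539 / 10000 - e ≤ X) (h : X ^ 2 ≤ 4024 / 100000 - 128 / 100 * q) : False := by
  have h3 : (2539 / 10000 - e) ^ 2 ≤ X ^ 2 := pow_le_pow_left₀ (by linarith) hX 2
  have h4 : (2539 / 10000 - e) ^ 2 ≤ 4024 / 100000 - 192 / 100 * e ^ 2 := by linarith
  nlinarith [sq_nonneg (e - 87 / 1000)]

theorem no_large {q X : ℝ} (hq0 : 0 ≤ q) (hX : X ≤ - (22 / 100))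
    (h : X ^ 2 ≤ 4024 / 100000 - 128 / 100 * q) : False := by
  nlinarith

/-- the linear part of the classification -/
theorem classify_lin {a b d e0 e1 e2 sa sb sd : ℝ}
    (hs : e0 + e1 + e2 = 0)
    (l0 : - (1033 / 10000) ≤ e0) (l1 : - (1033 / 10000) ≤ e1) (l2 : - (1033 / 10000) ≤ e2)
    (u0 : e0 ≤ 1033 / 10000) (u1 : e1 ≤ 1033 / 10000) (u2 : e2 ≤ 1033 / 10000)
    (pa : 0 ≤ sa) (pb : 0 ≤ sb) (pd : 0 ≤ sd)
    (o1 : 2 * (a + b) ≤ 2 / 3 - e2) (o2 : 2 * (a + d) ≤ 2 / 3 - e1)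
    (h : sa + sb + sd ≤ 95 / 1000)
    (ca : sa = a ∨ sa = 1 / 3 + e0 - a) (cb : sb = b ∨ sb = 1 / 3 + e1 - b)
    (cd : sd = d ∨ sd = 1 / 3 + e2 - d) :
    (sa = a ∧ sb = b ∧ sd = d) ∨ (2539 / 10000 - e1 ≤ (1 / 3 + e0 - a + b + d) - 1 / 3 + 1 / 64) ∨
    (2539 / 10000 - e2 ≤ (1 / 3 + e0 - a + b + d) - 1 / 3 + 1 / 64) ∨
    ((1 / 3 + e0 - a + b + d) - 1 / 3 + 1 / 64 ≤ - (22 / 100)) := by
  rcases ca with ca | ca
  · rcases cb with cb | cb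
    · rcases cd with cd | cd
      · exact Or.inl ⟨ca, cb, cd⟩
      · exact Or.inr (Or.inl (by linarith))
    · rcases cd with cd | cd
      · exact Or.inr (Or.inr (Or.inl (by linarith)))
      · exact Or.inr (Or.inr (Or.inl (by linarith)))
  · rcases cb with cb | cb
    · rcases cd with cd | cd
      · exact Or.inr (Or.inr (Or.inr (by linarith)))
      · exfalso; linarith
    · exfalso; linarith

/-- the classification of vertices -/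
theorem classify {a b d e0 e1 e2 q : ℝ} (ha : 0 ≤ a) (hb : 0 ≤ b) (hd : 0 ≤ d)
    (ha' : a ≤ 1 / 3 + e0) (hb' : b ≤ 1 / 3 + e1) (hd' : d ≤ 1 / 3 + e2)
    (hs : e0 + e1 + e2 = 0) (hq0 : 0 ≤ q) (hq : q ≤ 16 / 1000)
    (h0 : e0 ^ 2 ≤ 2 / 3 * q) (h1 : e1 ^ 2 ≤ 2 / 3 * q) (h2 : e2 ^ 2 ≤ 2 / 3 * q)
    (o1 : 2 * (a + b) ≤ 2 / 3 - e2) (o2 : 2 * (a + d) ≤ 2 / 3 - e1)
    (hS : 2 * (a * (1 / 3 + e0 - a) + b * (1 / 3 + e1 - b) + d * (1 / 3 + e2 - d)) +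
      ((1 / 3 + e0 - a + b + d) - 1 / 3 + 1 / 64) ^ 2 ≤ 4024 / 100000 - 128 / 100 * q) :
    a + b + d ≤ 95 / 1000 ∧ a * (1 / 3 + e0 - 95 / 1000) + b * (1 / 3 + e1 - 95 / 1000) +
      d * (1 / 3 + e2 - 95 / 1000) ≤ 2012 / 100000 - 64 / 100 * q := by
  have t0 := tau_bound h0
  have t1 := tau_bound h1
  have t2 := tau_bound h2
  obtain ⟨l0, u0⟩ := de_abs h0 hq
  obtain ⟨l1, u1⟩ := de_abs h1 hq
  obtain ⟨l2, u2⟩ := de_abs h2 hq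
  have htau : 0 < 2012 / 100000 - 64 / 100 * q := by linarith only [hq]
  have pa : 0 ≤ a * (1 / 3 + e0 - a) := mul_nonneg ha (by linarith only [ha'])
  have pb : 0 ≤ b * (1 / 3 + e1 - b) := mul_nonneg hb (by linarith only [hb'])
  have pd : 0 ≤ d * (1 / 3 + e2 - d) := mul_nonneg hd (by linarith only [hd'])
  have psq := sq_nonneg ((1 / 3 + e0 - a + b + d) - 1 / 3 + 1 / 64)
  have hsum : a * (1 / 3 + e0 - a) + b * (1 / 3 + e1 - b) + d * (1 / 3 + e2 - d) ≤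
      2012 / 100000 - 64 / 100 * q := by linarith only [hS, psq]
  have hbt : ((1 / 3 + e0 - a + b + d) - 1 / 3 + 1 / 64) ^ 2 ≤ 4024 / 100000 - 128 / 100 * q := by
    linarith only [hS, pa, pb, pd]
  obtain ⟨sa, sa0, sa1, sa2, ca⟩ := small_ex (T := 95 / 1000) (tau := 2012 / 100000 - 64 / 100 * q) ha ha'
    (by linarith only [hsum, pb, pd]) t0 (by linarith only [l0])
  obtain ⟨sb, sb0, sb1, sb2, cb⟩ := small_ex (T := 95 / 1000) (tau := 2012 / 100000 - 64 / 100 * q) hb hb'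
    (by linarith only [hsum, pa, pd]) t1 (by linarith only [l1])
  obtain ⟨sd, sd0, sd1, sd2, cd⟩ := small_ex (T := 95 / 1000) (tau := 2012 / 100000 - 64 / 100 * q) hd hd'
    (by linarith only [hsum, pa, pb]) t2 (by linarith only [l2])
  have hT : (0 : ℝ) < 95 / 1000 := by norm_num
  have hh := small_sum hT htau sa0 sb0 sd0 sa1 sb1 sd1 t0 t1 t2 (by rw [sa2, sb2, sd2]; exact hsum)
  rcases classify_lin hs l0 l1 l2 u0 u1 u2 sa0 sb0 sd0 o1 o2 hh.1 ca cb cd with h | h | h | h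
  · obtain ⟨k0, k1, k2⟩ := h
    subst k0; subst k1; subst k2
    exact hh
  · exact (two_large h1 u1 h hbt).elim
  · exact (two_large h2 u2 h hbt).elim
  · exact (no_large hq0 h hbt).elim

end Pool.Agent.L0h25.FDF
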