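import Pool.Agent.L0h25.FDF.An3
import Pool.Agent.L0h25.FDF.Rl

/-! The vertex inequality and the classification of vertices. -/

set_option autoImplicit false

open Finset

namespace Pool.Agent.L0h25.FDF
namespace Cfg
variable {V : Type} [Fintype V] (K : Cfg V)

/-- a configuration violating the theorem, with an optimal partition -/
structure Good : Prop where
  hmin : ∀ k, K.Bk K.k ≤ K.Bk k
  hp : pp K.x K.c < 4 / 9
  hd : ∀ v, K.dd v < 4 / 9
  hcl : 244 - 375 * (1 - K.E K.bt) + 1125 * K.Bk K.k < 0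

theorem E_bt : K.E K.bt = 1 / 3 + K.q - K.E K.a + K.E K.b + K.E K.d := by
  have h3 : (K.E fun v => K.bt v) = (K.al 0 * K.al 0 + K.al 1 * K.al 1 + K.al 2 * K.al 2) - K.E K.a + K.E K.b + K.E K.d := by
    rw [K.E_congr K.bt_eq, K.E_add, K.E_add, K.E_sub, K.E_class]
  have h4 : (K.E fun v => K.bt v) = K.E K.bt := rfl
  rw [h4] at h3
  rw [h3]
  have h5 := K.al_sum
  have h6 : K.al 2 = 1 - K.al 0 - K.al 1 := by linarith
  unfold q de
  rw [h6]
  ring

theorem Ea_nonneg : 0 ≤ K.E K.a := K.E_nonneg K.a_nonneg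
theorem Eb_nonneg : 0 ≤ K.E K.b := K.E_nonneg K.b_nonneg
theorem Ed_nonneg : 0 ≤ K.E K.d := K.E_nonneg K.d_nonneg

theorem q_nonneg : 0 ≤ K.q := by unfold q; positivity

theorem close1 (h : K.Good) : K.q + 2 * K.E K.a + 4 * (K.E K.b + K.E K.d) < 16 / 1000 := by
  have h1 := h.hcl
  rw [K.E_bt, K.Bk_eq] at h1
  linarith

theorem q_le (h : K.Good) : K.q ≤ 16 / 1000 := by
  have h1 := K.close1 h
  have h2 := K.Ea_nonneg
  have h3 := K.Eb_nonneg
  have h4 := K.Ed_nonneg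
  linarith

theorem q_rot (i : Fin 3) : K.q = K.de i ^ 2 + K.de (i + 1) ^ 2 + K.de (i + 2) ^ 2 :=
  (sum_rot (fun l => K.de l ^ 2) i).symm

theorem r_rot (i : Fin 3) : K.r = K.de i ^ 3 + K.de (i + 1) ^ 3 + K.de (i + 2) ^ 3 :=
  (sum_rot (fun l => K.de l ^ 3) i).symm

theorem de_sq (i : Fin 3) : K.de i ^ 2 ≤ 2 / 3 * K.q := by
  rw [K.q_rot i]
  exact de_bound (K.de_rot i)

theorem r_ge (h : K.Good) : - (517 / 10000 * K.q) ≤ K.r :=
  r_bound2 (r_bound K.de_sum) K.q_nonneg (K.q_le h)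

theorem al_eq (i : Fin 3) : K.al i = 1 / 3 + K.de i := by unfold de; ring

theorem o1 (h : K.Good) (v : V) : 2 * (K.a v + K.b v) ≤ 2 / 3 - K.de (K.k v + 2) := by
  have h1 := K.opt1 h.hmin v
  have h2 := K.de_rot (K.k v)
  rw [K.al_eq, K.al_eq] at h1
  linarith

theorem o2 (h : K.Good) (v : V) : 2 * (K.a v + K.d v) ≤ 2 / 3 - K.de (K.k v + 1) := by
  have h1 := K.opt2 h.hmin v
  have h2 := K.de_rot (K.k v)
  rw [K.al_eq, K.al_eq] at h1
  linarith

theorem G_crude (h : K.Good) (v : V) : - (1 / 4) * (K.a v + K.b v + K.d v) ≤ K.G v := by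
  have hq := K.q_le h
  obtain ⟨l0, u0⟩ := de_abs (K.de_sq (K.k v)) hq
  obtain ⟨l1, u1⟩ := de_abs (K.de_sq (K.k v + 1)) hq
  obtain ⟨l2, u2⟩ := de_abs (K.de_sq (K.k v + 2)) hq
  have h2 := K.de_rot (K.k v)
  exact crude_real (K.a_nonneg v) (K.b_nonneg v) (K.d_nonneg v) (K.o1 h v) (K.o2 h v) K.q_nonneg hq
    l1 u1 l2 u2 (by linarith) (by linarith)

theorem V1_eq : (K.E fun v => (K.o v - 1 / 3) ^ 2) = (K.E fun v => (K.o v - K.m) ^ 2)
    - K.q * (K.E K.a - K.E K.b - K.E K.d) / 2 + K.q ^ 2 / 4 := by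
  have e1 : (K.E fun v => (K.o v - K.m) ^ 2) = (K.E fun v => K.o v ^ 2) - 2 * K.m * K.E K.o + K.m ^ 2 := by
    rw [← K.E_mul, ← K.E_sub]
    conv_rhs => rw [← K.E_const (K.m ^ 2)]
    rw [← K.E_add]
    exact K.E_congr fun v => by ring
  have e2 : (K.E fun v => (K.o v - 1 / 3) ^ 2) = (K.E fun v => K.o v ^ 2) - 2 * (1 / 3) * K.E K.o + (1 / 3) ^ 2 := by
    rw [← K.E_mul, ← K.E_sub]
    conv_rhs => rw [← K.E_const ((1 / 3 : ℝ) ^ 2)]
    rw [← K.E_add]
    exact K.E_congr fun v => by ring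
  rw [e1, e2, K.E_o]
  unfold m
  ring

theorem V1_lt (h : K.Good) : (K.E fun v => (K.o v - 1 / 3) ^ 2) < 1 / 1500 - 244 / 10000 * K.q := by
  have h1 := K.lower
  have h2 := h.hp
  have h3 : - (1 / 4) * (K.E K.a + K.E K.b + K.E K.d) ≤ K.E K.G := by
    rw [← K.E_add, ← K.E_add, ← K.E_mul]
    exact K.E_mono fun v => K.G_crude h v
  have h4 := K.close1 h
  have h5 := K.r_ge h
  have h6 := K.Ea_nonneg
  have h7 := K.Eb_nonneg
  have h8 := K.Ed_nonneg
  have h9 := K.q_nonneg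
  have h10 := K.q_le h
  rw [K.V1_eq]
  have h11 : K.q * K.E K.b ≤ 16 / 1000 * K.E K.b := mul_le_mul_of_nonneg_right h10 h7
  have h12 : K.q * K.E K.d ≤ 16 / 1000 * K.E K.d := mul_le_mul_of_nonneg_right h10 h8
  have h13 : 0 ≤ K.q * K.E K.a := mul_nonneg h9 h6
  nlinarith

theorem eta_ge (v : V) : K.y 0 v * (K.al 0 - K.y 0 v) + K.y 1 v * (K.al 1 - K.y 1 v) +
    K.y 2 v * (K.al 2 - K.y 2 v) - K.E K.a / 2 ≤ K.eta v := by
  -- the restriction to one class
  have hl : ∀ l, (K.E fun b => K.E fun g => K.z l b * K.z l g * (K.N v b * K.N b g * (1 - K.N v g))) =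
      K.y l v * (K.al l - K.y l v) - K.E fun b => K.E fun g => K.z l b * K.z l g * ((1 - K.N b g) * (K.N v b * (1 - K.N v g))) := by
    intro l
    have e1 : K.al l - K.y l v = K.E fun g => K.z l g * (1 - K.N v g) := by
      unfold al y
      rw [← K.E_sub]
      exact K.E_congr fun u => by ring
    have e2 : K.y l v * (K.al l - K.y l v) = K.E fun b => K.E fun g => (K.z l b * K.N v b) * (K.z l g * (1 - K.N v g)) := by
      rw [K.E_prod, e1]; rfl
    rw [e2, ← K.E_sub]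
    refine K.E_congr fun b => ?_
    rw [← K.E_sub]
    exact K.E_congr fun g => by ring
  have hR : ∀ l, 2 * (K.E fun b => K.E fun g => K.z l b * K.z l g * ((1 - K.N b g) * (K.N v b * (1 - K.N v g)))) ≤
      K.E fun b => K.E fun g => K.z l b * K.z l g * (1 - K.N b g) := by
    intro l
    have e3 : (K.E fun b => K.E fun g => K.z l b * K.z l g * ((1 - K.N b g) * (K.N v b * (1 - K.N v g)))) =
        K.E fun b => K.E fun g => K.z l b * K.z l g * ((1 - K.N b g) * (K.N v g * (1 - K.N v b))) := by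
      rw [K.E_comm]
      refine K.E_congr fun b => K.E_congr fun g => ?_
      rw [K.N_symm g b]
      ring
    rw [two_mul]
    conv_lhs => arg 2; rw [e3]
    rw [← K.E_add]
    refine K.E_mono fun b => ?_
    rw [← K.E_add]
    refine K.E_mono fun g => ?_
    have p1 : 0 ≤ K.z l b * K.z l g * (1 - K.N b g) :=
      mul_nonneg (mul_nonneg (K.z_nonneg l b) (K.z_nonneg l g)) (sub_nonneg.mpr (K.N_le b g))
    have p2 : K.N v b * (1 - K.N v g) + K.N v g * (1 - K.N v b) ≤ 1 := by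
      rcases K.N_cases v b with h | h <;> rcases K.N_cases v g with h' | h' <;> rw [h, h'] <;> norm_num
    have p3 := mul_le_mul_of_nonneg_left p2 p1
    linarith
  have hE : (K.E fun b => K.E fun g => K.z 0 b * K.z 0 g * (1 - K.N b g)) +
      (K.E fun b => K.E fun g => K.z 1 b * K.z 1 g * (1 - K.N b g)) +
      (K.E fun b => K.E fun g => K.z 2 b * K.z 2 g * (1 - K.N b g)) = K.E K.a := by
    rw [← K.E_add, ← K.E_add]
    refine K.E_congr fun b => ?_
    have e4 : ∀ l, (K.E fun g => K.z l b * K.z l g * (1 - K.N b g)) = (K.al l - K.y l b) * K.z l b := by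
      intro l
      unfold al y
      rw [← K.E_sub, ← K.E_mul_right]
      exact K.E_congr fun u => by ring
    rw [e4, e4, e4, ← K.sum_class (fun l => K.al l - K.y l b)]
    rfl
  have hsum : (K.E fun b => K.E fun g => K.z 0 b * K.z 0 g * (K.N v b * K.N b g * (1 - K.N v g))) +
      (K.E fun b => K.E fun g => K.z 1 b * K.z 1 g * (K.N v b * K.N b g * (1 - K.N v g))) +
      (K.E fun b => K.E fun g => K.z 2 b * K.z 2 g * (K.N v b * K.N b g * (1 - K.N v g))) ≤ K.eta v := by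
    unfold eta
    rw [← K.E_add, ← K.E_add]
    refine K.E_mono fun b => ?_
    rw [← K.E_add, ← K.E_add]
    refine K.E_mono fun g => ?_
    have p1 : 0 ≤ K.N v b * K.N b g * (1 - K.N v g) :=
      mul_nonneg (mul_nonneg (K.N_nonneg v b) (K.N_nonneg b g)) (sub_nonneg.mpr (K.N_le v g))
    have p2 : K.z 0 b * K.z 0 g + K.z 1 b * K.z 1 g + K.z 2 b * K.z 2 g ≤ 1 := by
      have s0 := mul_le_of_le_one_right (K.z_nonneg 0 b) (K.z_le 0 g)
      have s1 := mul_le_of_le_one_right (K.z_nonneg 1 b) (K.z_le 1 g)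
      have s2 := mul_le_of_le_one_right (K.z_nonneg 2 b) (K.z_le 2 g)
      have s3 := K.z_sum b
      linarith
    have p3 := mul_le_mul_of_nonneg_right p2 p1
    linarith
  rw [hl, hl, hl] at hsum
  have r0 := hR 0
  have r1 := hR 1
  have r2 := hR 2
  linarith

theorem eta_ge' (v : V) : K.a v * (K.al (K.k v) - K.a v) + K.b v * (K.al (K.k v + 1) - K.b v) +
    K.d v * (K.al (K.k v + 2) - K.d v) - K.E K.a / 2 ≤ K.eta v := by
  have h := K.eta_ge v
  have h1 := sum_rot (fun l => K.y l v * (K.al l - K.y l v)) (K.k v)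
  have h2 : K.a v * (K.al (K.k v) - K.a v) = K.y (K.k v) v * (K.al (K.k v) - K.y (K.k v) v) := by
    unfold a; ring
  rw [h2]
  unfold b d
  linarith

theorem vert0 (h : K.Good) (v : V) : (K.bt v - 1 / 3 + 1 / 64) ^ 2 + 2 * K.eta v <
    1 / 96 + 1 / 2048 + 32 * K.E fun v => (K.o v - 1 / 3) ^ 2 := by
  have h1 := h.hd v
  rw [K.dd_eq] at h1
  have h2 : 2 / 3 * K.io v - 2 * (K.E fun b => K.A b v * K.o b) ≤ 1 / 32 * K.io v + 32 * K.E fun v => (K.o v - 1 / 3) ^ 2 := by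
    unfold io
    rw [← K.E_mul, ← K.E_mul, ← K.E_mul, ← K.E_mul, ← K.E_sub, ← K.E_add]
    refine K.E_mono fun b => ?_
    rcases K.A_cases b v with hA | hA
    · rw [hA]
      nlinarith [sq_nonneg (K.o b - 1 / 3)]
    · rw [hA]
      nlinarith [sq_nonneg (K.o b - 1 / 3 + 1 / 32)]
  have h3 := K.sum_oib v
  have h4 : K.io v = 1 - K.o v - K.bt v := by linarith
  rw [h4] at h2
  nlinarith [sq_nonneg (K.o v - 1 / 3 + 1 / 64)]

theorem small (h : K.Good) (v : V) : K.a v + K.b v + K.d v ≤ 95 / 1000 ∧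
    K.a v * (1 / 3 + K.de (K.k v) - 95 / 1000) + K.b v * (1 / 3 + K.de (K.k v + 1) - 95 / 1000) +
      K.d v * (1 / 3 + K.de (K.k v + 2) - 95 / 1000) ≤ 2012 / 100000 - 64 / 100 * K.q := by
  have h1 := K.vert0 h v
  have h2 := K.V1_lt h
  have h3 := K.eta_ge' v
  have h4 := K.close1 h
  have h5 := K.Eb_nonneg
  have h6 := K.Ed_nonneg
  have ha' : K.a v ≤ 1 / 3 + K.de (K.k v) := by
    rw [← K.al_eq]; unfold a; have := K.y_nonneg (K.k v) v; linarith
  have hb' : K.b v ≤ 1 / 3 + K.de (K.k v + 1) := by rw [← K.al_eq]; exact K.y_le _ v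
  have hd' : K.d v ≤ 1 / 3 + K.de (K.k v + 2) := by rw [← K.al_eq]; exact K.y_le _ v
  refine classify (K.a_nonneg v) (K.b_nonneg v) (K.d_nonneg v) ha' hb' hd' (K.de_rot _) K.q_nonneg (K.q_le h)
    (K.de_sq _) (K.de_sq _) (K.de_sq _) (K.o1 h v) (K.o2 h v) ?_
  rw [K.bt_eq v] at h1
  rw [K.al_eq, K.al_eq, K.al_eq] at h3
  rw [K.al_eq] at h1
  have h7 := K.q_nonneg
  linarith

end Cfg

end Pool.Agent.L0h25.FDF
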