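import Pool.Agent.L0h25.FDF.Bip2

/-! The peeling argument. -/

set_option autoImplicit false

open Finset

namespace Pool.Agent.L0h25.FDF

section
variable {V : Type} [Fintype V] [DecidableEq V] {x : V → ℝ} {c : V → V → ℕ} {s : V → Bool}

/-- the removed mass on one side -/
noncomputable def rm (x : V → ℝ) (s : V → Bool) (T S : Finset V) (t : Bool) : ℝ :=
  mass x ((T.filter fun v => s v = t) \ S)

/-- the truncated deficiency of a vertex -/
noncomputable def wt (x : V → ℝ) (c : V → V → ℕ) (s : V → Bool) (T : Finset V) (L M : ℝ) (z : V) : ℝ :=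
  min (max (L - mass x (fo c s T z)) 0) M

theorem rm_mono (hx : ∀ v, 0 < x v) (T S : Finset V) (z : V) (t : Bool) :
    rm x s T S t ≤ rm x s T (S.erase z) t :=
  mass_mono hx (Finset.sdiff_subset_sdiff (le_refl _) (Finset.erase_subset _ _))

theorem rm_step (hx : ∀ v, 0 < x v) (T S : Finset V) (z : V) (t : Bool) :
    rm x s T (S.erase z) t ≤ rm x s T S t + x z := by
  have h : (T.filter fun v => s v = t) \ (S.erase z) ⊆ ((T.filter fun v => s v = t) \ S) ∪ {z} := by
    intro w hw
    obtain ⟨h1, h2⟩ := Finset.mem_sdiff.mp hw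
    by_cases h : w = z
    · exact Finset.mem_union_right _ (by simp [h])
    · refine Finset.mem_union_left _ (Finset.mem_sdiff.mpr ⟨h1, fun h3 => h2 (Finset.mem_erase.mpr ⟨h, h3⟩)⟩)
  have h2 := le_trans (mass_mono hx h) (mass_union_le hx _ _)
  have h3 : mass x ({z} : Finset V) = x z := by simp [mass]
  rwa [h3] at h2

theorem rm_same (T S : Finset V) (z : V) (t : Bool) (h : s z ≠ t) :
    rm x s T (S.erase z) t = rm x s T S t := by
  unfold rm
  congr 1
  ext w
  simp only [Finset.mem_sdiff, Finset.mem_filter, Finset.mem_erase]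
  constructor
  · rintro ⟨⟨h1, h2⟩, h3⟩
    refine ⟨⟨h1, h2⟩, fun h4 => h3 ⟨?_, h4⟩⟩
    intro h5; subst h5; exact h h2
  · rintro ⟨⟨h1, h2⟩, h3⟩
    exact ⟨⟨h1, h2⟩, fun h4 => h3 h4.2⟩

theorem fo_le (hx : ∀ v, 0 < x v) (T S : Finset V) (z : V) (t : Bool) (h : s z ≠ t) :
    mass x (fo c s T z) ≤ mass x (fo c s S z) + rm x s T S t := by
  refine le_trans (mass_mono hx ?_) (mass_union_le hx _ _)
  intro w hw
  obtain ⟨h1, h2, h3⟩ := Finset.mem_filter.mp hw
  by_cases hS : w ∈ S
  · exact Finset.mem_union_left _ (Finset.mem_filter.mpr ⟨hS, h2, h3⟩)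
  · refine Finset.mem_union_right _ (Finset.mem_sdiff.mpr ⟨Finset.mem_filter.mpr ⟨h1, ?_⟩, hS⟩)
    exact bool_eq h2 (Ne.symm h)

theorem peel_ind (hx : ∀ v, 0 < x v) (hc : Rl c) {T : Finset V} {rho L : ℝ} (hr : 0 ≤ rho)
    (hrL : rho ≤ L) (hB : badm x c s T ≤ rho ^ 2 / 3)
    (ht : ∀ t : Bool, L - rho ≤ mass x (T.filter fun v => s v = t)) :
    ∀ (n : ℕ) (S : Finset V), S.card = n → S ⊆ T →
    Om (max (L - rho - rm x s T S true) 0) (max (L - rho - rm x s T S false) 0) ≤
      ∑ z ∈ S, x z * (wt x c s T L (L - rho) z) ^ 2 := by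
  intro n
  induction n with
  | zero =>
    intro S hn hS
    have h0 : S = ∅ := Finset.card_eq_zero.mp hn
    subst h0
    have h1 : ∀ t, max (L - rho - rm x s T ∅ t) 0 = 0 := by
      intro t
      refine max_eq_right ?_
      unfold rm
      rw [Finset.sdiff_empty]
      have := ht t
      linarith
    rw [h1, h1]
    simp [Om]
  | succ n ih =>
    intro S hn hST
    have hSne : S.Nonempty := Finset.card_pos.mp (by omega)
    obtain ⟨z, hz, hfz⟩ := bip_min (s := s) hx hc hr hB hSne hST
    have hi := ih (S.erase z) (by rw [Finset.card_erase_of_mem hz, hn]; rfl)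
      (subset_trans (Finset.erase_subset _ _) hST)
    rw [← Finset.add_sum_erase S (fun z => x z * (wt x c s T L (L - rho) z) ^ 2) hz]
    have hb : ∀ t, s z ≠ t → max (L - rho - rm x s T S t) 0 ≤ wt x c s T L (L - rho) z := by
      intro t hst
      have h1 := fo_le (c := c) hx T S z t hst
      have h2 : 0 ≤ rm x s T S t := mass_nonneg hx _
      unfold wt
      refine le_min (max_le_max ?_ (le_refl _)) (max_le ?_ ?_)
      · linarith
      · linarith
      · linarith
    have ha : ∀ t, max (L - rho - rm x s T S t) 0 - max (L - rho - rm x s T (S.erase z) t) 0 ≤ x z := by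
      intro t
      have h1 := rm_step (s := s) hx T S z t
      have h2 := hx z
      have h3 : max (L - rho - rm x s T S t) 0 ≤ max (L - rho - rm x s T (S.erase z) t) 0 + x z := by
        refine max_le ?_ ?_
        · have := le_max_left (L - rho - rm x s T (S.erase z) t) 0
          linarith
        · have := le_max_right (L - rho - rm x s T (S.erase z) t) 0
          linarith
      linarith
    have ham : ∀ t, max (L - rho - rm x s T (S.erase z) t) 0 ≤ max (L - rho - rm x s T S t) 0 := by
      intro t
      have h1 := rm_mono (s := s) hx T S z t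
      exact max_le_max (by linarith) (le_refl _)
    have key : ∀ t t' : Bool, s z ≠ t' → Om (max (L - rho - rm x s T S t) 0) (max (L - rho - rm x s T S t') 0) ≤
        Om (max (L - rho - rm x s T (S.erase z) t) 0) (max (L - rho - rm x s T (S.erase z) t') 0) +
          x z * (wt x c s T L (L - rho) z) ^ 2 := by
      intro t t' hst
      rw [rm_same T S z t' hst]
      have h1 := Om_step (le_max_right (L - rho - rm x s T (S.erase z) t) 0) (ham t)
        (le_max_right (L - rho - rm x s T S t') 0)
      have h2 := hb t' hst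
      have h3 := ha t
      have h4 := ham t
      have h5 := le_max_right (L - rho - rm x s T S t') 0
      have h6 : (max (L - rho - rm x s T S t) 0 - max (L - rho - rm x s T (S.erase z) t) 0) *
          (max (L - rho - rm x s T S t') 0) ^ 2 ≤ x z * (wt x c s T L (L - rho) z) ^ 2 :=
        mul_le_mul h3 (pow_le_pow_left₀ h5 h2 2) (sq_nonneg _) (hx z).le
      linarith
    cases hs : s z with
    | true =>
      have := key true false (by rw [hs]; simp)
      linarith
    | false =>
      have := key false true (by rw [hs]; simp)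
      rw [Om_symm, Om_symm (max (L - rho - rm x s T (S.erase z) false) 0)] at this
      linarith

/-- the peeling argument -/
theorem peel (hx : ∀ v, 0 < x v) (hc : Rl c) {T : Finset V} {rho L : ℝ} (hr : 0 ≤ rho)
    (hrL : rho ≤ L) (hB : badm x c s T ≤ rho ^ 2 / 3)
    (ht : ∀ t : Bool, L - rho ≤ mass x (T.filter fun v => s v = t)) :
    2 / 3 * (L - rho) ^ 3 ≤ ∑ z ∈ T, x z * (wt x c s T L (L - rho) z) ^ 2 := by
  have h := peel_ind (s := s) hx hc hr hrL hB ht T.card T rfl (subset_refl _)
  have h1 : ∀ t, max (L - rho - rm x s T T t) 0 = L - rho := by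
    intro t
    have h2 : rm x s T T t = 0 := by
      unfold rm
      have : (T.filter fun v => s v = t) \ T = ∅ := Finset.sdiff_eq_empty_iff_subset.mpr (Finset.filter_subset _ _)
      rw [this]; simp [mass]
    rw [h2, sub_zero]
    exact max_eq_left (by linarith)
  rw [h1, h1] at h
  refine le_trans (le_of_eq ?_) h
  unfold Om
  rw [if_pos (le_refl _)]
  ring

end

end Pool.Agent.L0h25.FDF
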