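import Mathlib

/-! More inequalities in real variables. -/

set_option autoImplicit false

namespace Pool.Agent.L0h25.FDF

theorem neg_one {e : Fin 3 → ℝ} (hs : e 0 + e 1 + e 2 = 0) (hr : e 0 ^ 3 + e 1 ^ 3 + e 2 ^ 3 < 0) :
    ∃ i : Fin 3, e i < 0 ∧ 0 ≤ e (i + 1) ∧ 0 ≤ e (i + 2) := by
  have h3 : e 0 ^ 3 + e 1 ^ 3 + e 2 ^ 3 = 3 * (e 0 * e 1 * e 2) := by
    have h2 : e 2 = - e 0 - e 1 := by linarith
    rw [h2]; ring
  rw [h3] at hr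
  have hp : e 0 * e 1 * e 2 < 0 := by linarith
  rcases lt_or_ge (e 0) 0 with h0 | h0
  · rcases lt_or_ge (e 1) 0 with h1 | h1
    · exfalso
      have h4 := mul_pos_of_neg_of_neg h0 h1
      have h5 : 0 < e 2 := by linarith
      have := mul_pos h4 h5
      linarith
    · rcases lt_or_ge (e 2) 0 with h2 | h2
      · exfalso
        have h4 := mul_nonneg_of_nonpos_of_nonpos (mul_nonpos_of_nonpos_of_nonneg h0.le h1) h2.le
        linarith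
      · exact ⟨0, h0, h1, h2⟩
  · rcases lt_or_ge (e 1) 0 with h1 | h1
    · rcases lt_or_ge (e 2) 0 with h2 | h2
      · exfalso
        have h4 := mul_nonneg_of_nonpos_of_nonpos (mul_nonpos_of_nonneg_of_nonpos h0 h1.le) h2.le
        linarith
      · exact ⟨1, h1, h2, h0⟩
    · rcases lt_or_ge (e 2) 0 with h2 | h2
      · exact ⟨2, h2, h0, h1⟩
      · exfalso
        have h4 := mul_nonneg (mul_nonneg h0 h1) h2
        linarith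

theorem G_nonneg_real {a b d e1 e2 q : ℝ} (ha : 0 ≤ a) (hb : 0 ≤ b) (hd : 0 ≤ d)
    (hs : a + b + d ≤ 95 / 1000) (hq0 : 0 ≤ q) (hq : q ≤ 16 / 1000)
    (he1' : e1 ≤ 1033 / 10000) (he2' : e2 ≤ 1033 / 10000) :
    0 ≤ a * (1 - 3 / 2 * q - 3 * a) + b * (1 - 3 * e2 + 3 / 2 * q - 3 * b - 6 * a) +
      d * (1 - 3 * e1 + 3 / 2 * q - 3 * d - 6 * a) := by
  have p1 := mul_nonneg ha (by linarith : 0 ≤ 1 - 3 / 2 * q - 3 * a)
  have p2 := mul_nonneg hb (by linarith : 0 ≤ 1 - 3 * e2 + 3 / 2 * q - 3 * b - 6 * a)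
  have p3 := mul_nonneg hd (by linarith : 0 ≤ 1 - 3 * e1 + 3 / 2 * q - 3 * d - 6 * a)
  linarith

theorem G_real {a c c0 e e' S q : ℝ} (ha : 0 ≤ a) (hc : 0 ≤ c) (hc0 : 0 ≤ c0)
    (hs : a + c + c0 ≤ 95 / 1000) (hq0 : 0 ≤ q) (hq : q ≤ 16 / 1000)
    (he : 0 ≤ e) (he' : 0 ≤ e') (hS : e + e' = S) (hS' : S ≤ 1033 / 10000)
    (hqS : 3 / 2 * S ^ 2 ≤ q)
    (hw : a * (1 / 3 + e - 95 / 1000) + c * (1 / 3 + e' - 95 / 1000) + c0 * (1 / 3 - S - 95 / 1000) ≤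
      2012 / 100000 - 64 / 100 * q) :
    81 / 10 * (S - q / 2) * (a + c) ≤ a * (1 - 3 / 2 * q - 3 * a) + c * (1 + 3 * S + 3 / 2 * q - 3 * c - 6 * a) +
      c0 * (1 - 3 * e' + 3 / 2 * q - 3 * c0 - 6 * a) := by
  have hac : (a + c) * (238 / 1000) ≤ 2012 / 100000 - 64 / 100 * q := by
    have p1 := mul_nonneg ha he
    have p2 := mul_nonneg hc he'
    have p3 := mul_nonneg hc0 (by linarith : 0 ≤ 1 / 3 - S - 95 / 1000)
    nlinarith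
  have hS2 : 15 / 10 * (2 * (1033 / 10000) * S - (1033 / 10000) ^ 2) ≤ q := by
    nlinarith [sq_nonneg (S - 1033 / 10000)]
  have hc1 : 81 / 10 * (S - q / 2) ≤ 1 - 3 / 2 * q - 3 * a := by linarith
  have hc2 : 81 / 10 * (S - q / 2) ≤ 1 + 3 * S + 3 / 2 * q - 3 * c - 6 * a := by linarith
  have hc3 : 0 ≤ 1 - 3 * e' + 3 / 2 * q - 3 * c0 - 6 * a := by linarith
  have p1 := mul_le_mul_of_nonneg_left hc1 ha
  have p2 := mul_le_mul_of_nonneg_left hc2 hc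
  have p3 := mul_nonneg hc0 hc3
  linarith

theorem wt_real {w M inp o m : ℝ} (h0 : 0 ≤ w) (h1 : w ≤ M) (hi : 0 ≤ inp)
    (h : w = 0 ∨ w - inp ≤ m - o) : w ^ 2 - 2 * M * inp ≤ (o - m) ^ 2 := by
  have hM : 0 ≤ M := h0.trans h1
  have hMi := mul_nonneg hM hi
  rcases h with h | h
  · rw [h]
    nlinarith [sq_nonneg (o - m)]
  · rcases le_total inp w with h2 | h2
    · have h3 : (w - inp) ^ 2 ≤ (m - o) ^ 2 := pow_le_pow_left₀ (by linarith) h 2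
      nlinarith [mul_le_mul_of_nonneg_right h1 hi, sq_nonneg inp]
    · nlinarith [mul_le_mul_of_nonneg_left h2 h0, mul_le_mul_of_nonneg_right h1 hi, sq_nonneg (o - m)]

theorem poly1 {L rho : ℝ} (hL : 0 ≤ L) (h1 : rho ≤ L) :
    3 / 4 * L ^ 3 ≤ 2 * (L - rho) ^ 3 - (L - rho) * rho ^ 2 + 27 / 10 * L * rho ^ 2 := by
  nlinarith [mul_nonneg (sub_nonneg.mpr h1) (sq_nonneg (rho - 425 / 1000 * L)),
    mul_nonneg hL (sq_nonneg (rho - 42474 / 100000 * L)), pow_nonneg hL 3]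

theorem poly2 {S q : ℝ} (hS : 0 ≤ S) (h1 : 3 / 2 * S ^ 2 ≤ q) (h2 : q ≤ 2 * S ^ 2) (hS' : S ≤ 1) :
    S ^ 3 ≤ (S - q / 2) ^ 3 + q ^ 2 := by
  have hq : 0 ≤ q := le_trans (by positivity) h1
  have p1 := mul_nonneg hq (sub_nonneg.mpr h1)
  have h3 : 0 ≤ 3 / 4 * S - q / 8 := by nlinarith
  have p2 := mul_nonneg (mul_nonneg hq hq) h3
  nlinarith

/-- the final inequality -/
theorem final_real {S e1 e2 q r rho X : ℝ} (hS : 0 < S) (hS' : S ≤ 1033 / 10000) (h1 : 0 ≤ e1) (h2 : 0 ≤ e2)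
    (hs : e1 + e2 = S) (hq : q = S ^ 2 + e1 ^ 2 + e2 ^ 2) (hr : r = - S ^ 3 + e1 ^ 3 + e2 ^ 3)
    (hX : 3 / 4 * (S - q / 2) ^ 3 ≤ X) : 0 ≤ r + 3 / 4 * q ^ 2 + X := by
  have e12 := mul_nonneg h1 h2
  have hq1 : 3 / 2 * S ^ 2 ≤ q := by
    rw [hq, ← hs]; nlinarith [sq_nonneg (e1 - e2)]
  have hq2 : q ≤ 2 * S ^ 2 := by
    rw [hq, ← hs]; nlinarith
  have h3 := poly2 hS.le hq1 hq2 (by linarith)
  have h4 : - (3 / 4) * S ^ 3 ≤ r := by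
    have h5 : r = - 3 * S * (e1 * e2) := by rw [hr, ← hs]; ring
    have h6 : e1 * e2 ≤ S ^ 2 / 4 := by rw [← hs]; nlinarith [sq_nonneg (e1 - e2)]
    rw [h5]
    nlinarith [mul_le_mul_of_nonneg_left h6 hS.le]
  linarith

end Pool.Agent.L0h25.FDF
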