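import Pool.Agent.L0h25.FDF.An4
import Pool.Agent.L0h25.FDF.Rl2
import Pool.Agent.L0h25.FDF.Bip3

/-! The contradiction for a configuration violating the theorem. -/

set_option autoImplicit false

open Finset

namespace Pool.Agent.L0h25.FDF
namespace Cfg
variable {V : Type} [Fintype V] [DecidableEq V] (K : Cfg V)

theorem G_nonneg (h : K.Good) (v : V) : 0 ≤ K.G v := by
  have hq := K.q_le h
  exact G_nonneg_real (K.a_nonneg v) (K.b_nonneg v) (K.d_nonneg v) (K.small h v).1 K.q_nonneg hq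
    (de_abs (K.de_sq _) hq).2 (de_abs (K.de_sq _) hq).2

theorem r_neg (h : K.Good) : K.r < 0 := by
  have h1 := K.lower
  have h2 := h.hp
  have h3 : 0 ≤ K.E K.G := K.E_nonneg (K.G_nonneg h)
  have h4 : 0 ≤ K.E fun v => (K.o v - K.m) ^ 2 := K.E_nonneg fun v => sq_nonneg _
  have h5 := sq_nonneg K.q
  linarith

theorem ex_i (h : K.Good) : ∃ i : Fin 3, K.de i < 0 ∧ 0 ≤ K.de (i + 1) ∧ 0 ≤ K.de (i + 2) :=
  neg_one K.de_sum (K.r_neg h)

/-- the union of the two large classes -/
def T (i : Fin 3) : Finset V := Finset.univ.filter fun v => K.k v ≠ i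

/-- the side function -/
def sd (i : Fin 3) (v : V) : Bool := decide (K.k v = i + 1)

theorem E_T (i : Fin 3) (f : V → ℝ) (hf : ∀ v, 0 ≤ f v) : ∑ v ∈ K.T i, K.x v * f v ≤ K.E f := by
  unfold E
  exact Finset.sum_le_sum_of_subset_of_nonneg (Finset.subset_univ _)
    fun v _ _ => mul_nonneg (K.hx v).le (hf v)

theorem sum_T (i : Fin 3) (f : V → ℝ) :
    ∑ v ∈ K.T i, K.x v * f v = K.E fun v => if K.k v = i then 0 else f v := by
  unfold T E
  rw [Finset.sum_filter]
  refine Finset.sum_congr rfl fun v _ => ?_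
  by_cases h : K.k v = i <;> simp [h]

theorem fin3_sides (i : Fin 3) : ∀ j : Fin 3, j ≠ i → j = i + 1 ∨ j = i + 2 := by
  fin_cases i <;> decide

theorem bad_T1 (i : Fin 3) {v : V} (hv : K.k v = i + 1) :
    ∑ w ∈ K.T i, K.x w * bq K.c (K.sd i) v w = K.a v + K.b v := by
  rw [K.sum_T]
  have e : K.a v + K.b v = (K.E fun w => K.z (K.k v) w) - (K.E fun w => K.z (K.k v) w * K.N v w) +
      (K.E fun w => K.z (K.k v + 1) w * K.N v w) := rfl
  rw [e, ← K.E_sub, ← K.E_add]
  refine K.E_congr fun w => ?_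
  unfold bq sd
  rw [K.z_eq, K.z_eq, hv]
  have hN : K.N v w = if K.c v w = 0 then 1 else 0 := by
    unfold N; by_cases h : K.c v w = 0 <;> simp [h, bi]
  rw [hN]
  generalize K.k w = j
  by_cases h0 : K.c v w = 0
  · simp only [h0, if_true]
    fin_cases i <;> fin_cases j <;> simp
  · simp only [h0, if_false]
    fin_cases i <;> fin_cases j <;> simp

theorem bad_T2 (i : Fin 3) {v : V} (hv : K.k v = i + 2) :
    ∑ w ∈ K.T i, K.x w * bq K.c (K.sd i) v w = K.a v + K.d v := by
  rw [K.sum_T]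
  have e : K.a v + K.d v = (K.E fun w => K.z (K.k v) w) - (K.E fun w => K.z (K.k v) w * K.N v w) +
      (K.E fun w => K.z (K.k v + 2) w * K.N v w) := rfl
  rw [e, ← K.E_sub, ← K.E_add]
  refine K.E_congr fun w => ?_
  unfold bq sd
  rw [K.z_eq, K.z_eq, hv]
  have hN : K.N v w = if K.c v w = 0 then 1 else 0 := by
    unfold N; by_cases h : K.c v w = 0 <;> simp [h, bi]
  rw [hN]
  generalize K.k w = j
  by_cases h0 : K.c v w = 0
  · simp only [h0, if_true]
    fin_cases i <;> fin_cases j <;> simp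
  · simp only [h0, if_false]
    fin_cases i <;> fin_cases j <;> simp

end Cfg
end Pool.Agent.L0h25.FDF
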