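import Pool.Agent.L0h25.FDF.An5

/-! The contradiction for a configuration violating the theorem: conclusion. -/

set_option autoImplicit false

open Finset

namespace Pool.Agent.L0h25.FDF
namespace Cfg
variable {V : Type} [Fintype V] [DecidableEq V] (K : Cfg V)

/-- outgoing mass inside the own side -/
noncomputable def inp (i : Fin 3) (v : V) : ℝ :=
  mass K.x ((K.T i).filter fun w => K.sd i w = K.sd i v ∧ K.c v w = 1)

theorem inp_nonneg (i : Fin 3) (v : V) : 0 ≤ K.inp i v := mass_nonneg K.hx _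

theorem inp_sum (i : Fin 3) :
    2 * ∑ v ∈ K.T i, K.x v * K.inp i v ≤ badm K.x K.c (K.sd i) (K.T i) := by
  have e1 : ∀ v, K.inp i v = ∑ w ∈ K.T i, K.x w *
      (if K.sd i w = K.sd i v ∧ K.c v w = 1 then (1 : ℝ) else 0) := by
    intro v
    unfold inp mass
    rw [Finset.sum_filter]
    refine Finset.sum_congr rfl fun w _ => ?_
    split_ifs <;> ring
  have e2 : ∑ v ∈ K.T i, K.x v * (∑ w ∈ K.T i, K.x w *
      (if K.sd i w = K.sd i v ∧ K.c v w = 1 then (1 : ℝ) else 0)) =
      ∑ v ∈ K.T i, K.x v * (∑ w ∈ K.T i, K.x w *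
      (if K.sd i v = K.sd i w ∧ K.c w v = 1 then (1 : ℝ) else 0)) := by
    simp only [Finset.mul_sum]
    rw [Finset.sum_comm]
    exact Finset.sum_congr rfl fun w _ => Finset.sum_congr rfl fun v _ => by ring
  simp only [e1]
  rw [two_mul]
  conv_lhs => arg 2; rw [e2]
  rw [← Finset.sum_add_distrib]
  unfold badm
  refine Finset.sum_le_sum fun v _ => ?_
  rw [← mul_add, ← Finset.sum_add_distrib]
  refine mul_le_mul_of_nonneg_left (Finset.sum_le_sum fun w _ => ?_) (K.hx v).le
  rw [← mul_add]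
  refine mul_le_mul_of_nonneg_left ?_ (K.hx w).le
  unfold bq
  by_cases hs : K.sd i w = K.sd i v
  · have hs' : K.sd i v = K.sd i w := hs.symm
    by_cases h0 : K.c v w = 0
    · have h1 := K.hc.z v w h0
      simp [hs, h0, h1]
    · by_cases h1 : K.c v w = 1
      · have h2 := K.hc.o v w h1
        simp [hs, h1, h2]
      · simp only [hs, h1, h0, and_false, if_false, if_true, true_and, zero_add]
        split_ifs <;> norm_num
  · have hs' : ¬ K.sd i v = K.sd i w := fun h => hs h.symm
    simp only [hs, hs', false_and, if_false, add_zero]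
    split_ifs <;> norm_num

theorem mass_T (i : Fin 3) (P : V → Prop) [DecidablePred P] :
    mass K.x ((K.T i).filter P) = K.E fun w => if K.k w ≠ i ∧ P w then 1 else 0 := by
  unfold mass E T
  rw [Finset.filter_filter, Finset.sum_filter]
  refine Finset.sum_congr rfl fun w _ => ?_
  by_cases h : K.k w ≠ i ∧ P w
  · simp only [if_pos h, mul_one]
  · simp only [if_neg h, mul_zero]

theorem o_le (i : Fin 3) (v : V) :
    K.o v ≤ K.al i + K.inp i v + mass K.x (fo K.c (K.sd i) (K.T i) v) := by
  unfold inp fo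
  rw [K.mass_T, K.mass_T]
  unfold o al
  rw [← K.E_add, ← K.E_add]
  refine K.E_mono fun w => ?_
  rw [K.z_eq]
  have hA : K.A v w = if K.c v w = 1 then 1 else 0 := by
    unfold A; by_cases h : K.c v w = 1 <;> simp [h, bi]
  rw [hA]
  by_cases h1 : K.c v w = 1
  · by_cases h2 : K.k w = i
    · simp [h1, h2]
    · by_cases h3 : K.sd i w = K.sd i v
      · simp [h1, h2, h3]
      · simp [h1, h2, h3]
  · simp only [h1, and_false, if_false, add_zero]
    split_ifs <;> norm_num

theorem side_mass (i : Fin 3) (t : Bool) :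
    mass K.x ((K.T i).filter fun v => K.sd i v = t) = if t then K.al (i + 1) else K.al (i + 2) := by
  rw [K.mass_T]
  cases t
  · rw [if_neg (by simp)]
    refine K.E_congr fun w => ?_
    rw [K.z_eq]
    unfold sd
    generalize K.k w = j
    fin_cases i <;> fin_cases j <;> simp
  · rw [if_pos rfl]
    refine K.E_congr fun w => ?_
    rw [K.z_eq]
    unfold sd
    generalize K.k w = j
    fin_cases i <;> fin_cases j <;> simp

theorem G_T (h : K.Good) (i : Fin 3) (hi0 : K.de i < 0) (hi1 : 0 ≤ K.de (i + 1)) (hi2 : 0 ≤ K.de (i + 2)) :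
    81 / 10 * (- K.de i - K.q / 2) * badm K.x K.c (K.sd i) (K.T i) ≤ K.E K.G := by
  have hq := K.q_le h
  have hS' := (de_abs (K.de_sq i) hq).1
  have hrot := K.de_rot i
  have hq1 : 3 / 2 * (- K.de i) ^ 2 ≤ K.q := by
    have := K.de_sq i
    nlinarith
  refine le_trans ?_ (K.E_T i K.G (K.G_nonneg h))
  unfold badm
  rw [Finset.mul_sum]
  refine Finset.sum_le_sum fun v hv => ?_
  have hvi : K.k v ≠ i := (Finset.mem_filter.mp hv).2
  have hw := (K.small h v).2
  have hs := (K.small h v).1
  have a11 : ∀ i : Fin 3, i + 1 + 1 = i + 2 := by decide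
  have a12 : ∀ i : Fin 3, i + 1 + 2 = i := by decide
  have a21 : ∀ i : Fin 3, i + 2 + 1 = i := by decide
  have a22 : ∀ i : Fin 3, i + 2 + 2 = i + 1 := by decide
  have hxv := (K.hx v).le
  rcases fin3_sides i (K.k v) hvi with hk | hk
  · rw [K.bad_T1 i hk]
    have hG : K.G v = K.a v * (1 - 3 / 2 * K.q - 3 * K.a v) +
        K.b v * (1 + 3 * (- K.de i) + 3 / 2 * K.q - 3 * K.b v - 6 * K.a v) +
        K.d v * (1 - 3 * K.de (i + 2) + 3 / 2 * K.q - 3 * K.d v - 6 * K.a v) := by
      unfold G; rw [hk, a11, a12]; ring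
    rw [hk, a11, a12] at hw
    have := G_real (e := K.de (i + 1)) (e' := K.de (i + 2)) (S := - K.de i) (q := K.q) (K.a_nonneg v)
      (K.b_nonneg v) (K.d_nonneg v) hs K.q_nonneg hq hi1 hi2 (by linarith) (by linarith) hq1 (by linarith)
    rw [← hG] at this
    have h2 := mul_le_mul_of_nonneg_left this hxv
    linarith
  · rw [K.bad_T2 i hk]
    have hG : K.G v = K.a v * (1 - 3 / 2 * K.q - 3 * K.a v) +
        K.d v * (1 + 3 * (- K.de i) + 3 / 2 * K.q - 3 * K.d v - 6 * K.a v) +
        K.b v * (1 - 3 * K.de (i + 1) + 3 / 2 * K.q - 3 * K.b v - 6 * K.a v) := by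
      unfold G; rw [hk, a21, a22]; ring
    rw [hk, a21, a22] at hw
    have := G_real (e := K.de (i + 2)) (e' := K.de (i + 1)) (S := - K.de i) (q := K.q) (K.a_nonneg v)
      (K.d_nonneg v) (K.b_nonneg v) (by linarith) K.q_nonneg hq hi2 hi1 (by linarith) (by linarith) hq1
      (by linarith)
    rw [← hG] at this
    have h2 := mul_le_mul_of_nonneg_left this hxv
    linarith

/-- there is no configuration violating the theorem -/
theorem contra (h : K.Good) : False := by
  obtain ⟨i, hi0, hi1, hi2⟩ := K.ex_i h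
  have hG := K.G_T h i hi0 hi1 hi2
  have hq := K.q_le h
  have hS' := (de_abs (K.de_sq i) hq).1
  have hrot := K.de_rot i
  have hqe := K.q_rot i
  have hre := K.r_rot i
  have hlow := K.lower
  have hp := h.hp
  have hin := K.inp_sum i
  have hLm : - K.de i - K.q / 2 = K.m - K.al i := by unfold m de; ring
  have hq2 : K.q ≤ 2 * (- K.de i) ^ 2 := by
    have : - K.de i = K.de (i + 1) + K.de (i + 2) := by linarith
    rw [this, hqe]
    have h2 := mul_nonneg hi1 hi2
    have h3 : K.de i = - (K.de (i + 1) + K.de (i + 2)) := by linarith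
    rw [h3]
    nlinarith
  have hL : 0 < - K.de i - K.q / 2 := by nlinarith
  have hB0 : 0 ≤ badm K.x K.c (K.sd i) (K.T i) := Finset.sum_nonneg fun z _ =>
    mul_nonneg (K.hx z).le (Finset.sum_nonneg fun w _ => mul_nonneg (K.hx w).le (bq_nonneg z w))
  have hrho := Real.sqrt_nonneg (3 * badm K.x K.c (K.sd i) (K.T i))
  have hrho2 := Real.sq_sqrt (by linarith : 0 ≤ 3 * badm K.x K.c (K.sd i) (K.T i))
  generalize Real.sqrt (3 * badm K.x K.c (K.sd i) (K.T i)) = rho at *
  have hB : badm K.x K.c (K.sd i) (K.T i) = rho ^ 2 / 3 := by linarith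
  have hfin : ∀ X : ℝ, 3 / 4 * (- K.de i - K.q / 2) ^ 3 ≤ X → 0 ≤ K.r + 3 / 4 * K.q ^ 2 + X := by
    intro X hX
    refine final_real (S := - K.de i) (e1 := K.de (i + 1)) (e2 := K.de (i + 2)) (rho := rho) (by linarith)
      (by linarith) hi1 hi2 (by linarith) ?_ ?_ hX
    · rw [hqe]; ring
    · rw [hre]; ring
  rcases le_total rho (- K.de i - K.q / 2) with hc | hc
  · have hpe := peel (s := K.sd i) (T := K.T i) K.hx K.hc hrho hc (le_of_eq hB) (by
      intro t
      rw [K.side_mass]
      split_ifs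
      · rw [K.al_eq]; linarith [K.q_nonneg]
      · rw [K.al_eq]; linarith [K.q_nonneg])
    have hE : ∑ z ∈ K.T i, K.x z * (wt K.x K.c (K.sd i) (K.T i) (- K.de i - K.q / 2) (- K.de i - K.q / 2 - rho) z) ^ 2
        - (- K.de i - K.q / 2 - rho) * badm K.x K.c (K.sd i) (K.T i) ≤ K.E fun v => (K.o v - K.m) ^ 2 := by
      have h1 : ∑ z ∈ K.T i, K.x z * ((wt K.x K.c (K.sd i) (K.T i) (- K.de i - K.q / 2) (- K.de i - K.q / 2 - rho) z) ^ 2
          - 2 * (- K.de i - K.q / 2 - rho) * K.inp i z) ≤ K.E fun v => (K.o v - K.m) ^ 2 := by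
        refine le_trans (Finset.sum_le_sum fun z _ => mul_le_mul_of_nonneg_left ?_ (K.hx z).le)
          (K.E_T i (fun v => (K.o v - K.m) ^ 2) fun v => sq_nonneg _)
        have ho := K.o_le i z
        refine wt_real ?_ ?_ (K.inp_nonneg i z) ?_
        · unfold wt
          exact le_min (le_max_right _ _) (by linarith)
        · unfold wt
          exact min_le_right _ _
        · unfold wt
          rcases le_total (- K.de i - K.q / 2 - mass K.x (fo K.c (K.sd i) (K.T i) z)) 0 with h2 | h2
          · left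
            rw [max_eq_right h2]
            exact min_eq_left (by linarith)
          · right
            rw [max_eq_left h2]
            have h3 := min_le_left (- K.de i - K.q / 2 - mass K.x (fo K.c (K.sd i) (K.T i) z)) (- K.de i - K.q / 2 - rho)
            linarith
      have h2 : ∑ z ∈ K.T i, K.x z * ((wt K.x K.c (K.sd i) (K.T i) (- K.de i - K.q / 2) (- K.de i - K.q / 2 - rho) z) ^ 2
          - 2 * (- K.de i - K.q / 2 - rho) * K.inp i z) =
          ∑ z ∈ K.T i, K.x z * (wt K.x K.c (K.sd i) (K.T i) (- K.de i - K.q / 2) (- K.de i - K.q / 2 - rho) z) ^ 2 -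
          (- K.de i - K.q / 2 - rho) * (2 * ∑ z ∈ K.T i, K.x z * K.inp i z) := by
        simp only [Finset.mul_sum]
        rw [← Finset.sum_sub_distrib]
        exact Finset.sum_congr rfl fun z _ => by ring
      rw [h2] at h1
      have h3 := mul_le_mul_of_nonneg_left hin (by linarith : 0 ≤ - K.de i - K.q / 2 - rho)
      linarith
    rw [hB] at hE hG
    have hpoly := poly1 hL.le hc
    have := hfin _ hpoly
    nlinarith
  · have hE : 0 ≤ K.E fun v => (K.o v - K.m) ^ 2 := K.E_nonneg fun v => sq_nonneg _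
    rw [hB] at hG
    have h1 : (- K.de i - K.q / 2) ^ 2 ≤ rho ^ 2 := pow_le_pow_left₀ hL.le hc 2
    have h2 := mul_le_mul_of_nonneg_left h1 hL.le
    have h4 : 0 ≤ (- K.de i - K.q / 2) ^ 3 := pow_nonneg hL.le 3
    have h3 := hfin (81 / 10 * (- K.de i - K.q / 2) * (rho ^ 2 / 3)) (by nlinarith)
    linarith

end Cfg
end Pool.Agent.L0h25.FDF
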