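import Pool.Agent.L0h25.FDF.An6

/-! Reduction to a minimizing weight with full support. -/

set_option autoImplicit false

open Finset

namespace Pool.Agent.L0h25.FDF

section
variable {V : Type} [Fintype V]

/-- the edge function of three vertices -/
noncomputable def Fv (c : V → V → ℕ) (a b g : V) : ℝ := (fld FTT 1 (tc (c a b) (c a g) (c b g)) : ℝ)

/-- the trilinear form -/
noncomputable def tri (c : V → V → ℕ) (x y w : V → ℝ) : ℝ := ∑ a, ∑ b, ∑ g, x a * y b * w g * Fv c a b g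

theorem pp_tri (c : V → V → ℕ) (x : V → ℝ) : pp x c = tri c x x x := rfl

theorem Rl.symm12 {c : V → V → ℕ} (hc : Rl c) (a b g : V) : Fv c a b g = Fv c b a g := by
  have key : ∀ r s t : Fin 3, fld FTT 1 (tc (r : ℕ) (s : ℕ) (t : ℕ)) =
      fld FTT 1 (tc (inv3 (r : ℕ)) (t : ℕ) (s : ℕ)) := by decide +kernel
  have hi : c b a = inv3 (c a b) := by
    have h3 := hc.lt a b
    have : c a b = 0 ∨ c a b = 1 ∨ c a b = 2 := by omega
    rcases this with h | h | h
    · rw [h, hc.z a b h]; rfl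
    · rw [h, hc.o a b h]; rfl
    · rw [h, hc.t a b h]; rfl
  unfold Fv
  rw [hi]
  exact_mod_cast key ⟨c a b, hc.lt a b⟩ ⟨c a g, hc.lt a g⟩ ⟨c b g, hc.lt b g⟩

theorem Rl.symm23 {c : V → V → ℕ} (hc : Rl c) (a b g : V) : Fv c a b g = Fv c a g b := by
  have key : ∀ r s t : Fin 3, fld FTT 1 (tc (r : ℕ) (s : ℕ) (t : ℕ)) =
      fld FTT 1 (tc (s : ℕ) (r : ℕ) (inv3 (t : ℕ))) := by decide +kernel
  have hi : c g b = inv3 (c b g) := by
    have h3 := hc.lt b g
    have : c b g = 0 ∨ c b g = 1 ∨ c b g = 2 := by omega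
    rcases this with h | h | h
    · rw [h, hc.z b g h]; rfl
    · rw [h, hc.o b g h]; rfl
    · rw [h, hc.t b g h]; rfl
  unfold Fv
  rw [hi]
  exact_mod_cast key ⟨c a b, hc.lt a b⟩ ⟨c a g, hc.lt a g⟩ ⟨c b g, hc.lt b g⟩

theorem tri_swap12 {c : V → V → ℕ} (hc : Rl c) (x y w : V → ℝ) : tri c x y w = tri c y x w := by
  unfold tri
  rw [Finset.sum_comm]
  exact Finset.sum_congr rfl fun a _ => Finset.sum_congr rfl fun b _ => Finset.sum_congr rfl fun g _ => by
    rw [hc.symm12 b a g]; ring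

theorem tri_swap23 {c : V → V → ℕ} (hc : Rl c) (x y w : V → ℝ) : tri c x y w = tri c x w y := by
  unfold tri
  refine Finset.sum_congr rfl fun a _ => ?_
  rw [Finset.sum_comm]
  exact Finset.sum_congr rfl fun b _ => Finset.sum_congr rfl fun g _ => by
    rw [hc.symm23 a g b]; ring

theorem tri_sub3 (c : V → V → ℕ) (x y w w' : V → ℝ) (t : ℝ) :
    tri c x y (fun v => w v - t * w' v) = tri c x y w - t * tri c x y w' := by
  unfold tri
  simp only [Finset.mul_sum]
  rw [← Finset.sum_sub_distrib]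
  refine Finset.sum_congr rfl fun a _ => ?_
  rw [← Finset.sum_sub_distrib]
  refine Finset.sum_congr rfl fun b _ => ?_
  rw [← Finset.sum_sub_distrib]
  exact Finset.sum_congr rfl fun g _ => by ring

theorem tri_expand {c : V → V → ℕ} (hc : Rl c) (x e : V → ℝ) (t : ℝ) :
    pp (fun v => x v - t * e v) c = pp x c - 3 * t * tri c e x x + 3 * t ^ 2 * tri c e e x - t ^ 3 * tri c e e e := by
  rw [pp_tri, pp_tri]
  rw [tri_sub3, tri_swap23 hc _ _ x, tri_swap23 hc _ _ e, tri_sub3, tri_sub3,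
    tri_swap12 hc _ x x, tri_swap12 hc _ x e, tri_swap12 hc _ e x, tri_swap12 hc _ e e]
  rw [tri_swap23 hc x _ x, tri_swap23 hc x _ e, tri_swap23 hc e _ x, tri_swap23 hc e _ e]
  rw [tri_sub3, tri_sub3, tri_sub3, tri_sub3]
  have h1 : tri c x x e = tri c e x x := by rw [tri_swap23 hc, tri_swap12 hc]
  have h2 : tri c x e x = tri c e x x := tri_swap12 hc _ _ _
  have h3 : tri c x e e = tri c e e x := by rw [tri_swap12 hc, tri_swap23 hc]
  have h4 : tri c e x e = tri c e e x := tri_swap23 hc _ _ _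
  rw [h1, h2, h3, h4]
  ring

theorem pp_smul (c : V → V → ℕ) (x : V → ℝ) (t : ℝ) : pp (fun v => t * x v) c = t ^ 3 * pp x c := by
  unfold pp
  simp only [Finset.mul_sum]
  exact Finset.sum_congr rfl fun a _ => Finset.sum_congr rfl fun b _ => Finset.sum_congr rfl fun g _ => by ring

theorem pp_cont (c : V → V → ℕ) : Continuous fun x : V → ℝ => pp x c := by
  unfold pp
  fun_prop

theorem ex_min [Nonempty V] (c : V → V → ℕ) : ∃ x : V → ℝ, (∀ v, 0 ≤ x v) ∧ ∑ v, x v = 1 ∧
    ∀ y : V → ℝ, (∀ v, 0 ≤ y v) → ∑ v, y v = 1 → pp x c ≤ pp y c := by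
  classical
  obtain ⟨v0⟩ := (inferInstance : Nonempty V)
  have hne : (stdSimplex ℝ V).Nonempty := ⟨Pi.single v0 1, single_mem_stdSimplex ℝ v0⟩
  obtain ⟨x, hx, hmin⟩ := (isCompact_stdSimplex ℝ V).exists_isMinOn hne (pp_cont c).continuousOn
  exact ⟨x, hx.1, hx.2, fun y h0 h1 => hmin (show y ∈ stdSimplex ℝ V from ⟨h0, h1⟩)⟩

theorem lim_real {A B C d : ℝ} (hd : 0 < d) (h : ∀ t : ℝ, 0 < t → t ≤ d → t < 1 → 0 ≤ 3 * t * A + 3 * t ^ 2 * B - t ^ 3 * C) :
    0 ≤ A := by
  by_contra hcon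
  push Not at hcon
  -- choose a small `t`
  set M := |B| + |C| + 1 with hM
  have hMpos : 0 < M := by positivity
  set t := min (min d (1 / 2)) (- A / (2 * M)) with ht
  have ht0 : 0 < t := by
    refine lt_min (lt_min hd (by norm_num)) ?_
    have : 0 < - A := by linarith
    positivity
  have htd : t ≤ d := (min_le_left _ _).trans (min_le_left _ _)
  have ht2 : t ≤ 1 / 2 := (min_le_left _ _).trans (min_le_right _ _)
  have ht3 : t ≤ - A / (2 * M) := min_le_right _ _
  have h1 := h t ht0 htd (by linarith)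
  have h4 : t * (2 * M) ≤ - A := by
    rw [le_div_iff₀ (by positivity)] at ht3
    exact ht3
  have h5 : B ≤ |B| := le_abs_self B
  have h6 : - C ≤ |C| := neg_le_abs C
  have h7 : 0 ≤ |B| := abs_nonneg B
  have h8 : 0 ≤ |C| := abs_nonneg C
  have h9 : 0 ≤ 3 * A + 3 * t * B - t ^ 2 * C := by
    by_contra hc2
    push Not at hc2
    have : t * (3 * A + 3 * t * B - t ^ 2 * C) < 0 := mul_neg_of_pos_of_neg ht0 hc2
    nlinarith
  have h10 : t * B ≤ t * |B| := mul_le_mul_of_nonneg_left h5 ht0.le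
  have h11 : t ^ 2 * (- C) ≤ t ^ 2 * |C| := mul_le_mul_of_nonneg_left h6 (by positivity)
  have h12 : t ^ 2 * |C| ≤ t * |C| := by
    have : t ^ 2 ≤ t := by nlinarith
    exact mul_le_mul_of_nonneg_right this h8
  have h13 : t * (2 * M) = 2 * (t * |B|) + 2 * (t * |C|) + 2 * t := by rw [hM]; ring
  have h14 : 0 ≤ t * |B| := mul_nonneg ht0.le h7
  have h15 : 0 ≤ t * |C| := mul_nonneg ht0.le h8
  nlinarith

/-- the first-order condition at a minimizer -/
theorem first_order {c : V → V → ℕ} (hc : Rl c) {x : V → ℝ} (hx : ∀ v, 0 ≤ x v) (hx1 : ∑ v, x v = 1)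
    (hmin : ∀ y : V → ℝ, (∀ v, 0 ≤ y v) → ∑ v, y v = 1 → pp x c ≤ pp y c) {v : V} (hv : 0 < x v) :
    ∑ b, ∑ g, x b * x g * Fv c v b g ≤ pp x c := by
  classical
  let e : V → ℝ := fun u => if u = v then 1 else 0
  have he : ∑ u, e u = 1 := by simp [e]
  have h1 : tri c e x x = ∑ b, ∑ g, x b * x g * Fv c v b g := by
    unfold tri
    rw [Finset.sum_eq_single v]
    · simp [e]
    · intro u _ hu
      have : e u = 0 := by simp [e, hu]
      simp [this]
    · intro hcon; exact absurd (Finset.mem_univ v) hcon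
  rw [← h1]
  have h2 : 0 ≤ pp x c - tri c e x x := by
    refine lim_real (B := tri c e e x - pp x c) (C := tri c e e e - pp x c) hv fun t ht0 htv ht1 => ?_
    have h3 := hmin (fun u => (1 - t)⁻¹ * (x u - t * e u)) (fun u => ?_) ?_
    · rw [pp_smul, tri_expand hc] at h3
      have h4 : 0 < 1 - t := by linarith
      have h5 : ((1 - t)⁻¹) ^ 3 * (1 - t) ^ 3 = 1 := by
        rw [← mul_pow, inv_mul_cancel₀ h4.ne', one_pow]
      have h6 := mul_le_mul_of_nonneg_right h3 (pow_nonneg h4.le 3)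
      have h7 : (1 - t)⁻¹ ^ 3 * (pp x c - 3 * t * tri c e x x + 3 * t ^ 2 * tri c e e x - t ^ 3 * tri c e e e) * (1 - t) ^ 3
        = (pp x c - 3 * t * tri c e x x + 3 * t ^ 2 * tri c e e x - t ^ 3 * tri c e e e) := by
        rw [mul_right_comm, h5, one_mul]
      rw [h7] at h6
      nlinarith
    · refine mul_nonneg (inv_nonneg.mpr (by linarith)) ?_
      by_cases hu : u = v
      · have : e u = 1 := by simp [e, hu]
        rw [this, hu]; linarith
      · have : e u = 0 := by simp [e, hu]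
        rw [this]; linarith [hx u]
    · rw [← Finset.mul_sum, Finset.sum_sub_distrib, ← Finset.mul_sum, he, hx1, mul_one]
      exact inv_mul_cancel₀ (by linarith)
  linarith

end

end Pool.Agent.L0h25.FDF
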