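import Pool.Agent.L0h25.FDF.An7

/-! The density theorem. -/

set_option autoImplicit false

open Finset

namespace Pool.Agent.L0h25.FDF

section
variable {V : Type} [Fintype V]

theorem sum_sub (x : V → ℝ) (hx : ∀ v, 0 ≤ x v) [DecidablePred fun v => 0 < x v] (f : V → ℝ) :
    ∑ v : {v // 0 < x v}, x v * f v = ∑ v, x v * f v := by
  have h1 : ∑ v ∈ Finset.univ.filter (fun v => 0 < x v), x v * f v = ∑ v, x v * f v := by
    refine Finset.sum_filter_of_ne fun v _ hv => ?_
    rcases (hx v).lt_or_eq with h | h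
    · exact h
    · exfalso; rw [← h] at hv; simp at hv
  rw [← h1]
  exact (Finset.sum_subtype (Finset.univ.filter (fun v => 0 < x v)) (by simp) (fun v => x v * f v)).symm

theorem Rl.inv' {c : V → V → ℕ} (hc : Rl c) (a b : V) : c b a = inv3 (c a b) := by
  have h3 := hc.lt a b
  have : c a b = 0 ∨ c a b = 1 ∨ c a b = 2 := by omega
  rcases this with h | h | h
  · rw [h, hc.z a b h]; rfl
  · rw [h, hc.o a b h]; rfl
  · rw [h, hc.t a b h]; rfl

/-- no weighting with full support violates the theorem -/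
theorem main_full {c : V → V → ℕ} (hc : Rl c) {x : V → ℝ} (hx : ∀ v, 0 < x v) (hx1 : ∑ v, x v = 1)
    (hd : ∀ v, ∑ b, ∑ g, x b * x g * Fv c v b g < 4 / 9) (hp : pp x c < 4 / 9) : False := by
  classical
  let K0 : Cfg V := ⟨x, c, fun _ => 0, hx, hx1, hc⟩
  obtain ⟨k, hk⟩ := Finite.exists_min (fun k : V → Fin 3 => K0.Bk k)
  let K : Cfg V := ⟨x, c, k, hx, hx1, hc⟩
  obtain ⟨k0, hk0, hcl⟩ := close (x := x) (c := c) (fun v => (hx v).le) hx1 hc.lt (fun u v => hc.inv' u v)
    (fun a b d e => hc.free a b d e) hp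
  have hN : ∀ a b, K.N a b = if c a b = 0 then 1 else 0 := by
    intro a b
    show ((bi (decide (c a b = 0)) : ℤ) : ℝ) = _
    by_cases h : c a b = 0 <;> simp [h, bi]
  have hee : ee x c = 1 - K.E K.bt := by
    have e1 : (1 : ℝ) - K.E K.bt = K.E fun a => K.E fun b => 1 - K.N a b := by
      have : ∀ a, (K.E fun b => 1 - K.N a b) = 1 - K.bt a := by
        intro a; rw [K.E_sub, K.E_const]; rfl
      rw [K.E_congr this, K.E_sub, K.E_const]
    rw [e1]
    unfold ee Cfg.E
    simp only [Finset.mul_sum]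
    refine Finset.sum_congr rfl fun a _ => Finset.sum_congr rfl fun b _ => ?_
    rw [hN]
    have : (adj (c a b) : ℝ) = 1 - (if c a b = 0 then 1 else 0) := by
      unfold adj
      by_cases h : c a b = 0
      · rw [h]; simp
      · have h2 : Nat.beq (c a b) 0 = false := by
          cases h3 : Nat.beq (c a b) 0
          · rfl
          · exact absurd (Nat.eq_of_beq_eq_true h3) h
        rw [h2]; simp [h]
    rw [this]
    show x a * x b * _ = x a * (x b * _)
    ring
  have hBB : BB x c k0 = K0.Bk (fun v => ⟨k0 v, hk0 v⟩) := by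
    unfold BB Cfg.Bk Cfg.E
    simp only [Finset.mul_sum]
    refine Finset.sum_congr rfl fun a _ => Finset.sum_congr rfl fun b _ => ?_
    have : (bd (k0 a) (k0 b) (c a b) : ℝ) = K0.bk (fun v => ⟨k0 v, hk0 v⟩) a b := by
      have hN0 : K0.N a b = if c a b = 0 then 1 else 0 := hN a b
      unfold Cfg.bk bd
      rw [hN0]
      by_cases h : c a b = 0
      · rw [h]
        by_cases h1 : k0 a = k0 b
        · have h5 : Nat.beq (k0 a) (k0 b) = true := by rw [h1]; simp
          rw [h5]; simp [h1]
        · have h2 : Nat.beq (k0 a) (k0 b) = false := by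
            cases h3 : Nat.beq (k0 a) (k0 b)
            · rfl
            · exact absurd (Nat.eq_of_beq_eq_true h3) h1
          rw [h2]; simp [h1]
      · have h2 : Nat.beq (c a b) 0 = false := by
          cases h3 : Nat.beq (c a b) 0
          · rfl
          · exact absurd (Nat.eq_of_beq_eq_true h3) h
        rw [h2]
        by_cases h1 : k0 a = k0 b
        · have h5 : Nat.beq (k0 a) (k0 b) = true := by rw [h1]; simp
          rw [h5]; simp [h1, h]
        · have h2 : Nat.beq (k0 a) (k0 b) = false := by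
            cases h3 : Nat.beq (k0 a) (k0 b)
            · rfl
            · exact absurd (Nat.eq_of_beq_eq_true h3) h1
          rw [h2]; simp [h1, h]
    rw [this]
    show x a * x b * _ = x a * (x b * _)
    ring
  refine K.contra ⟨hk, hp, fun v => ?_, ?_⟩
  · have h1 := hd v
    refine lt_of_eq_of_lt ?_ h1
    unfold Cfg.dd Cfg.E Fv
    simp only [Finset.mul_sum]
    refine Finset.sum_congr rfl fun a _ => Finset.sum_congr rfl fun b _ => ?_
    show x a * (x b * _) = x a * x b * _
    ring
  · rw [hee, hBB] at hcl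
    have h2 := hk (fun v => ⟨k0 v, hk0 v⟩)
    have h3 : K.Bk K.k = K0.Bk k := rfl
    rw [h3]
    linarith

/-- **Main theorem.**  The density is at least `4 / 9` for every weighting. -/
theorem main {c : V → V → ℕ} (hc : Rl c) {x : V → ℝ} (hx : ∀ v, 0 ≤ x v) (hx1 : ∑ v, x v = 1) :
    4 / 9 ≤ pp x c := by
  classical
  by_contra hcon
  push Not at hcon
  have hne : Nonempty V := by
    by_contra h
    rw [not_nonempty_iff] at h
    rw [Fintype.sum_empty] at hx1
    exact absurd hx1 (by norm_num)
  obtain ⟨y, hy, hy1, hmin⟩ := ex_min c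
  have hlt : pp y c < 4 / 9 := lt_of_le_of_lt (hmin x hx hx1) hcon
  let W := {v // 0 < y v}
  let c' : W → W → ℕ := fun u v => c u v
  let y' : W → ℝ := fun v => y v
  have hc' : Rl c' := ⟨fun u v => hc.lt u v, fun u v => hc.z u v, fun u v => hc.o u v, fun u v => hc.t u v,
    fun a b d e => hc.free a b d e⟩
  have hs : ∀ f : V → ℝ, ∑ v : W, y v * f v = ∑ v, y v * f v := fun f => sum_sub y hy f
  have hy'1 : ∑ v, y' v = 1 := by
    have := hs (fun _ => 1)
    simp only [mul_one] at this
    rw [← hy1, ← this]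
  have hlink : ∀ v : V, ∑ b : W, ∑ g : W, y' b * y' g * Fv c v b g = ∑ b, ∑ g, y b * y g * Fv c v b g := by
    intro v
    have e1 : ∀ b : V, ∑ g : W, y b * y' g * Fv c v b g = y b * ∑ g, y g * Fv c v b g := by
      intro b
      rw [← hs, Finset.mul_sum]
      exact Finset.sum_congr rfl fun g _ => by show _ = y b * (y g * _); ring
    have e2 : ∑ b : W, ∑ g : W, y' b * y' g * Fv c v b g = ∑ b : W, y b * ∑ g, y g * Fv c v b g :=
      Finset.sum_congr rfl fun b _ => e1 b
    rw [e2, hs (fun b => ∑ g, y g * Fv c v b g)]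
    simp only [Finset.mul_sum]
    exact Finset.sum_congr rfl fun b _ => Finset.sum_congr rfl fun g _ => by ring
  have hpp : pp y' c' = pp y c := by
    have e1 : pp y' c' = ∑ a : W, y a * ∑ b : W, ∑ g : W, y' b * y' g * Fv c a b g := by
      unfold pp
      simp only [Finset.mul_sum]
      exact Finset.sum_congr rfl fun a _ => Finset.sum_congr rfl fun b _ => Finset.sum_congr rfl fun g _ => by
        show y a * y b * y g * Fv c a b g = y a * (y b * y g * Fv c a b g)
        ring
    have e2 : ∑ a : W, y a * ∑ b : W, ∑ g : W, y' b * y' g * Fv c a b g =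
        ∑ a : W, y a * ∑ b, ∑ g, y b * y g * Fv c a b g :=
      Finset.sum_congr rfl fun a _ => by rw [hlink]
    rw [e1, e2, hs (fun a => ∑ b, ∑ g, y b * y g * Fv c a b g)]
    unfold pp
    simp only [Finset.mul_sum]
    exact Finset.sum_congr rfl fun a _ => Finset.sum_congr rfl fun b _ => Finset.sum_congr rfl fun g _ => by
      unfold Fv; ring
  refine main_full hc' (x := y') (fun v => v.2) hy'1 (fun v => ?_) (by rw [hpp]; exact hlt)
  have h1 : ∑ b : W, ∑ g : W, y' b * y' g * Fv c' v b g = ∑ b : W, ∑ g : W, y' b * y' g * Fv c v b g := rfl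
  rw [h1, hlink]
  exact lt_of_le_of_lt (first_order hc hy hy1 hmin v.2) hlt

end

end Pool.Agent.L0h25.FDF
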