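import Pool.Agent.L0h25.FDF.Bip

/-! Iterating the lemma on bipartite configurations, and the peeling argument. -/

set_option autoImplicit false

open Finset

namespace Pool.Agent.L0h25.FDF

section
variable {V : Type} [Fintype V] [DecidableEq V] {x : V → ℝ} {c : V → V → ℕ} {s : V → Bool}

theorem Rl.diag (h : Rl c) (v : V) : c v v = 0 := by
  have h1 := h.lt v v
  have h2 : c v v = 0 ∨ c v v = 1 ∨ c v v = 2 := by omega
  rcases h2 with h2 | h2 | h2
  · exact h2
  · have := h.o _ _ h2; omega
  · have := h.t _ _ h2; omega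

/-- `1` if the pair is bad -/
noncomputable def bq (c : V → V → ℕ) (s : V → Bool) (z w : V) : ℝ :=
  if s w = s z then (if c z w = 0 then 0 else 1) else (if c z w = 0 then 1 else 0)

theorem bq_symm (h : Rl c) (z w : V) : bq c s z w = bq c s w z := by
  have h0 : c z w = 0 ↔ c w z = 0 := ⟨h.z z w, h.z w z⟩
  unfold bq
  by_cases h1 : s w = s z
  · simp [h1, h0]
  · have h2 : ¬ s z = s w := fun h => h1 h.symm
    simp [h1, h2, h0]

theorem bq_self (h : Rl c) (z : V) : bq c s z z = 0 := by simp [bq, h.diag z]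

theorem bq_nonneg (z w : V) : 0 ≤ bq c s z w := by
  unfold bq; split_ifs <;> norm_num

theorem bad_eq (S : Finset V) (z : V) :
    mass x (fi c s S z) + mass x (fc c s S z) = ∑ w ∈ S, x w * bq c s z w := by
  unfold mass fi fc
  rw [Finset.sum_filter, Finset.sum_filter, ← Finset.sum_add_distrib]
  refine Finset.sum_congr rfl fun w _ => ?_
  unfold bq
  by_cases h1 : s w = s z <;> by_cases h2 : c z w = 0 <;> simp [h1, h2]

/-- the bad mass of a set, over ordered pairs -/
noncomputable def badm (x : V → ℝ) (c : V → V → ℕ) (s : V → Bool) (S : Finset V) : ℝ :=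
  ∑ z ∈ S, x z * ∑ w ∈ S, x w * bq c s z w

theorem badm_erase (h : Rl c) {S : Finset V} {v : V} (hv : v ∈ S) :
    badm x c s S = badm x c s (S.erase v) + 2 * (x v * ∑ w ∈ S, x w * bq c s v w) := by
  unfold badm
  have e1 : ∀ z, ∑ w ∈ S, x w * bq c s z w = x v * bq c s z v + ∑ w ∈ S.erase v, x w * bq c s z w := by
    intro z
    exact (Finset.add_sum_erase S (fun w => x w * bq c s z w) hv).symm
  rw [← Finset.add_sum_erase S (fun z => x z * ∑ w ∈ S, x w * bq c s z w) hv]
  have e2 : ∑ z ∈ S.erase v, x z * ∑ w ∈ S, x w * bq c s z w =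
      x v * (∑ z ∈ S.erase v, x z * bq c s v z) +
      ∑ z ∈ S.erase v, x z * ∑ w ∈ S.erase v, x w * bq c s z w := by
    rw [Finset.mul_sum, ← Finset.sum_add_distrib]
    refine Finset.sum_congr rfl fun z _ => ?_
    rw [e1, bq_symm h z v]
    ring
  have e3 : ∑ z ∈ S.erase v, x z * bq c s v z = ∑ w ∈ S, x w * bq c s v w := by
    rw [e1 v, bq_self h, mul_zero, zero_add]
  rw [e2, e3]
  ring

theorem badm_mono (hx : ∀ v, 0 < x v) {S T : Finset V} (h : S ⊆ T) :
    badm x c s S ≤ badm x c s T := by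
  unfold badm
  refine le_trans (Finset.sum_le_sum fun z _ => mul_le_mul_of_nonneg_left
    (Finset.sum_le_sum_of_subset_of_nonneg h fun w _ _ => mul_nonneg (hx w).le (bq_nonneg z w)) (hx z).le) ?_
  exact Finset.sum_le_sum_of_subset_of_nonneg h fun z _ _ =>
    mul_nonneg (hx z).le (Finset.sum_nonneg fun w _ => mul_nonneg (hx w).le (bq_nonneg z w))

theorem fo_erase_mass (hx : ∀ v, 0 < x v) (S : Finset V) (v z : V) :
    mass x (fo c s S z) ≤ mass x (fo c s (S.erase v) z) + x v := by
  have : fo c s S z ⊆ fo c s (S.erase v) z ∪ {v} := by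
    intro w hw
    obtain ⟨h1, h2⟩ := Finset.mem_filter.mp hw
    by_cases h : w = v
    · exact Finset.mem_union_right _ (by simp [h])
    · exact Finset.mem_union_left _ (Finset.mem_filter.mpr ⟨Finset.mem_erase.mpr ⟨h, h1⟩, h2⟩)
  have h2 := le_trans (mass_mono hx this) (mass_union_le hx _ _)
  have h3 : mass x ({v} : Finset V) = x v := by simp [mass]
  rwa [h3] at h2

/-- a configuration with out-degrees at least `rho` has ordered bad mass at least `rho ^ 2 / 3` -/
theorem bip_iter (hx : ∀ v, 0 < x v) (hc : Rl c) : ∀ (n : ℕ) (S : Finset V), S.card = n → S.Nonempty →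
    ∀ rho : ℝ, 0 < rho → (∀ z ∈ S, rho ≤ mass x (fo c s S z)) → rho ^ 2 / 3 ≤ badm x c s S := by
  intro n
  induction n with
  | zero =>
    intro S hn hS
    exact absurd (Finset.card_eq_zero.mp hn) hS.ne_empty
  | succ n ih =>
    intro S hn hS rho hr hf
    obtain ⟨v, hv, hmax⟩ := Finset.exists_max_image S (fun z => ∑ w ∈ S, x w * bq c s z w) hS
    have h1 := bip (s := s) hx hc S hS rho (∑ w ∈ S, x w * bq c s v w) hr hf fun z hz => by
      rw [bad_eq]; exact hmax z hz
    rw [badm_erase hc hv]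
    have hxv := hx v
    by_cases hlt : rho ≤ x v
    · have h0 : 0 ≤ badm x c s (S.erase v) := Finset.sum_nonneg fun z _ =>
        mul_nonneg (hx z).le (Finset.sum_nonneg fun w _ => mul_nonneg (hx w).le (bq_nonneg z w))
      have h2 : rho * (rho / 3) ≤ x v * ∑ w ∈ S, x w * bq c s v w :=
        mul_le_mul hlt (by linarith) (by positivity) hxv.le
      nlinarith
    · push Not at hlt
      have hne : (S.erase v).Nonempty := by
        have h3 := hf v hv
        have h4 : (fo c s S v).Nonempty := by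
          rw [Finset.nonempty_iff_ne_empty]
          intro h0
          rw [h0] at h3
          simp only [mass, Finset.sum_empty] at h3
          linarith
        obtain ⟨w, hw⟩ := h4
        obtain ⟨hwS, hws, -⟩ := Finset.mem_filter.mp hw
        refine ⟨w, Finset.mem_erase.mpr ⟨?_, hwS⟩⟩
        intro h; exact hws (by rw [h])
      have h5 := ih (S.erase v) (by rw [Finset.card_erase_of_mem hv, hn]; rfl) hne (rho - x v) (by linarith)
        fun z hz => by
          have := fo_erase_mass (c := c) (s := s) hx S v z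
          have := hf z (Finset.mem_of_mem_erase hz)
          linarith
      have h2 : x v * (rho / 3) ≤ x v * ∑ w ∈ S, x w * bq c s v w :=
        mul_le_mul_of_nonneg_left (by linarith) hxv.le
      nlinarith

/-- every subconfiguration has a vertex of small out-degree -/
theorem bip_min (hx : ∀ v, 0 < x v) (hc : Rl c) {T : Finset V} {rho : ℝ} (hr : 0 ≤ rho)
    (hB : badm x c s T ≤ rho ^ 2 / 3) {S : Finset V} (hS : S.Nonempty) (hST : S ⊆ T) :
    ∃ z ∈ S, mass x (fo c s S z) ≤ rho := by
  by_contra hcon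
  push Not at hcon
  obtain ⟨v, hv, hmin⟩ := Finset.exists_min_image S (fun z => mass x (fo c s S z)) hS
  have h1 := hcon v hv
  have h2 := bip_iter (s := s) hx hc S.card S rfl hS (mass x (fo c s S v)) (by linarith) hmin
  have h3 := badm_mono (c := c) (s := s) hx hST
  nlinarith

/-- the cost function of the peeling argument -/
noncomputable def Om (a b : ℝ) : ℝ := if a ≤ b then a ^ 2 * b - a ^ 3 / 3 else b ^ 2 * a - b ^ 3 / 3

theorem Om_symm (a b : ℝ) : Om a b = Om b a := by
  unfold Om
  rcases lt_trichotomy a b with h | h | h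
  · rw [if_pos h.le, if_neg (not_le.mpr h)]
  · rw [h]
  · rw [if_neg (not_le.mpr h), if_pos h.le]

theorem Om_step {a a' b : ℝ} (h0 : 0 ≤ a') (h1 : a' ≤ a) (hb : 0 ≤ b) :
    Om a b ≤ Om a' b + (a - a') * b ^ 2 := by
  unfold Om
  by_cases h2 : a ≤ b
  · rw [if_pos h2, if_pos (h1.trans h2)]
    nlinarith [mul_nonneg (sub_nonneg.mpr h1) (sq_nonneg (b - a)), mul_nonneg (sub_nonneg.mpr h1) (sq_nonneg (b - a')),
      mul_nonneg (sub_nonneg.mpr h1) (mul_nonneg (sub_nonneg.mpr h2) (sub_nonneg.mpr (h1.trans h2)))]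
  · rw [if_neg h2]
    push Not at h2
    by_cases h3 : a' ≤ b
    · rw [if_pos h3]
      nlinarith [mul_nonneg (sub_nonneg.mpr h3) (sq_nonneg (b - a')), mul_nonneg (mul_nonneg (sub_nonneg.mpr h3) h0) (sub_nonneg.mpr h3)]
    · rw [if_neg h3]
      nlinarith

end

end Pool.Agent.L0h25.FDF
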