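import Pool.Agent.L0h25.FDF.Code2

set_option autoImplicit false
set_option maxRecDepth 100000

namespace Pool.Agent.L0h25.FDF

theorem all4_ok : all4 = true := by decide +kernel
theorem all5_ok : all5 0 41 = true := by decide +kernel

end Pool.Agent.L0h25.FDF
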