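import Pool.Agent.L0h25.FDF.Code2

set_option autoImplicit false
set_option maxRecDepth 100000

namespace Pool.Agent.L0h25.FDF

theorem leaf_ok : (nall 559 fun k => leafOK (h5 k)) = true := by decide +kernel
theorem psd3_ok : (nall 7 fun s => nall 27 fun a => nall 27 fun b => psd3 s a b) = true := by
  decide +kernel
theorem psd1_ok : (nall 15 fun a => nall 15 fun b => psd1 a b) = true := by decide +kernel

end Pool.Agent.L0h25.FDF
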