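import Pool.Agent.L0h25.FDF.Tab

/-! Kernel evaluation of the five-vertex certificate. -/

set_option autoImplicit false
set_option maxRecDepth 100000

namespace Pool.Agent.L0h25.FDF

def nsum (n : ℕ) (f : ℕ → ℕ) : ℕ := Nat.rec 0 (fun k s => Nat.add s (f k)) n
def nall (n : ℕ) (f : ℕ → Bool) : Bool := Nat.rec true (fun k s => and s (f k)) n

/-- the `k`-th field of width `w` of the number `T` -/
def fld (T w k : ℕ) : ℕ :=
  Nat.land (Nat.shiftRight T (Nat.mul w k)) (Nat.sub (Nat.pow 2 w) 1)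

def rl (h i j : ℕ) : ℕ := fld h 2 (Nat.add (Nat.mul 5 i) j)
def pm (k i : ℕ) : ℕ := fld (fld PMT 15 k) 3 i
def tc (a b c : ℕ) : ℕ := Nat.add a (Nat.add (Nat.mul 3 b) (Nat.mul 9 c))

def QTf (s : ℕ) : ℕ :=
  cond (Nat.beq s 0) QT0 (cond (Nat.beq s 1) QT1 (cond (Nat.beq s 2) QT2 (cond (Nat.beq s 3) QT3
    (cond (Nat.beq s 4) QT4 (cond (Nat.beq s 5) QT5 QT6)))))

def LTf (s : ℕ) : ℕ :=
  cond (Nat.beq s 0) LT0 (cond (Nat.beq s 1) LT1 (cond (Nat.beq s 2) LT2 (cond (Nat.beq s 3) LT3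
    (cond (Nat.beq s 4) LT4 (cond (Nat.beq s 5) LT5 LT6)))))

/-- the entries for types of size three, shifted by `2 ^ 39` -/
def q3 (t a b : ℕ) : ℕ :=
  cond (Nat.beq (fld TIT 3 t) 7) 549755813888
    (fld (QTf (fld TIT 3 t)) 40 (Nat.add (Nat.mul 27 a) b))

/-- the entries for the type of size one, shifted by `2 ^ 39` -/
def q1 (t u : ℕ) : ℕ := fld Q1T 40 (Nat.add (Nat.mul 15 (fld IMT 4 t)) (fld IMT 4 u))

def cl (a b : ℕ) : ℕ := cond (Nat.beq a 0) 0 (cond (Nat.beq b 0) 1 2)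

/-- `1` if the pair with classes `x`, `y` and relation `r` is bad -/
def bd (x y r : ℕ) : ℕ :=
  cond (Nat.beq x y) (cond (Nat.beq r 0) 0 1) (cond (Nat.beq r 0) 1 0)

def adj (r : ℕ) : ℕ := cond (Nat.beq r 0) 0 1

def pos (r01 r02 r12 r23 : ℕ) : ℕ :=
  Nat.add (Nat.mul (Nat.mul 9 MM) (fld FTT 1 (tc r01 r02 r12)))
    (cond (Nat.beq r01 1) (Nat.mul (Nat.mul 375 KK) (adj r23)) 0)

def neg (r01 r02 r12 r03 r13 r23 r04 r34 r30 r31 r32 r40 r41 r42 : ℕ) : ℕ :=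
  Nat.add (Nat.mul 4 MM) (Nat.add
    (cond (Nat.beq r01 1) (Nat.mul KK (Nat.add 244 (Nat.mul 1125 (bd (cl r02 r12) (cl r03 r13) r23)))) 0)
    (Nat.add (q3 (tc r01 r02 r12) (tc r30 r31 r32) (tc r40 r41 r42))
      (q1 (tc r01 r02 r12) (tc r03 r04 r34))))

def posr (r : ℕ → ℕ → ℕ) : ℕ := pos (r 0 1) (r 0 2) (r 1 2) (r 2 3)
def negr (r : ℕ → ℕ → ℕ) : ℕ :=
  neg (r 0 1) (r 0 2) (r 1 2) (r 0 3) (r 1 3) (r 2 3) (r 0 4) (r 3 4) (r 3 0) (r 3 1) (r 3 2)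
    (r 4 0) (r 4 1) (r 4 2)

/-- the leaf inequality for the structure with code `h` -/
def leafOK (h : ℕ) : Bool :=
  Nat.ble (nsum 120 fun k => negr fun i j => rl h (pm k i) (pm k j))
    (Nat.add (nsum 120 fun k => posr fun i j => rl h (pm k i) (pm k j)) 131941395333120)

def lv (s a k : ℕ) : ℕ := fld (LTf s) 20 (Nat.add (Nat.mul 27 a) k)
def lu (a k : ℕ) : ℕ := fld L1T 20 (Nat.add (Nat.mul 15 a) k)

/-- the matrix for type `s` is a Gram matrix -/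
def psd3 (s a b : ℕ) : Bool :=
  Nat.beq (Nat.add (fld (QTf s) 40 (Nat.add (Nat.mul 27 a) b))
      (Nat.mul 524288 (nsum 27 fun k => Nat.add (lv s a k) (lv s b k))))
    (Nat.add (nsum 27 fun k => Nat.mul (lv s a k) (lv s b k)) 7971459301376)

def psd1 (a b : ℕ) : Bool :=
  Nat.beq (Nat.add (fld Q1T 40 (Nat.add (Nat.mul 15 a) b))
      (Nat.mul 524288 (nsum 15 fun k => Nat.add (lu a k) (lu b k))))
    (Nat.add (nsum 15 fun k => Nat.mul (lu a k) (lu b k)) 4672924418048)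

end Pool.Agent.L0h25.FDF
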