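import Pool.Agent.L0h25.FDF.Code

/-! Kernel evaluation of the reduction to representatives. -/

set_option autoImplicit false
set_option maxRecDepth 100000

namespace Pool.Agent.L0h25.FDF

def nany (n : ℕ) (f : ℕ → Bool) : Bool := Nat.rec false (fun k s => or s (f k)) n

def inv3 (x : ℕ) : ℕ := cond (Nat.beq x 0) 0 (Nat.sub 3 x)

def put (x i j : ℕ) : ℕ := Nat.add (Nat.shiftLeft x (Nat.mul 2 (Nat.add (Nat.mul 5 i) j)))
  (Nat.shiftLeft (inv3 x) (Nat.mul 2 (Nat.add (Nat.mul 5 j) i)))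

def pat4 (c01 c02 c03 c12 c13 c23 : ℕ) : ℕ :=
  Nat.add (put c01 0 1) (Nat.add (put c02 0 2) (Nat.add (put c03 0 3) (Nat.add (put c12 1 2)
    (Nat.add (put c13 1 3) (put c23 2 3)))))

def pat5 (h e0 e1 e2 e3 : ℕ) : ℕ :=
  Nat.add h (Nat.add (put e0 0 4) (Nat.add (put e1 1 4) (Nat.add (put e2 2 4) (put e3 3 4))))

def cyc (h a b c d : ℕ) : Bool :=
  and (Nat.beq (rl h a b) 1) (and (Nat.beq (rl h b c) 1) (and (Nat.beq (rl h c d) 1)
    (and (Nat.beq (rl h d a) 1) (and (Nat.beq (rl h a c) 0) (Nat.beq (rl h b d) 0)))))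

def cyc4 (h : ℕ) : Bool :=
  or (cyc h 0 1 2 3) (or (cyc h 0 1 3 2) (or (cyc h 0 2 1 3) (or (cyc h 0 2 3 1)
    (or (cyc h 0 3 1 2) (cyc h 0 3 2 1)))))

def cyc5 (h : ℕ) : Bool := nany 4 fun b => nany 4 fun c => nany 4 fun d => cyc h 4 b c d

def h4 (k : ℕ) : ℕ := fld H4T 50 k
def h5 (k : ℕ) : ℕ := fld H5T 50 k

/-- the fields of `pat4` -/
def ext4 (c01 c02 c03 c12 c13 c23 : ℕ) : Bool :=
  let h := pat4 c01 c02 c03 c12 c13 c23
  and (Nat.beq (rl h 0 1) c01) (and (Nat.beq (rl h 0 2) c02) (and (Nat.beq (rl h 0 3) c03)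
    (and (Nat.beq (rl h 1 2) c12) (and (Nat.beq (rl h 1 3) c13) (and (Nat.beq (rl h 2 3) c23)
    (and (Nat.beq (rl h 1 0) (inv3 c01)) (and (Nat.beq (rl h 2 0) (inv3 c02))
    (and (Nat.beq (rl h 3 0) (inv3 c03)) (and (Nat.beq (rl h 2 1) (inv3 c12))
    (and (Nat.beq (rl h 3 1) (inv3 c13)) (and (Nat.beq (rl h 3 2) (inv3 c23))
    (nall 4 fun i => Nat.beq (rl h i i) 0))))))))))))

def tst (c p h n : ℕ) : Bool :=
  nall n fun i => nall n fun j => Nat.beq (rl c (pm p i) (pm p j)) (rl h i j)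

def t4 (c01 c02 c03 c12 c13 c23 : ℕ) : ℕ :=
  fld T4T 13 (Nat.add c01 (Nat.add (Nat.mul 3 c02) (Nat.add (Nat.mul 9 c03) (Nat.add (Nat.mul 27 c12)
    (Nat.add (Nat.mul 81 c13) (Nat.mul 243 c23))))))

def chk4 (c01 c02 c03 c12 c13 c23 : ℕ) : Bool :=
  and (ext4 c01 c02 c03 c12 c13 c23)
    (or (cyc4 (pat4 c01 c02 c03 c12 c13 c23))
      (let t := t4 c01 c02 c03 c12 c13 c23
       let p := Nat.land t 127
       let k := Nat.shiftRight t 7
       and (Nat.ble (Nat.succ p) 120) (and (Nat.ble (Nat.succ k) 41) (and (Nat.beq (pm p 4) 4)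
         (tst (pat4 c01 c02 c03 c12 c13 c23) p (h4 k) 4)))))

def all3 (f : ℕ → Bool) : Bool := nall 3 f

def all4 : Bool := all3 fun a => all3 fun b => all3 fun c => all3 fun d => all3 fun e => all3 fun f =>
  chk4 a b c d e f

/-- the fields of `pat5` -/
def ext5 (h e0 e1 e2 e3 : ℕ) : Bool :=
  let g := pat5 h e0 e1 e2 e3
  and (nall 4 fun i => nall 4 fun j => Nat.beq (rl g i j) (rl h i j))
    (and (Nat.beq (rl g 0 4) e0) (and (Nat.beq (rl g 1 4) e1) (and (Nat.beq (rl g 2 4) e2)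
    (and (Nat.beq (rl g 3 4) e3) (and (Nat.beq (rl g 4 0) (inv3 e0)) (and (Nat.beq (rl g 4 1) (inv3 e1))
    (and (Nat.beq (rl g 4 2) (inv3 e2)) (and (Nat.beq (rl g 4 3) (inv3 e3))
      (Nat.beq (rl g 4 4) 0)))))))))

def t5 (k e0 e1 e2 e3 : ℕ) : ℕ :=
  fld T5T 17 (Nat.add (Nat.mul 81 k) (Nat.add e0 (Nat.add (Nat.mul 3 e1) (Nat.add (Nat.mul 9 e2)
    (Nat.mul 27 e3)))))

def chk5 (k e0 e1 e2 e3 : ℕ) : Bool :=
  and (ext5 (h4 k) e0 e1 e2 e3)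
    (or (cyc5 (pat5 (h4 k) e0 e1 e2 e3))
      (let t := t5 k e0 e1 e2 e3
       let p := Nat.land t 127
       let m := Nat.shiftRight t 7
       and (Nat.ble (Nat.succ p) 120) (and (Nat.ble (Nat.succ m) 559)
         (tst (pat5 (h4 k) e0 e1 e2 e3) p (h5 m) 5))))

def all5 (a b : ℕ) : Bool := nall (Nat.sub b a) fun k => all3 fun c => all3 fun d => all3 fun e =>
  all3 fun f => chk5 (Nat.add a k) c d e f

end Pool.Agent.L0h25.FDF
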