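import Pool.Agent.L0h25.FDF.ChkA

/-! Every five-point structure without induced directed four-cycle is a relabelled copy of a listed one. -/

set_option autoImplicit false
set_option maxRecDepth 100000
set_option maxHeartbeats 4000000

namespace Pool.Agent.L0h25.FDF

theorem nall_true {n : ℕ} {f : ℕ → Bool} (h : nall n f = true) : ∀ k, k < n → f k = true := by
  induction n with
  | zero => intro k hk; omega
  | succ n ih =>
    have h' : and (nall n f) (f n) = true := h
    rw [Bool.and_eq_true] at h'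
    intro k hk
    rcases Nat.lt_succ_iff_lt_or_eq.mp hk with h1 | h1
    · exact ih h'.1 k h1
    · rw [h1]; exact h'.2

theorem nany_false {n : ℕ} {f : ℕ → Bool} (h : ∀ k, k < n → f k = false) : nany n f = false := by
  induction n with
  | zero => rfl
  | succ n ih =>
    have h' : nany (n + 1) f = or (nany n f) (f n) := rfl
    rw [h', ih (fun k hk => h k (by omega)), h n (by omega)]
    rfl

theorem nsum_eq (n : ℕ) (f : ℕ → ℕ) : nsum n f = ∑ k ∈ Finset.range n, f k := by
  induction n with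
  | zero => rfl
  | succ n ih =>
    have h' : nsum (n + 1) f = Nat.add (nsum n f) (f n) := rfl
    rw [h', Finset.sum_range_succ, ih]
    rfl

theorem beq_of {a b : ℕ} (h : Nat.beq a b = true) : a = b := Nat.eq_of_beq_eq_true h

theorem lt_of_ble {a b : ℕ} (h : Nat.ble (Nat.succ a) b = true) : a < b :=
  Nat.le_of_ble_eq_true h

/-- permutations of five points, listed -/
theorem pm_rng : (nall 120 fun k => nall 5 fun i => Nat.ble (Nat.succ (pm k i)) 5) = true := by
  decide +kernel

theorem pm_inj : (nall 120 fun k => nall 5 fun i => nall 5 fun j =>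
    or (Nat.beq i j) (not (Nat.beq (pm k i) (pm k j)))) = true := by
  decide +kernel

theorem pm_lt {k i : ℕ} (hk : k < 120) (hi : i < 5) : pm k i < 5 :=
  lt_of_ble (nall_true (nall_true pm_rng k hk) i hi)

def pf (k : ℕ) (i : Fin 5) : Fin 5 := ⟨pm k i % 5, Nat.mod_lt _ (by norm_num)⟩

theorem pf_val {k : ℕ} (hk : k < 120) (i : Fin 5) : ((pf k i : Fin 5) : ℕ) = pm k i :=
  Nat.mod_eq_of_lt (pm_lt hk i.isLt)

theorem pf_injective {k : ℕ} (hk : k < 120) : Function.Injective (pf k) := by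
  intro i j hij
  have h1 : pm k i = pm k j := by
    rw [← pf_val hk, ← pf_val hk, hij]
  have h2 := nall_true (nall_true (nall_true pm_inj k hk) i i.isLt) j j.isLt
  rw [h1] at h2
  have h3 : Nat.beq (pm k j) (pm k j) = true := Nat.beq_refl _
  rw [h3, Bool.not_true, Bool.or_false] at h2
  exact Fin.ext (beq_of h2)

/-- a structure on five points -/
structure Str (r : Fin 5 → Fin 5 → ℕ) : Prop where
  lt : ∀ i j, r i j < 3
  inv : ∀ i j, r j i = inv3 (r i j)
  free : ∀ a b c d, ¬ (r a b = 1 ∧ r b c = 1 ∧ r c d = 1 ∧ r d a = 1 ∧ r a c = 0 ∧ r b d = 0)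

theorem Str.diag {r : Fin 5 → Fin 5 → ℕ} (h : Str r) (i : Fin 5) : r i i = 0 := by
  have h1 := h.inv i i
  have h2 := h.lt i i
  unfold inv3 at h1
  interval_cases hr : r i i
  · rfl
  · exact absurd h1 (by decide)
  · exact absurd h1 (by decide)

theorem Str.comp {r : Fin 5 → Fin 5 → ℕ} (h : Str r) (s : Fin 5 → Fin 5) :
    Str fun i j => r (s i) (s j) :=
  ⟨fun i j => h.lt _ _, fun i j => h.inv _ _, fun a b c d => h.free _ _ _ _⟩

attribute [local irreducible] rl fld pat4 pat5 pm h4 h5 t4 t5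

theorem cyc_false {r : Fin 5 → Fin 5 → ℕ} (h : Str r) {g : ℕ} {a b c d : Fin 5}
    (h1 : rl g a b = r a b) (h2 : rl g b c = r b c) (h3 : rl g c d = r c d) (h4 : rl g d a = r d a)
    (h5 : rl g a c = r a c) (h6 : rl g b d = r b d) : cyc g a b c d = false := by
  by_contra hc
  rw [Bool.not_eq_false] at hc
  unfold cyc at hc
  simp only [Bool.and_eq_true] at hc
  obtain ⟨k1, k2, k3, k4, k5, k6⟩ := hc
  have k1 := beq_of k1
  have k2 := beq_of k2
  have k3 := beq_of k3
  have k4 := beq_of k4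
  have k5 := beq_of k5
  have k6 := beq_of k6
  rw [h1] at k1; rw [h2] at k2; rw [h3] at k3; rw [h4] at k4; rw [h5] at k5; rw [h6] at k6
  exact h.free a b c d ⟨k1, k2, k3, k4, k5, k6⟩

theorem all4_get {a b c d e f : ℕ} (ha : a < 3) (hb : b < 3) (hc : c < 3) (hd : d < 3) (he : e < 3)
    (hf : f < 3) : chk4 a b c d e f = true := by
  have h := all4_ok
  unfold all4 all3 at h
  exact nall_true (nall_true (nall_true (nall_true (nall_true (nall_true h a ha) b hb) c hc) d hd)
    e he) f hf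

theorem all5_get {k c d e f : ℕ} (hk : k < 41) (hc : c < 3) (hd : d < 3) (he : e < 3)
    (hf : f < 3) : chk5 k c d e f = true := by
  have h := all5_ok
  unfold all5 all3 at h
  have h2 := nall_true (nall_true (nall_true (nall_true (nall_true h k hk) c hc) d hd) e he) f hf
  have e1 : Nat.add 0 k = k := Nat.zero_add k
  rw [e1] at h2
  exact h2

theorem chk4_get {a b c d e f : ℕ} (h : chk4 a b c d e f = true) :
    ext4 a b c d e f = true ∧ (cyc4 (pat4 a b c d e f) = true ∨ ∃ p k, p < 120 ∧ k < 41 ∧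
      pm p 4 = 4 ∧ tst (pat4 a b c d e f) p (h4 k) 4 = true) := by
  have h' : and (ext4 a b c d e f) (or (cyc4 (pat4 a b c d e f))
      (and (Nat.ble (Nat.succ (Nat.land (t4 a b c d e f) 127)) 120)
        (and (Nat.ble (Nat.succ (Nat.shiftRight (t4 a b c d e f) 7)) 41)
          (and (Nat.beq (pm (Nat.land (t4 a b c d e f) 127) 4) 4)
            (tst (pat4 a b c d e f) (Nat.land (t4 a b c d e f) 127)
              (h4 (Nat.shiftRight (t4 a b c d e f) 7)) 4))))) = true := h
  rw [Bool.and_eq_true, Bool.or_eq_true] at h'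
  refine ⟨h'.1, h'.2.imp id fun h2 => ?_⟩
  rw [Bool.and_eq_true, Bool.and_eq_true, Bool.and_eq_true] at h2
  exact ⟨_, _, lt_of_ble h2.1, lt_of_ble h2.2.1, beq_of h2.2.2.1, h2.2.2.2⟩

theorem chk5_get {k c d e f : ℕ} (h : chk5 k c d e f = true) :
    ext5 (h4 k) c d e f = true ∧ (cyc5 (pat5 (h4 k) c d e f) = true ∨ ∃ p m, p < 120 ∧ m < 559 ∧
      tst (pat5 (h4 k) c d e f) p (h5 m) 5 = true) := by
  have h' : and (ext5 (h4 k) c d e f) (or (cyc5 (pat5 (h4 k) c d e f))
      (and (Nat.ble (Nat.succ (Nat.land (t5 k c d e f) 127)) 120)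
        (and (Nat.ble (Nat.succ (Nat.shiftRight (t5 k c d e f) 7)) 559)
            (tst (pat5 (h4 k) c d e f) (Nat.land (t5 k c d e f) 127)
              (h5 (Nat.shiftRight (t5 k c d e f) 7)) 5)))) = true := h
  rw [Bool.and_eq_true, Bool.or_eq_true] at h'
  refine ⟨h'.1, h'.2.imp id fun h2 => ?_⟩
  rw [Bool.and_eq_true, Bool.and_eq_true] at h2
  exact ⟨_, _, lt_of_ble h2.1, lt_of_ble h2.2.1, h2.2.2⟩

theorem ext4_get {a b c d e f : ℕ} {g : ℕ} (h : ext4 a b c d e f = true) (hg : g = pat4 a b c d e f) :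
    (rl g 0 1 = a ∧ rl g 0 2 = b ∧ rl g 0 3 = c ∧ rl g 1 2 = d ∧ rl g 1 3 = e ∧ rl g 2 3 = f) ∧
    (rl g 1 0 = inv3 a ∧ rl g 2 0 = inv3 b ∧ rl g 3 0 = inv3 c ∧ rl g 2 1 = inv3 d ∧
      rl g 3 1 = inv3 e ∧ rl g 3 2 = inv3 f) ∧
    (rl g 0 0 = 0 ∧ rl g 1 1 = 0 ∧ rl g 2 2 = 0 ∧ rl g 3 3 = 0) := by
  subst hg
  unfold ext4 at h
  simp only [Bool.and_eq_true] at h
  obtain ⟨e01, e02, e03, e12, e13, e23, e10, e20, e30, e21, e31, e32, e00⟩ := h
  exact ⟨⟨beq_of e01, beq_of e02, beq_of e03, beq_of e12, beq_of e13, beq_of e23⟩,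
    ⟨beq_of e10, beq_of e20, beq_of e30, beq_of e21, beq_of e31, beq_of e32⟩,
    ⟨beq_of (nall_true e00 0 (by norm_num)), beq_of (nall_true e00 1 (by norm_num)),
     beq_of (nall_true e00 2 (by norm_num)), beq_of (nall_true e00 3 (by norm_num))⟩⟩

theorem key4 {r : Fin 5 → Fin 5 → ℕ} (h : Str r) {g : ℕ}
    (he : ext4 (r 0 1) (r 0 2) (r 0 3) (r 1 2) (r 1 3) (r 2 3) = true)
    (hg : g = pat4 (r 0 1) (r 0 2) (r 0 3) (r 1 2) (r 1 3) (r 2 3)) (i j : Fin 5)
    (hi : i.val < 4) (hj : j.val < 4) : rl g i j = r i j := by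
  obtain ⟨⟨f01, f02, f03, f12, f13, f23⟩, ⟨e10, e20, e30, e21, e31, e32⟩, ⟨d0, d1, d2, d3⟩⟩ :=
    ext4_get he hg
  have f10 := e10.trans (h.inv 0 1).symm
  have f20 := e20.trans (h.inv 0 2).symm
  have f30 := e30.trans (h.inv 0 3).symm
  have f21 := e21.trans (h.inv 1 2).symm
  have f31 := e31.trans (h.inv 1 3).symm
  have f32 := e32.trans (h.inv 2 3).symm
  have f00 := d0.trans (h.diag 0).symm
  have f11 := d1.trans (h.diag 1).symm
  have f22 := d2.trans (h.diag 2).symm
  have f33 := d3.trans (h.diag 3).symm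
  fin_cases i
  · fin_cases j
    · exact f00
    · exact f01
    · exact f02
    · exact f03
    · simp at hj
  · fin_cases j
    · exact f10
    · exact f11
    · exact f12
    · exact f13
    · simp at hj
  · fin_cases j
    · exact f20
    · exact f21
    · exact f22
    · exact f23
    · simp at hj
  · fin_cases j
    · exact f30
    · exact f31
    · exact f32
    · exact f33
    · simp at hj
  · simp at hi

theorem cyc4_false {r : Fin 5 → Fin 5 → ℕ} (h : Str r) {g : ℕ}
    (key : ∀ i j : Fin 5, i.val < 4 → j.val < 4 → rl g i j = r i j) : cyc4 g = false := by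
  have f : ∀ a b c d : Fin 5, a.val < 4 → b.val < 4 → c.val < 4 → d.val < 4 → cyc g a b c d = false :=
    fun a b c d ha hb hc hd => cyc_false h (key a b ha hb) (key b c hb hc) (key c d hc hd)
      (key d a hd ha) (key a c ha hc) (key b d hb hd)
  have c1 : cyc g 0 1 2 3 = false := f 0 1 2 3 (by decide) (by decide) (by decide) (by decide)
  have c2 : cyc g 0 1 3 2 = false := f 0 1 3 2 (by decide) (by decide) (by decide) (by decide)
  have c3 : cyc g 0 2 1 3 = false := f 0 2 1 3 (by decide) (by decide) (by decide) (by decide)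
  have c4 : cyc g 0 2 3 1 = false := f 0 2 3 1 (by decide) (by decide) (by decide) (by decide)
  have c5 : cyc g 0 3 1 2 = false := f 0 3 1 2 (by decide) (by decide) (by decide) (by decide)
  have c6 : cyc g 0 3 2 1 = false := f 0 3 2 1 (by decide) (by decide) (by decide) (by decide)
  unfold cyc4
  rw [c1, c2, c3, c4, c5, c6]
  rfl

theorem tst_get {c p h n : ℕ} (ht : tst c p h n = true) {i j : ℕ} (hi : i < n) (hj : j < n) :
    rl c (pm p i) (pm p j) = rl h i j := beq_of (nall_true (nall_true ht i hi) j hj)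

/-- first stage: the first four points -/
theorem stage1 {r : Fin 5 → Fin 5 → ℕ} (h : Str r) :
    ∃ p, p < 120 ∧ ∃ k, k < 41 ∧ ∀ i j : Fin 5, i.val < 4 → j.val < 4 →
      r (pf p i) (pf p j) = rl (h4 k) i j := by
  have hk := chk4_get (all4_get (h.lt 0 1) (h.lt 0 2) (h.lt 0 3) (h.lt 1 2) (h.lt 1 3) (h.lt 2 3))
  obtain ⟨he, hk⟩ := hk
  generalize hg : pat4 (r 0 1) (r 0 2) (r 0 3) (r 1 2) (r 1 3) (r 2 3) = g at hk
  have key := key4 h he hg.symm
  have hcyc := cyc4_false h key
  rw [hcyc] at hk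
  rcases hk with hk | ⟨p, k, hp, hk4, hpm, ht⟩
  · exact absurd hk (by decide)
  refine ⟨p, hp, k, hk4, ?_⟩
  intro i j hi hj
  have h2 := tst_get ht hi hj
  rw [← h2]
  have hlt : ∀ i : Fin 5, i.val < 4 → (pf p i).val < 4 := by
    intro i hi
    have h5 := (pf p i).isLt
    by_contra hcon
    have h6 : (pf p i).val = 4 := by omega
    have h7 : (pf p 4).val = 4 := by
      rw [pf_val hp]; exact hpm
    have h8 := pf_injective hp (Fin.ext (h6.trans h7.symm))
    rw [h8] at hi
    exact absurd hi (by decide)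
  rw [← pf_val hp, ← pf_val hp, key _ _ (hlt i hi) (hlt j hj)]

theorem ext5_get {h e0 e1 e2 e3 : ℕ} {g : ℕ} (he : ext5 h e0 e1 e2 e3 = true)
    (hg : g = pat5 h e0 e1 e2 e3) :
    (∀ i j, i < 4 → j < 4 → rl g i j = rl h i j) ∧
    (rl g 0 4 = e0 ∧ rl g 1 4 = e1 ∧ rl g 2 4 = e2 ∧ rl g 3 4 = e3) ∧
    (rl g 4 0 = inv3 e0 ∧ rl g 4 1 = inv3 e1 ∧ rl g 4 2 = inv3 e2 ∧ rl g 4 3 = inv3 e3) ∧
      rl g 4 4 = 0 := by
  subst hg
  unfold ext5 at he
  simp only [Bool.and_eq_true] at he
  obtain ⟨e44, e04, e14, e24, e34, e40, e41, e42, e43, e00⟩ := he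
  exact ⟨fun i j hi hj => beq_of (nall_true (nall_true e44 i hi) j hj),
    ⟨beq_of e04, beq_of e14, beq_of e24, beq_of e34⟩,
    ⟨beq_of e40, beq_of e41, beq_of e42, beq_of e43⟩, beq_of e00⟩

/-- both stages -/
theorem exists_rep {r : Fin 5 → Fin 5 → ℕ} (h : Str r) :
    ∃ s : Fin 5 → Fin 5, Function.Injective s ∧ ∃ k, k < 559 ∧ ∀ i j : Fin 5,
      r (s i) (s j) = rl (h5 k) i j := by
  obtain ⟨p, hp, k, hk, hr⟩ := stage1 h
  have hs := h.comp (pf p)
  generalize hq : (fun i j => r (pf p i) (pf p j)) = q at hs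
  have hqv : ∀ i j, q i j = r (pf p i) (pf p j) := by intro i j; rw [← hq]
  have hc := chk5_get (all5_get hk (hs.lt 0 4) (hs.lt 1 4) (hs.lt 2 4) (hs.lt 3 4))
  obtain ⟨he, hc⟩ := hc
  generalize hg : pat5 (h4 k) (q 0 4) (q 1 4) (q 2 4) (q 3 4) = g at hc
  obtain ⟨g44, ⟨f04, f14, f24, f34⟩, ⟨e40, e41, e42, e43⟩, e00⟩ := ext5_get he hg.symm
  have f40 := e40.trans (hs.inv 0 4).symm
  have f41 := e41.trans (hs.inv 1 4).symm
  have f42 := e42.trans (hs.inv 2 4).symm
  have f43 := e43.trans (hs.inv 3 4).symm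
  have f44 := e00.trans (hs.diag 4).symm
  have key : ∀ i j : Fin 5, rl g i j = q i j := by
    intro i j
    by_cases hi : i.val < 4
    · by_cases hj : j.val < 4
      · rw [g44 i j hi hj, hqv]
        exact (hr i j hi hj).symm
      · have hj4 : j = 4 := by
          apply Fin.ext
          have := j.isLt
          show j.val = 4
          omega
        subst hj4
        fin_cases i
        · exact f04
        · exact f14
        · exact f24
        · exact f34
        · simp at hi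
    · have hi4 : i = 4 := by
        apply Fin.ext
        have := i.isLt
        show i.val = 4
        omega
      subst hi4
      fin_cases j
      · exact f40
      · exact f41
      · exact f42
      · exact f43
      · exact f44
  have hcyc : cyc5 g = false := by
    unfold cyc5
    refine nany_false fun b hb => nany_false fun c hc => nany_false fun d hd => ?_
    exact cyc_false hs (g := g) (a := 4) (b := ⟨b, by omega⟩) (c := ⟨c, by omega⟩) (d := ⟨d, by omega⟩)
      (key _ _) (key _ _) (key _ _) (key _ _) (key _ _) (key _ _)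
  rw [hcyc] at hc
  rcases hc with hc | ⟨p2, m, hp2, hm, ht⟩
  · exact absurd hc (by decide)
  refine ⟨fun i => pf p (pf p2 i), (pf_injective hp).comp (pf_injective hp2), m, hm, ?_⟩
  intro i j
  have h2 := tst_get ht i.isLt j.isLt
  rw [← h2, ← pf_val hp2, ← pf_val hp2, key, hqv]

end Pool.Agent.L0h25.FDF
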