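import Pool.Agent.L0h25.FDF.Sym

/-! The inequality given by the certificate. -/

set_option autoImplicit false
set_option maxRecDepth 100000
set_option maxHeartbeats 4000000

open Finset

namespace Pool.Agent.L0h25.FDF

theorem expand_sq (s : Finset ℕ) (u v : ℕ → ℤ) (B : ℤ) :
    ∑ k ∈ s, (u k - B) * (v k - B) =
      ∑ k ∈ s, u k * v k + B ^ 2 * (s.card : ℤ) - B * ∑ k ∈ s, (u k + v k) := by
  have h : ∀ k ∈ s, (u k - B) * (v k - B) = u k * v k + B ^ 2 - B * (u k + v k) :=
    fun k _ => by ring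
  rw [Finset.sum_congr rfl h, Finset.sum_sub_distrib, Finset.sum_add_distrib, Finset.sum_const,
    Finset.mul_sum, nsmul_eq_mul]
  ring

theorem q3_gram {s a b : ℕ} (hs : s < 7) (ha : a < 27) (hb : b < 27) :
    ((fld (QTf s) 40 (Nat.add (Nat.mul 27 a) b) : ℕ) : ℤ) - 549755813888 =
      ∑ k ∈ range 27, ((lv s a k : ℤ) - 524288) * ((lv s b k : ℤ) - 524288) := by
  have h := beq_of (nall_true (nall_true (nall_true psd3_ok s hs) a ha) b hb)
  rw [nsum_eq, nsum_eq] at h
  have h2 := congrArg (fun n : ℕ => (n : ℤ)) h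
  simp only [Nat.add_eq, Nat.mul_eq] at h2
  push_cast at h2
  rw [expand_sq (range 27) (fun k => (lv s a k : ℤ)) (fun k => (lv s b k : ℤ)) 524288]
  simp only [card_range]
  simp only [Nat.add_eq, Nat.mul_eq]
  push_cast
  linarith

theorem q1_gram {a b : ℕ} (ha : a < 15) (hb : b < 15) :
    ((fld Q1T 40 (Nat.add (Nat.mul 15 a) b) : ℕ) : ℤ) - 549755813888 =
      ∑ k ∈ range 15, ((lu a k : ℤ) - 524288) * ((lu b k : ℤ) - 524288) := by
  have h := beq_of (nall_true (nall_true psd1_ok a ha) b hb)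
  rw [nsum_eq, nsum_eq] at h
  have h2 := congrArg (fun n : ℕ => (n : ℤ)) h
  simp only [Nat.add_eq, Nat.mul_eq] at h2
  push_cast at h2
  rw [expand_sq (range 15) (fun k => (lu a k : ℤ)) (fun k => (lu b k : ℤ)) 524288]
  simp only [card_range]
  simp only [Nat.add_eq, Nat.mul_eq]
  push_cast
  linarith

theorem tit_rng : (nall 27 fun t => Nat.ble (Nat.succ (fld TIT 3 t)) 8) = true := by decide +kernel
theorem imt_rng : (nall 27 fun t => Nat.ble (Nat.succ (fld IMT 4 t)) 15) = true := by decide +kernel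

theorem tc_lt {a b c : ℕ} (ha : a < 3) (hb : b < 3) (hc : c < 3) : tc a b c < 27 := by
  unfold tc
  simp only [Nat.add_eq, Nat.mul_eq]
  omega

section
variable {V : Type} [Fintype V]

theorem sum_fin_succ {M : Type} [AddCommMonoid M] {n : ℕ} (G : (Fin (n + 1) → V) → M) :
    ∑ v : Fin (n + 1) → V, G v = ∑ a : V, ∑ w : Fin n → V, G (Fin.cons a w) := by
  rw [← Fintype.sum_prod_type']
  exact (Equiv.sum_comp (Fin.consEquiv fun _ => V) G).symm

theorem sum5 {M : Type} [AddCommMonoid M] (G : (Fin 5 → V) → M) :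
    ∑ v : Fin 5 → V, G v = ∑ a, ∑ b, ∑ c, ∑ d, ∑ e, G ![a, b, c, d, e] := by
  rw [sum_fin_succ]
  refine Finset.sum_congr rfl fun a _ => ?_
  rw [sum_fin_succ]
  refine Finset.sum_congr rfl fun b _ => ?_
  rw [sum_fin_succ]
  refine Finset.sum_congr rfl fun c _ => ?_
  rw [sum_fin_succ]
  refine Finset.sum_congr rfl fun d _ => ?_
  rw [sum_fin_succ]
  refine Finset.sum_congr rfl fun e _ => ?_
  rw [Fintype.sum_unique]
  congr 1

theorem E5_eq (x : V → ℝ) (f : (Fin 5 → V) → ℝ) :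
    E5 x f = ∑ a, ∑ b, ∑ c, ∑ d, ∑ e, x a * x b * x c * x d * x e * f ![a, b, c, d, e] := by
  unfold E5
  rw [sum5]
  simp only [Fin.prod_univ_five]
  rfl

/-- a Gram sum is nonnegative -/
theorem gram_sum (x : V → ℝ) (n : ℕ) (u : V → ℕ → ℝ) :
    ∑ d, ∑ e, x d * x e * ∑ k ∈ range n, u d k * u e k = ∑ k ∈ range n, (∑ d, x d * u d k) ^ 2 := by
  have h1 : ∀ k ∈ range n, (∑ d, x d * u d k) ^ 2 = ∑ d, ∑ e, x d * x e * (u d k * u e k) := by
    intro k _
    rw [sq, Finset.sum_mul_sum]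
    exact Finset.sum_congr rfl fun d _ => Finset.sum_congr rfl fun e _ => by ring
  rw [Finset.sum_congr rfl h1, Finset.sum_comm (s := range n)]
  refine Finset.sum_congr rfl fun d _ => ?_
  rw [Finset.sum_comm (s := range n)]
  refine Finset.sum_congr rfl fun e _ => ?_
  rw [Finset.mul_sum]

/-- the part of the certificate for types of size three is nonnegative -/
theorem q3_nonneg (x : V → ℝ) (hx : ∀ v, 0 ≤ x v) (c : V → V → ℕ) (hlt : ∀ u v, c u v < 3) :
    0 ≤ ∑ a, ∑ b, ∑ g, ∑ d, ∑ e, x a * x b * x g * x d * x e *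
      ((q3 (tc (c a b) (c a g) (c b g)) (tc (c d a) (c d b) (c d g)) (tc (c e a) (c e b) (c e g)) : ℝ)
        - 549755813888) := by
  refine Finset.sum_nonneg fun a _ => Finset.sum_nonneg fun b _ => Finset.sum_nonneg fun g _ => ?_
  have ht : tc (c a b) (c a g) (c b g) < 27 := tc_lt (hlt _ _) (hlt _ _) (hlt _ _)
  have hs8 := lt_of_ble (nall_true tit_rng _ ht)
  generalize tc (c a b) (c a g) (c b g) = t at *
  by_cases h7 : Nat.beq (fld TIT 3 t) 7 = true
  · unfold q3
    rw [h7]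
    simp
  · have hs7 : fld TIT 3 t < 7 := by
      rcases Nat.lt_succ_iff_lt_or_eq.mp hs8 with h | h
      · exact h
      · exact absurd (by rw [h]; rfl) h7
    have h7' : Nat.beq (fld TIT 3 t) 7 = false := Bool.eq_false_iff.mpr h7
    have hq : ∀ d e, (q3 t (tc (c d a) (c d b) (c d g)) (tc (c e a) (c e b) (c e g)) : ℝ) - 549755813888 =
        ∑ k ∈ range 27, ((lv (fld TIT 3 t) (tc (c d a) (c d b) (c d g)) k : ℝ) - 524288) *
          ((lv (fld TIT 3 t) (tc (c e a) (c e b) (c e g)) k : ℝ) - 524288) := by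
      intro d e
      have h := q3_gram hs7 (tc_lt (hlt d a) (hlt d b) (hlt d g)) (tc_lt (hlt e a) (hlt e b) (hlt e g))
      unfold q3
      rw [h7', cond_false]
      exact_mod_cast h
    have hsum : ∑ d, ∑ e, x a * x b * x g * x d * x e *
        ((q3 t (tc (c d a) (c d b) (c d g)) (tc (c e a) (c e b) (c e g)) : ℝ) - 549755813888) =
        x a * x b * x g * ∑ k ∈ range 27,
          (∑ d, x d * ((lv (fld TIT 3 t) (tc (c d a) (c d b) (c d g)) k : ℝ) - 524288)) ^ 2 := by
      rw [← gram_sum x 27 fun d k => (lv (fld TIT 3 t) (tc (c d a) (c d b) (c d g)) k : ℝ) - 524288,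
        Finset.mul_sum]
      refine Finset.sum_congr rfl fun d _ => ?_
      rw [Finset.mul_sum]
      refine Finset.sum_congr rfl fun e _ => ?_
      rw [hq]
      ring
    rw [hsum]
    exact mul_nonneg (mul_nonneg (mul_nonneg (hx _) (hx _)) (hx _))
      (Finset.sum_nonneg fun k _ => sq_nonneg _)

/-- the part of the certificate for the type of size one is nonnegative -/
theorem q1_nonneg (x : V → ℝ) (hx : ∀ v, 0 ≤ x v) (c : V → V → ℕ) (hlt : ∀ u v, c u v < 3) :
    0 ≤ ∑ a, ∑ b, ∑ g, ∑ d, ∑ e, x a * x b * x g * x d * x e *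
      ((q1 (tc (c a b) (c a g) (c b g)) (tc (c a d) (c a e) (c d e)) : ℝ) - 549755813888) := by
  refine Finset.sum_nonneg fun a _ => ?_
  have hq : ∀ b g d e, (q1 (tc (c a b) (c a g) (c b g)) (tc (c a d) (c a e) (c d e)) : ℝ) - 549755813888 =
      ∑ k ∈ range 15, ((lu (fld IMT 4 (tc (c a b) (c a g) (c b g))) k : ℝ) - 524288) *
        ((lu (fld IMT 4 (tc (c a d) (c a e) (c d e))) k : ℝ) - 524288) := by
    intro b g d e
    have h := q1_gram (lt_of_ble (nall_true imt_rng _ (tc_lt (hlt a b) (hlt a g) (hlt b g))))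
      (lt_of_ble (nall_true imt_rng _ (tc_lt (hlt a d) (hlt a e) (hlt d e))))
    unfold q1
    exact_mod_cast h
  have hsum : ∑ b, ∑ g, ∑ d, ∑ e, x a * x b * x g * x d * x e *
      ((q1 (tc (c a b) (c a g) (c b g)) (tc (c a d) (c a e) (c d e)) : ℝ) - 549755813888) =
      x a * ∑ k ∈ range 15, (∑ p : V × V, (x p.1 * x p.2) *
        ((lu (fld IMT 4 (tc (c a p.1) (c a p.2) (c p.1 p.2))) k : ℝ) - 524288)) ^ 2 := by
    rw [← gram_sum (fun p : V × V => x p.1 * x p.2) 15
      fun p k => (lu (fld IMT 4 (tc (c a p.1) (c a p.2) (c p.1 p.2))) k : ℝ) - 524288,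
      Fintype.sum_prod_type, Finset.mul_sum]
    refine Finset.sum_congr rfl fun b _ => ?_
    rw [Finset.mul_sum]
    refine Finset.sum_congr rfl fun g _ => ?_
    rw [Fintype.sum_prod_type, Finset.mul_sum]
    refine Finset.sum_congr rfl fun d _ => ?_
    rw [Finset.mul_sum]
    refine Finset.sum_congr rfl fun e _ => ?_
    rw [hq]
    ring
  rw [hsum]
  exact mul_nonneg (hx _) (Finset.sum_nonneg fun k _ => sq_nonneg _)

end

end Pool.Agent.L0h25.FDF
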