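import Pool.Agent.L0h25.FDF.Sdp

/-! The inequality given by the certificate, in terms of sums over vertices. -/

set_option autoImplicit false
set_option maxRecDepth 100000
set_option maxHeartbeats 4000000

open Finset

namespace Pool.Agent.L0h25.FDF

/-- `1` if the relation is an outgoing arc -/
def ia (r : ℕ) : ℕ := cond (Nat.beq r 1) 1 0

theorem ev_eq (r : Fin 5 → Fin 5 → ℕ) : ((ev r : ℤ) : ℝ) =
    (MM : ℝ) * (9 * (fld FTT 1 (tc (r 0 1) (r 0 2) (r 1 2)) : ℝ) - 4)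
    - (KK : ℝ) * (ia (r 0 1) : ℝ) * (244 - 375 * (adj (r 2 3) : ℝ) +
        1125 * (bd (cl (r 0 2) (r 1 2)) (cl (r 0 3) (r 1 3)) (r 2 3) : ℝ))
    - ((q3 (tc (r 0 1) (r 0 2) (r 1 2)) (tc (r 3 0) (r 3 1) (r 3 2)) (tc (r 4 0) (r 4 1) (r 4 2)) : ℝ)
        - 549755813888)
    - ((q1 (tc (r 0 1) (r 0 2) (r 1 2)) (tc (r 0 3) (r 0 4) (r 3 4)) : ℝ) - 549755813888) := by
  unfold ev pos neg ia
  cases h : Nat.beq (r 0 1) 1
  · simp only [cond_false, Nat.add_eq, Nat.mul_eq]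
    push_cast
    ring
  · simp only [cond_true, Nat.add_eq, Nat.mul_eq]
    push_cast
    ring

section
variable {V : Type} [Fintype V] (x : V → ℝ) (c : V → V → ℕ)

/-- the density of the edges of the 3-graph -/
noncomputable def pp : ℝ := ∑ a, ∑ b, ∑ g, x a * x b * x g * (fld FTT 1 (tc (c a b) (c a g) (c b g)) : ℝ)

/-- the density of adjacent pairs -/
noncomputable def ee : ℝ := ∑ a, ∑ b, x a * x b * (adj (c a b) : ℝ)

/-- the density of bad pairs for a class function -/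
noncomputable def BB (k : V → ℕ) : ℝ := ∑ a, ∑ b, x a * x b * (bd (k a) (k b) (c a b) : ℝ)

variable {x c}

theorem sum_last (hx1 : ∑ v, x v = 1) (g : ℝ) : ∑ e, x e * g = g := by
  rw [← Finset.sum_mul, hx1, one_mul]

theorem sdp (hx : ∀ v, 0 ≤ x v) (hx1 : ∑ v, x v = 1) (hlt : ∀ u v, c u v < 3)
    (hinv : ∀ u v, c v u = inv3 (c u v))
    (hfree : ∀ a b d e, ¬ (c a b = 1 ∧ c b d = 1 ∧ c d e = 1 ∧ c e a = 1 ∧ c a d = 0 ∧ c b e = 0)) :
    (KK : ℝ) * ∑ a, ∑ b, x a * x b * (ia (c a b) : ℝ) *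
      (244 - 375 * ee x c + 1125 * BB x c (fun w => cl (c a w) (c b w))) ≤
        (MM : ℝ) * (9 * pp x c - 4) := by
  have h := E5_ev x hx c hlt hinv hfree
  rw [E5_eq] at h
  have h3 := q3_nonneg x hx c hlt
  have h1 := q1_nonneg x hx c hlt
  have hs : ∑ a, ∑ b, ∑ g, ∑ d, ∑ e, x a * x b * x g * x d * x e *
      ((ev fun i j => c ((![a, b, g, d, e] : Fin 5 → V) i) ((![a, b, g, d, e] : Fin 5 → V) j) : ℤ) : ℝ) =
      (∑ a, ∑ b, ∑ g, ∑ d, ∑ e, x a * x b * x g * x d * x e * ((MM : ℝ) *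
        (9 * (fld FTT 1 (tc (c a b) (c a g) (c b g)) : ℝ) - 4))) -
      (∑ a, ∑ b, ∑ g, ∑ d, ∑ e, x a * x b * x g * x d * x e * ((KK : ℝ) * (ia (c a b) : ℝ) *
        (244 - 375 * (adj (c g d) : ℝ) + 1125 * (bd (cl (c a g) (c b g)) (cl (c a d) (c b d)) (c g d) : ℝ)))) -
      (∑ a, ∑ b, ∑ g, ∑ d, ∑ e, x a * x b * x g * x d * x e *
        ((q3 (tc (c a b) (c a g) (c b g)) (tc (c d a) (c d b) (c d g)) (tc (c e a) (c e b) (c e g)) : ℝ)
          - 549755813888)) -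
      (∑ a, ∑ b, ∑ g, ∑ d, ∑ e, x a * x b * x g * x d * x e *
        ((q1 (tc (c a b) (c a g) (c b g)) (tc (c a d) (c a e) (c d e)) : ℝ) - 549755813888)) := by
    simp only [← Finset.sum_sub_distrib]
    refine Finset.sum_congr rfl fun a _ => Finset.sum_congr rfl fun b _ => Finset.sum_congr rfl fun g _ =>
      Finset.sum_congr rfl fun d _ => Finset.sum_congr rfl fun e _ => ?_
    rw [ev_eq]
    have e0 : (![a, b, g, d, e] : Fin 5 → V) 0 = a := rfl
    have e1 : (![a, b, g, d, e] : Fin 5 → V) 1 = b := rfl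
    have e2 : (![a, b, g, d, e] : Fin 5 → V) 2 = g := rfl
    have e3 : (![a, b, g, d, e] : Fin 5 → V) 3 = d := rfl
    have e4 : (![a, b, g, d, e] : Fin 5 → V) 4 = e := rfl
    rw [e0, e1, e2, e3, e4]
    ring
  rw [hs] at h
  have k1 : ∑ a, ∑ b, ∑ g, ∑ d, ∑ e, x a * x b * x g * x d * x e * ((MM : ℝ) *
        (9 * (fld FTT 1 (tc (c a b) (c a g) (c b g)) : ℝ) - 4)) = (MM : ℝ) * (9 * pp x c - 4) := by
    have s1 : ∀ a b g, ∑ d, ∑ e, x a * x b * x g * x d * x e * ((MM : ℝ) *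
        (9 * (fld FTT 1 (tc (c a b) (c a g) (c b g)) : ℝ) - 4)) = x a * x b * x g * ((MM : ℝ) *
        (9 * (fld FTT 1 (tc (c a b) (c a g) (c b g)) : ℝ) - 4)) := by
      intro a b g
      have t1 : ∀ d, ∑ e, x a * x b * x g * x d * x e * ((MM : ℝ) *
        (9 * (fld FTT 1 (tc (c a b) (c a g) (c b g)) : ℝ) - 4)) = x d * (x a * x b * x g * ((MM : ℝ) *
        (9 * (fld FTT 1 (tc (c a b) (c a g) (c b g)) : ℝ) - 4))) := by
        intro d
        rw [← sum_last hx1 (x d * (x a * x b * x g * ((MM : ℝ) *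
          (9 * (fld FTT 1 (tc (c a b) (c a g) (c b g)) : ℝ) - 4))))]
        exact Finset.sum_congr rfl fun e _ => by ring
      simp only [t1]
      exact sum_last hx1 _
    simp only [s1]
    have s2 : ∑ a, ∑ b, ∑ g, x a * x b * x g * ((MM : ℝ) *
        (9 * (fld FTT 1 (tc (c a b) (c a g) (c b g)) : ℝ) - 4)) =
        (MM : ℝ) * (9 * pp x c) - (MM : ℝ) * 4 * ∑ a, ∑ b, ∑ g, x a * x b * x g := by
      unfold pp
      simp only [Finset.mul_sum, ← Finset.sum_sub_distrib]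
      exact Finset.sum_congr rfl fun a _ => Finset.sum_congr rfl fun b _ =>
        Finset.sum_congr rfl fun g _ => by ring
    rw [s2]
    have s3 : ∑ a, ∑ b, ∑ g, x a * x b * x g = 1 := by
      have : ∀ a b, ∑ g, x a * x b * x g = x b * x a := by
        intro a b; rw [← Finset.mul_sum, hx1]; ring
      simp only [this]
      have : ∀ a, ∑ b, x b * x a = x a := fun a => sum_last hx1 _
      simp only [this]
      exact hx1
    rw [s3]
    ring
  have k2 : ∑ a, ∑ b, ∑ g, ∑ d, ∑ e, x a * x b * x g * x d * x e * ((KK : ℝ) * (ia (c a b) : ℝ) *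
        (244 - 375 * (adj (c g d) : ℝ) + 1125 * (bd (cl (c a g) (c b g)) (cl (c a d) (c b d)) (c g d) : ℝ))) =
      (KK : ℝ) * ∑ a, ∑ b, x a * x b * (ia (c a b) : ℝ) *
      (244 - 375 * ee x c + 1125 * BB x c (fun w => cl (c a w) (c b w))) := by
    rw [Finset.mul_sum]
    refine Finset.sum_congr rfl fun a _ => ?_
    rw [Finset.mul_sum]
    refine Finset.sum_congr rfl fun b _ => ?_
    have s1 : ∀ g d, ∑ e, x a * x b * x g * x d * x e * ((KK : ℝ) * (ia (c a b) : ℝ) *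
        (244 - 375 * (adj (c g d) : ℝ) + 1125 * (bd (cl (c a g) (c b g)) (cl (c a d) (c b d)) (c g d) : ℝ))) =
        x a * x b * x g * x d * ((KK : ℝ) * (ia (c a b) : ℝ) *
        (244 - 375 * (adj (c g d) : ℝ) + 1125 * (bd (cl (c a g) (c b g)) (cl (c a d) (c b d)) (c g d) : ℝ))) := by
      intro g d
      rw [← sum_last hx1 (x a * x b * x g * x d * ((KK : ℝ) * (ia (c a b) : ℝ) *
        (244 - 375 * (adj (c g d) : ℝ) + 1125 * (bd (cl (c a g) (c b g)) (cl (c a d) (c b d)) (c g d) : ℝ))))]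
      exact Finset.sum_congr rfl fun e _ => by ring
    simp only [s1]
    have s2 : ∑ g, ∑ d, x g * x d = 1 := by
      have : ∀ g, ∑ d, x g * x d = x g := by intro g; rw [← Finset.mul_sum, hx1, mul_one]
      simp only [this]
      exact hx1
    have s3 : 244 - 375 * ee x c + 1125 * BB x c (fun w => cl (c a w) (c b w)) =
        ∑ g, ∑ d, (244 * (x g * x d) - 375 * (x g * x d * (adj (c g d) : ℝ)) +
          1125 * (x g * x d * (bd (cl (c a g) (c b g)) (cl (c a d) (c b d)) (c g d) : ℝ))) := by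
      unfold ee BB
      simp only [Finset.sum_add_distrib, Finset.sum_sub_distrib, ← Finset.mul_sum, hx1, mul_one]
    rw [s3]
    simp only [Finset.mul_sum]
    exact Finset.sum_congr rfl fun g _ => Finset.sum_congr rfl fun d _ => by ring
  rw [k1, k2] at h
  linarith

/-- closeness: a structure with small density has a good partition -/
theorem close (hx : ∀ v, 0 ≤ x v) (hx1 : ∑ v, x v = 1) (hlt : ∀ u v, c u v < 3)
    (hinv : ∀ u v, c v u = inv3 (c u v))
    (hfree : ∀ a b d e, ¬ (c a b = 1 ∧ c b d = 1 ∧ c d e = 1 ∧ c e a = 1 ∧ c a d = 0 ∧ c b e = 0))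
    (hp : pp x c < 4 / 9) :
    ∃ k : V → ℕ, (∀ v, k v < 3) ∧ 244 - 375 * ee x c + 1125 * BB x c k < 0 := by
  by_contra hcon
  push Not at hcon
  have h := sdp hx hx1 hlt hinv hfree
  have hM : (0 : ℝ) < (MM : ℝ) := by
    have : MM = 241788467 := rfl
    rw [this]; norm_num
  have h1 : (0 : ℝ) ≤ (KK : ℝ) * ∑ a, ∑ b, x a * x b * (ia (c a b) : ℝ) *
      (244 - 375 * ee x c + 1125 * BB x c (fun w => cl (c a w) (c b w))) := by
    refine mul_nonneg (Nat.cast_nonneg _) (Finset.sum_nonneg fun a _ => Finset.sum_nonneg fun b _ => ?_)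
    refine mul_nonneg (mul_nonneg (mul_nonneg (hx a) (hx b)) (Nat.cast_nonneg _)) ?_
    refine hcon _ fun w => ?_
    unfold cl
    cases Nat.beq (c a w) 0 <;> cases Nat.beq (c b w) 0 <;> simp
  have h2 : (MM : ℝ) * (9 * pp x c - 4) < 0 := by
    refine mul_neg_of_pos_of_neg hM ?_
    linarith
  linarith

end

end Pool.Agent.L0h25.FDF
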