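import Pool.Agent.L0h25.FDF.Rep
import Pool.Agent.L0h25.FDF.ChkB

/-! Symmetrisation over the permutations of five points. -/

set_option autoImplicit false
set_option maxRecDepth 100000
set_option maxHeartbeats 4000000

open Finset

namespace Pool.Agent.L0h25.FDF

theorem nany_true {n : ℕ} {f : ℕ → Bool} (h : nany n f = true) : ∃ k, k < n ∧ f k = true := by
  by_contra hc
  push Not at hc
  have : nany n f = false := nany_false fun k hk => by
    have := hc k hk
    simpa using this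
  rw [this] at h
  exact absurd h (by decide)

theorem pm_dist : (nall 120 fun k => nall 120 fun l =>
    or (Nat.beq k l) (nany 5 fun i => not (Nat.beq (pm k i) (pm l i)))) = true := by
  decide +kernel

/-- the listed permutations -/
noncomputable def pe (k : Fin 120) : Equiv.Perm (Fin 5) :=
  Equiv.ofBijective (pf k) (Finite.injective_iff_bijective.mp (pf_injective k.isLt))

theorem pe_apply (k : Fin 120) (i : Fin 5) : pe k i = pf k i := rfl

theorem pe_injective : Function.Injective pe := by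
  intro k l hkl
  have h := nall_true (nall_true pm_dist k k.isLt) l l.isLt
  rw [Bool.or_eq_true] at h
  rcases h with h | h
  · exact Fin.ext (beq_of h)
  · obtain ⟨i, hi, h⟩ := nany_true h
    exfalso
    have h1 : pf k ⟨i, hi⟩ = pf l ⟨i, hi⟩ := by
      rw [← pe_apply, ← pe_apply, hkl]
    have h2 : pm k i = pm l i := by
      have a1 := pf_val k.isLt ⟨i, hi⟩
      have a2 := pf_val l.isLt ⟨i, hi⟩
      rw [h1] at a1
      exact a1.symm.trans a2
    rw [h2] at h
    have h3 : Nat.beq (pm l i) (pm l i) = true := Nat.beq_refl _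
    rw [h3] at h
    exact absurd h (by decide)

theorem pe_bijective : Function.Bijective pe := by
  rw [Fintype.bijective_iff_injective_and_card]
  refine ⟨pe_injective, ?_⟩
  rw [Fintype.card_perm, Fintype.card_fin, Fintype.card_fin]
  rfl

theorem sum_perm {M : Type} [AddCommMonoid M] (g : (Fin 5 → Fin 5) → M) :
    ∑ s : Equiv.Perm (Fin 5), g s = ∑ k : Fin 120, g (pf k) := by
  rw [← (Equiv.ofBijective pe pe_bijective).sum_comp]
  rfl

/-- the value of the certificate on a structure with a fixed order of the points -/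
def ev (r : Fin 5 → Fin 5 → ℕ) : ℤ :=
  (pos (r 0 1) (r 0 2) (r 1 2) (r 2 3) : ℤ)
    - (neg (r 0 1) (r 0 2) (r 1 2) (r 0 3) (r 1 3) (r 2 3) (r 0 4) (r 3 4) (r 3 0) (r 3 1) (r 3 2)
      (r 4 0) (r 4 1) (r 4 2) : ℤ) + 1099511627776

theorem leaf_sum {m : ℕ} (hm : m < 559) :
    0 ≤ ∑ k : Fin 120, ev fun i j => rl (h5 m) (pf k i) (pf k j) := by
  have h := nall_true leaf_ok m hm
  unfold leafOK at h
  have h := Nat.le_of_ble_eq_true h
  rw [nsum_eq, nsum_eq] at h
  have h1 : ∀ k : Fin 120, (ev fun i j => rl (h5 m) (pf k i) (pf k j)) =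
      (posr (fun i j => rl (h5 m) (pm k i) (pm k j)) : ℤ) -
        (negr (fun i j => rl (h5 m) (pm k i) (pm k j)) : ℤ) + 1099511627776 := by
    intro k
    have hv : ∀ i : Fin 5, ((pf k i : Fin 5) : ℕ) = pm k i := fun i => pf_val k.isLt i
    unfold ev
    simp only [hv]
    rfl
  rw [Finset.sum_congr rfl fun k _ => h1 k]
  rw [Finset.sum_add_distrib, Finset.sum_sub_distrib]
  rw [Fin.sum_univ_eq_sum_range (fun k => (posr (fun i j => rl (h5 m) (pm k i) (pm k j)) : ℤ)) 120,
    Fin.sum_univ_eq_sum_range (fun k => (negr (fun i j => rl (h5 m) (pm k i) (pm k j)) : ℤ)) 120]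
  have h2 := (Int.ofNat_le.mpr h)
  simp only [Nat.add_eq] at h2
  push_cast at h2
  simp only [sum_const, card_univ, Fintype.card_fin]
  have h3 : (120 : ℕ) • (1099511627776 : ℤ) = 131941395333120 := by norm_num
  rw [h3]
  linarith

section
variable {V : Type} [Fintype V]

/-- the sum over all five-tuples with product weights -/
noncomputable def E5 (x : V → ℝ) (f : (Fin 5 → V) → ℝ) : ℝ := ∑ v : Fin 5 → V, (∏ i, x (v i)) * f v

theorem E5_comp (x : V → ℝ) (f : (Fin 5 → V) → ℝ) (s : Equiv.Perm (Fin 5)) :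
    E5 x (fun v => f (v ∘ s)) = E5 x f := by
  unfold E5
  rw [← Equiv.sum_comp (Equiv.arrowCongr s.symm (Equiv.refl V)) fun w : Fin 5 → V =>
    (∏ i, x (w i)) * f w]
  refine Finset.sum_congr rfl fun v _ => ?_
  have h : (Equiv.arrowCongr s.symm (Equiv.refl V)) v = v ∘ s := by
    funext i
    simp [Equiv.arrowCongr]
  rw [h]
  congr 1
  exact (Equiv.prod_comp s fun i => x (v i)).symm

theorem E5_perm (x : V → ℝ) (f : (Fin 5 → V) → ℝ) :
    E5 x (fun v => ∑ s : Equiv.Perm (Fin 5), f (v ∘ s)) = 120 * E5 x f := by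
  have h1 : E5 x (fun v => ∑ s : Equiv.Perm (Fin 5), f (v ∘ s)) =
      ∑ s : Equiv.Perm (Fin 5), E5 x (fun v => f (v ∘ s)) := by
    unfold E5
    rw [Finset.sum_comm]
    refine Finset.sum_congr rfl fun v _ => ?_
    rw [Finset.mul_sum]
  rw [h1, Finset.sum_congr rfl fun s _ => E5_comp x f s, Finset.sum_const, Finset.card_univ,
    Fintype.card_perm, Fintype.card_fin, nsmul_eq_mul]
  norm_num [Nat.factorial]

theorem E5_nonneg (x : V → ℝ) (hx : ∀ v, 0 ≤ x v) (f : (Fin 5 → V) → ℝ)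
    (hf : ∀ v, 0 ≤ ∑ s : Equiv.Perm (Fin 5), f (v ∘ s)) : 0 ≤ E5 x f := by
  have h : 0 ≤ E5 x (fun v => ∑ s : Equiv.Perm (Fin 5), f (v ∘ s)) := by
    unfold E5
    exact Finset.sum_nonneg fun v _ => mul_nonneg (Finset.prod_nonneg fun i _ => hx _) (hf v)
  rw [E5_perm] at h
  linarith

/-- the certificate is nonnegative on average -/
theorem E5_ev (x : V → ℝ) (hx : ∀ v, 0 ≤ x v) (c : V → V → ℕ) (hlt : ∀ u v, c u v < 3)
    (hinv : ∀ u v, c v u = inv3 (c u v))
    (hfree : ∀ a b d e, ¬ (c a b = 1 ∧ c b d = 1 ∧ c d e = 1 ∧ c e a = 1 ∧ c a d = 0 ∧ c b e = 0)) :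
    0 ≤ E5 x fun v => ((ev fun i j => c (v i) (v j) : ℤ) : ℝ) := by
  refine E5_nonneg x hx _ fun v => ?_
  have hs : Str fun i j => c (v i) (v j) :=
    ⟨fun i j => hlt _ _, fun i j => hinv _ _, fun a b d e => hfree _ _ _ _⟩
  obtain ⟨s, hs1, m, hm, hrep⟩ := exists_rep hs
  set t : Equiv.Perm (Fin 5) := Equiv.ofBijective s (Finite.injective_iff_bijective.mp hs1) with ht
  have h1 : ∑ p : Equiv.Perm (Fin 5), ((ev fun i j => c ((v ∘ p) i) ((v ∘ p) j) : ℤ) : ℝ) =
      ∑ p : Equiv.Perm (Fin 5), ((ev fun i j => c (v (s (p i))) (v (s (p j))) : ℤ) : ℝ) := by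
    rw [← Equiv.sum_comp (Equiv.mulLeft t)]
    rfl
  rw [h1, sum_perm (fun p => ((ev fun i j => c (v (s (p i))) (v (s (p j))) : ℤ) : ℝ))]
  simp only [hrep]
  have h2 := leaf_sum hm
  have h3 : (0 : ℝ) ≤ ((∑ k : Fin 120, ev fun i j => rl (h5 m) (pf k i) (pf k j) : ℤ) : ℝ) := by
    exact_mod_cast h2
  push_cast at h3
  exact h3

end

end Pool.Agent.L0h25.FDF
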