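import Pool.Agent.L0h25.FDF.An8

/-!
# The Fon-Der-Flaass construction for Turan's (4,3) problem has density at least 4/9

Fon-Der-Flaass (1988) attached to every oriented graph without induced directed four-cycle a family
of triples such that every four vertices contain a triple of the family.  All the known extremal
examples for Turan's conjecture on `T(n,4,3)` arise in this way.  We prove that every family arising
in this way has at least `2 n ^ 3 / 27 - n ^ 2 / 2 + n / 3 + e / 2` members, where `e` is the number of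
arcs; so its density is at least `4 / 9 - O(1 / n)`, the value conjectured by Turan.
-/

set_option autoImplicit false

open Finset

namespace Pool.Agent.L0h25.FDF.Theorem

/-- `arc` is an oriented graph (no loops, no two opposite arcs) without an induced directed cycle on
four vertices. -/
def C4Free {n : ℕ} (arc : Fin n → Fin n → Prop) : Prop :=
  (∀ a b, arc a b → ¬ arc b a) ∧
  ∀ a b c d, arc a b → arc b c → arc c d → arc d a → (arc a c ∨ arc c a) ∨ (arc b d ∨ arc d b)

/-- Some element of `e` sends arcs to all other elements of `e`, or is joined by an arc to none of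
them. -/
def IsEdge {n : ℕ} (arc : Fin n → Fin n → Prop) (e : Finset (Fin n)) : Prop :=
  ∃ a ∈ e, (∀ b ∈ e, b ≠ a → arc a b) ∨ (∀ b ∈ e, b ≠ a → ¬ arc a b ∧ ¬ arc b a)

open Classical in
/-- The Fon-Der-Flaass family of an oriented graph. -/
noncomputable def family {n : ℕ} (arc : Fin n → Fin n → Prop) : Finset (Finset (Fin n)) :=
  ((univ : Finset (Fin n)).powersetCard 3).filter fun e => IsEdge arc e

open Classical in
/-- The number of arcs. -/
noncomputable def arcs {n : ℕ} (arc : Fin n → Fin n → Prop) : ℕ :=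
  ((univ : Finset (Fin n × Fin n)).filter fun p => arc p.1 p.2).card

open Pool.Agent.L0h25.FDF

section
variable {n : ℕ} {arc : Fin n → Fin n → Prop}

open Classical in
/-- the relation as a function with three values -/
noncomputable def rel (arc : Fin n → Fin n → Prop) (u v : Fin n) : ℕ :=
  if arc u v then 1 else if arc v u then 2 else 0

theorem rel_one (u v : Fin n) : rel arc u v = 1 ↔ arc u v := by
  unfold rel; split_ifs with h1 h2 <;> simp [h1]

theorem rel_zero (u v : Fin n) : rel arc u v = 0 ↔ ¬ arc u v ∧ ¬ arc v u := by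
  unfold rel; split_ifs <;> simp_all

theorem rel_two (h : C4Free arc) (u v : Fin n) : rel arc u v = 2 ↔ arc v u := by
  unfold rel
  split_ifs with h1 h2
  · have := h.1 u v h1
    simp [this]
  · simp [h2]
  · simp [h2]

theorem rel_Rl (h : C4Free arc) : Rl (rel arc) where
  lt u v := by unfold rel; split_ifs <;> norm_num
  z u v h0 := by rw [rel_zero] at h0 ⊢; exact ⟨h0.2, h0.1⟩
  o u v h0 := by rw [rel_one] at h0; rw [rel_two h]; exact h0
  t u v h0 := by rw [rel_two h] at h0; rw [rel_one]; exact h0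
  free a b d e := by
    rintro ⟨h1, h2, h3, h4, h5, h6⟩
    rw [rel_one] at h1 h2 h3 h4
    rw [rel_zero] at h5 h6
    rcases h.2 a b d e h1 h2 h3 h4 with (h7 | h7) | (h7 | h7)
    · exact h5.1 h7
    · exact h5.2 h7
    · exact h6.1 h7
    · exact h6.2 h7

/-- the uniform configuration -/
noncomputable def conf (h : C4Free arc) (hn : 0 < n) : Cfg (Fin n) where
  x := fun _ => (n : ℝ)⁻¹
  c := rel arc
  k := fun _ => 0
  hx := fun _ => inv_pos.mpr (by exact_mod_cast hn)
  hx1 := by
    rw [Finset.sum_const, Finset.card_univ, Fintype.card_fin, nsmul_eq_mul]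
    exact mul_inv_cancel₀ (by exact_mod_cast hn.ne')
  hc := rel_Rl h

/-- the value of the edge function on a pair with one vertex repeated -/
theorem Fv_pair (h : C4Free arc) (hn : 0 < n) (a g : Fin n) :
    Fv (rel arc) a a g = 1 - (conf h hn).A a g ∧ Fv (rel arc) a g a = 1 - (conf h hn).A a g ∧
    Fv (rel arc) g a a = 1 - (conf h hn).A a g := by
  have h1 : Fv (rel arc) a a g = 1 - (conf h hn).A a g := by
    have e1 : Fv (rel arc) a a g = _ := (conf h hn).F_eq a a g
    rw [e1]
    have e2 := (conf h hn).N_self a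
    have e3 : (conf h hn).A a a = 0 := by
      have := (conf h hn).sum_one a a
      rw [e2] at this
      linarith
    have e4 := (conf h hn).sum_one a g
    rw [e2, e3]
    rcases (conf h hn).N_cases a g with h5 | h5 <;> rcases (conf h hn).A_cases g a with h6 | h6 <;>
      rw [h5, h6] at e4 ⊢ <;> linarith
  refine ⟨h1, ?_, ?_⟩
  · rw [(rel_Rl h).symm23]; exact h1
  · rw [(rel_Rl h).symm12, (rel_Rl h).symm23]; exact h1

theorem Fv_nonneg (c : Fin n → Fin n → ℕ) (a b g : Fin n) : 0 ≤ Fv c a b g := Nat.cast_nonneg _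

theorem Fv_le (c : Fin n → Fin n → ℕ) (a b g : Fin n) : Fv c a b g ≤ 1 := by
  unfold Fv fld
  exact_mod_cast Nat.and_le_right

/-- the edge function vanishes at three distinct vertices that do not form an edge -/
theorem Fv_edge (h : C4Free arc) (hn : 0 < n) {a b g : Fin n} (hab : a ≠ b) (hag : a ≠ g) (hbg : b ≠ g)
    (he : ¬ IsEdge arc {a, b, g}) : Fv (rel arc) a b g = 0 := by
  have hA : ∀ u v : Fin n, (conf h hn).A u v = 1 → arc u v := by
    intro u v h1
    by_contra hcon
    have : ¬ rel arc u v = 1 := fun h2 => hcon ((rel_one u v).mp h2)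
    have h2 : (conf h hn).A u v = 0 := by
      show ((bi (decide (rel arc u v = 1)) : ℤ) : ℝ) = 0
      simp [this, bi]
    rw [h2] at h1
    norm_num at h1
  have hN : ∀ u v : Fin n, (conf h hn).N u v = 1 → ¬ arc u v ∧ ¬ arc v u := by
    intro u v h1
    by_contra hcon
    have : ¬ rel arc u v = 0 := fun h2 => hcon ((rel_zero u v).mp h2)
    have h2 : (conf h hn).N u v = 0 := by
      show ((bi (decide (rel arc u v = 0)) : ℤ) : ℝ) = 0
      simp [this, bi]
    rw [h2] at h1
    norm_num at h1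
  have hz : ∀ s t : ℝ, (s = 0 ∨ s = 1) → (t = 0 ∨ t = 1) → ¬ (s = 1 ∧ t = 1) → s * t = 0 := by
    intro s t hs ht hst
    rcases hs with hs | hs
    · rw [hs, zero_mul]
    · rcases ht with ht | ht
      · rw [ht, mul_zero]
      · exact absurd ⟨hs, ht⟩ hst
  have n1 := hz _ _ ((conf h hn).N_cases a b) ((conf h hn).N_cases a g) (fun h1 => he
    ⟨a, by simp, Or.inr (by
      intro w hw hwa
      simp only [mem_insert, mem_singleton] at hw
      rcases hw with hw | hw | hw
      · exact absurd hw hwa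
      · rw [hw]; exact hN a b h1.1
      · rw [hw]; exact hN a g h1.2)⟩)
  have n2 := hz _ _ ((conf h hn).N_cases a b) ((conf h hn).N_cases b g) (fun h1 => he
    ⟨b, by simp, Or.inr (by
      intro w hw hwb
      simp only [mem_insert, mem_singleton] at hw
      rcases hw with hw | hw | hw
      · rw [hw]; exact (hN a b h1.1).symm
      · exact absurd hw hwb
      · rw [hw]; exact hN b g h1.2)⟩)
  have n3 := hz _ _ ((conf h hn).N_cases a g) ((conf h hn).N_cases b g) (fun h1 => he
    ⟨g, by simp, Or.inr (by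
      intro w hw hwg
      simp only [mem_insert, mem_singleton] at hw
      rcases hw with hw | hw | hw
      · rw [hw]; exact (hN a g h1.1).symm
      · rw [hw]; exact (hN b g h1.2).symm
      · exact absurd hw hwg)⟩)
  have a1 := hz _ _ ((conf h hn).A_cases a b) ((conf h hn).A_cases a g) (fun h1 => he
    ⟨a, by simp, Or.inl (by
      intro w hw hwa
      simp only [mem_insert, mem_singleton] at hw
      rcases hw with hw | hw | hw
      · exact absurd hw hwa
      · rw [hw]; exact hA a b h1.1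
      · rw [hw]; exact hA a g h1.2)⟩)
  have a2 := hz _ _ ((conf h hn).A_cases b a) ((conf h hn).A_cases b g) (fun h1 => he
    ⟨b, by simp, Or.inl (by
      intro w hw hwb
      simp only [mem_insert, mem_singleton] at hw
      rcases hw with hw | hw | hw
      · rw [hw]; exact hA b a h1.1
      · exact absurd hw hwb
      · rw [hw]; exact hA b g h1.2)⟩)
  have a3 := hz _ _ ((conf h hn).A_cases g a) ((conf h hn).A_cases g b) (fun h1 => he
    ⟨g, by simp, Or.inl (by
      intro w hw hwg
      simp only [mem_insert, mem_singleton] at hw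
      rcases hw with hw | hw | hw
      · rw [hw]; exact hA g a h1.1
      · rw [hw]; exact hA g b h1.2
      · exact absurd hw hwg)⟩)
  have e1 : Fv (rel arc) a b g = _ := (conf h hn).F_eq a b g
  rw [e1, n1, n2, n3, a1, a2, a3]
  ring

open Classical in
/-- the ordered triples of distinct vertices forming an edge -/
theorem card_ordered : ((univ : Finset (Fin n × Fin n × Fin n)).filter fun p =>
    (p.1 ≠ p.2.1 ∧ p.1 ≠ p.2.2 ∧ p.2.1 ≠ p.2.2) ∧ IsEdge arc {p.1, p.2.1, p.2.2}).card ≤
    6 * (family arc).card := by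
  refine Finset.card_le_mul_card_image_of_maps_to (f := fun p : Fin n × Fin n × Fin n =>
    ({p.1, p.2.1, p.2.2} : Finset (Fin n))) ?_ 6 ?_
  · rintro ⟨a, b, g⟩ hp
    obtain ⟨-, ⟨h1, h2, h3⟩, h4⟩ := Finset.mem_filter.mp hp
    refine Finset.mem_filter.mpr ⟨Finset.mem_powersetCard.mpr ⟨Finset.subset_univ _, ?_⟩, h4⟩
    exact Finset.card_eq_three.mpr ⟨a, b, g, h1, h2, h3, rfl⟩
  · intro e he
    obtain ⟨he1, -⟩ := Finset.mem_filter.mp he
    obtain ⟨x, y, z, hxy, hxz, hyz, rfl⟩ := Finset.card_eq_three.mp (Finset.mem_powersetCard.mp he1).2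
    refine le_trans (Finset.card_le_card (t := {(x, y, z), (x, z, y), (y, x, z), (y, z, x), (z, x, y), (z, y, x)}) ?_)
      Finset.card_le_six
    rintro ⟨a, b, g⟩ hp
    obtain ⟨hp1, hp2⟩ := Finset.mem_filter.mp hp
    obtain ⟨-, ⟨h1, h2, h3⟩, -⟩ := Finset.mem_filter.mp hp1
    simp only at h1 h2 h3 hp2
    have ha : a ∈ ({x, y, z} : Finset (Fin n)) := by rw [← hp2]; simp
    have hb : b ∈ ({x, y, z} : Finset (Fin n)) := by rw [← hp2]; simp
    have hg : g ∈ ({x, y, z} : Finset (Fin n)) := by rw [← hp2]; simp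
    simp only [mem_insert, mem_singleton] at ha hb hg
    rcases ha with rfl | rfl | rfl <;> rcases hb with rfl | rfl | rfl <;> rcases hg with rfl | rfl | rfl <;>
      first
        | exact absurd rfl h1
        | exact absurd rfl h2
        | exact absurd rfl h3
        | simp

open Classical in
theorem A_eq (h : C4Free arc) (hn : 0 < n) (a b : Fin n) :
    (conf h hn).A a b = if arc a b then 1 else 0 := by
  show ((bi (decide (rel arc a b = 1)) : ℤ) : ℝ) = _
  by_cases h1 : arc a b
  · simp [(rel_one a b).mpr h1, h1, bi]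
  · have : ¬ rel arc a b = 1 := fun h2 => h1 ((rel_one a b).mp h2)
    simp [this, h1, bi]

open Classical in
theorem arcs_eq (h : C4Free arc) (hn : 0 < n) :
    ∑ a, ∑ b, (conf h hn).A a b = (arcs arc : ℝ) := by
  unfold arcs
  rw [Finset.card_filter]
  push_cast
  rw [Fintype.sum_prod_type]
  exact Finset.sum_congr rfl fun a _ => Finset.sum_congr rfl fun b _ => A_eq h hn a b

theorem arc_self (h : C4Free arc) (a : Fin n) : ¬ arc a a := fun h1 => h.1 a a h1 h1

open Classical in
/-- pointwise bound for the edge function -/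
theorem Fv_point (h : C4Free arc) (hn : 0 < n) (a b g : Fin n) : Fv (rel arc) a b g ≤
    (if (a ≠ b ∧ a ≠ g ∧ b ≠ g) ∧ IsEdge arc {a, b, g} then 1 else 0) +
    (if a = b then 1 - (conf h hn).A a g else 0) + (if a = g then 1 - (conf h hn).A a b else 0) +
    (if b = g then 1 - (conf h hn).A b a else 0) - 2 * (if a = b then (if b = g then 1 else 0) else 0) := by
  have hself : (conf h hn).A a a = 0 := by rw [A_eq, if_neg (arc_self h a)]
  by_cases hab : a = b
  · subst hab
    by_cases hag : a = g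
    · subst hag
      have h1 := (Fv_pair h hn a a).1
      rw [h1, hself]
      simp
      norm_num
    · have h1 := (Fv_pair h hn a g).1
      rw [h1]
      simp [hag]
  · by_cases hag : a = g
    · subst hag
      have h1 := (Fv_pair h hn a b).2.1
      have hba : ¬ b = a := fun h => hab h.symm
      rw [h1]
      simp [hab, hba]
    · by_cases hbg : b = g
      · subst hbg
        have h1 := (Fv_pair h hn b a).2.2
        rw [h1]
        simp [hab]
      · by_cases he : IsEdge arc {a, b, g}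
        · have h1 := Fv_le (rel arc) a b g
          simp [hab, hag, hbg, he, h1]
        · rw [Fv_edge h hn hab hag hbg he]
          simp [hab, hag, hbg, he]

open Classical in
theorem total_le (h : C4Free arc) (hn : 0 < n) : ∑ a, ∑ b, ∑ g, Fv (rel arc) a b g ≤
    6 * ((family arc).card : ℝ) + 3 * ((n : ℝ) ^ 2 - arcs arc) - 2 * n := by
  refine le_trans (Finset.sum_le_sum fun a _ => Finset.sum_le_sum fun b _ => Finset.sum_le_sum fun g _ =>
    Fv_point h hn a b g) ?_
  simp only [Finset.sum_add_distrib, Finset.sum_sub_distrib]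
  have h1 : ∑ a : Fin n, ∑ b : Fin n, ∑ g : Fin n,
      (if (a ≠ b ∧ a ≠ g ∧ b ≠ g) ∧ IsEdge arc {a, b, g} then (1 : ℝ) else 0) ≤ 6 * ((family arc).card : ℝ) := by
    have h2 := card_ordered (arc := arc)
    rw [Finset.card_filter] at h2
    have h3 := (Nat.cast_le (α := ℝ)).mpr h2
    push_cast at h3
    simp only [Fintype.sum_prod_type] at h3
    exact h3
  have hA := arcs_eq h hn
  have hAA : ∑ a : Fin n, ∑ b : Fin n, (1 - (conf h hn).A a b) = (n : ℝ) ^ 2 - arcs arc := by
    simp only [Finset.sum_sub_distrib, hA, Finset.sum_const, Finset.card_univ, Fintype.card_fin, nsmul_eq_mul]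
    ring
  have h2 : ∑ a : Fin n, ∑ b : Fin n, ∑ g : Fin n, (if a = b then 1 - (conf h hn).A a g else 0) =
      (n : ℝ) ^ 2 - arcs arc := by
    rw [← hAA]
    refine Finset.sum_congr rfl fun a _ => ?_
    rw [Finset.sum_eq_single a]
    · simp
    · intro b _ hb
      simp [Ne.symm hb]
    · simp
  have h3 : ∑ a : Fin n, ∑ b : Fin n, ∑ g : Fin n, (if a = g then 1 - (conf h hn).A a b else 0) =
      (n : ℝ) ^ 2 - arcs arc := by
    rw [← hAA]
    simp
  have h4 : ∑ a : Fin n, ∑ b : Fin n, ∑ g : Fin n, (if b = g then 1 - (conf h hn).A b a else 0) =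
      (n : ℝ) ^ 2 - arcs arc := by
    rw [← hAA, Finset.sum_comm]
    simp
  have h5 : ∑ a : Fin n, ∑ b : Fin n, ∑ g : Fin n, 2 * (if a = b then (if b = g then (1 : ℝ) else 0) else 0) =
      2 * n := by
    simp
    ring
  rw [h2, h3, h4, h5]
  linarith

end

/-- three relations making an edge -/
def tb (r s t : ℕ) : Bool :=
  (r == 0 && s == 0) || ((r == 0 && t == 0) || ((s == 0 && t == 0) || ((r == 1 && s == 1) ||
    ((r == 2 && t == 1) || (s == 2 && t == 2)))))

/-- the six induced directed four-cycles -/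
def cyb (r01 r02 r03 r12 r13 r23 : ℕ) : Bool :=
  (r01 == 1 && r12 == 1 && r23 == 1 && r03 == 2 && r02 == 0 && r13 == 0) ||
  ((r01 == 2 && r12 == 2 && r23 == 2 && r03 == 1 && r02 == 0 && r13 == 0) ||
  ((r01 == 1 && r13 == 1 && r23 == 2 && r02 == 2 && r03 == 0 && r12 == 0) ||
  ((r01 == 2 && r13 == 2 && r23 == 1 && r02 == 1 && r03 == 0 && r12 == 0) ||
  ((r02 == 1 && r12 == 2 && r13 == 1 && r03 == 2 && r01 == 0 && r23 == 0) ||
  (r02 == 2 && r12 == 1 && r13 == 2 && r03 == 1 && r01 == 0 && r23 == 0)))))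

/-- a table for four vertices -/
theorem table4 : ∀ r01 r02 r03 r12 r13 r23 : Fin 3,
    (tb r01 r02 r12 || (tb r01 r03 r13 || (tb r02 r03 r23 || (tb r12 r13 r23 ||
      cyb r01 r02 r03 r12 r13 r23)))) = true := by
  decide +kernel

open Classical in
/-- an edge from its relations -/
theorem edge_of {n : ℕ} {arc : Fin n → Fin n → Prop} (h : C4Free arc) {a b g : Fin n} (hab : a ≠ b)
    (hag : a ≠ g) (hbg : b ≠ g)
    (he : (rel arc a b = 0 ∧ rel arc a g = 0) ∨ (rel arc a b = 0 ∧ rel arc b g = 0) ∨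
      (rel arc a g = 0 ∧ rel arc b g = 0) ∨ (rel arc a b = 1 ∧ rel arc a g = 1) ∨
      (rel arc a b = 2 ∧ rel arc b g = 1) ∨ (rel arc a g = 2 ∧ rel arc b g = 2)) :
    ({a, b, g} : Finset (Fin n)) ∈ family arc := by
  refine Finset.mem_filter.mpr ⟨Finset.mem_powersetCard.mpr ⟨Finset.subset_univ _,
    Finset.card_eq_three.mpr ⟨a, b, g, hab, hag, hbg, rfl⟩⟩, ?_⟩
  simp only [rel_zero, rel_one, rel_two h] at he
  have key : ∀ P : Fin n → Prop, ∀ u v w : Fin n, ({a, b, g} : Finset (Fin n)) = {u, v, w} → P v → P w →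
      ∀ y ∈ ({a, b, g} : Finset (Fin n)), y ≠ u → P y := by
    intro P u v w hs hv hw y hy hyu
    rw [hs] at hy
    simp only [mem_insert, mem_singleton] at hy
    rcases hy with hy | hy | hy
    · exact absurd hy hyu
    · rw [hy]; exact hv
    · rw [hy]; exact hw
  have s2 : ({a, b, g} : Finset (Fin n)) = {b, a, g} := Finset.insert_comm _ _ _
  have s3 : ({a, b, g} : Finset (Fin n)) = {g, a, b} := by
    ext y; simp only [mem_insert, mem_singleton]; tauto
  rcases he with he | he | he | he | he | he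
  · exact ⟨a, by simp, Or.inr (key (fun y => ¬ arc a y ∧ ¬ arc y a) a b g rfl he.1 he.2)⟩
  · exact ⟨b, by simp, Or.inr (key (fun y => ¬ arc b y ∧ ¬ arc y b) b a g s2 he.1.symm he.2)⟩
  · exact ⟨g, by simp, Or.inr (key (fun y => ¬ arc g y ∧ ¬ arc y g) g a b s3 he.1.symm he.2.symm)⟩
  · exact ⟨a, by simp, Or.inl (key (fun y => arc a y) a b g rfl he.1 he.2)⟩
  · exact ⟨b, by simp, Or.inl (key (fun y => arc b y) b a g s2 he.1 he.2)⟩
  · exact ⟨g, by simp, Or.inl (key (fun y => arc g y) g a b s3 he.1 he.2)⟩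

/-- The family is a Turan (n,4,3)-system: every four vertices contain one of its triples
(Fon-Der-Flaass). -/
theorem covering {n : ℕ} {arc : Fin n → Fin n → Prop} (h : C4Free arc) (q : Finset (Fin n))
    (hq : q.card = 4) : ∃ e ∈ family arc, e ⊆ q := by
  obtain ⟨a, t, hat, rfl, ht⟩ := Finset.card_eq_succ.mp hq
  obtain ⟨b, d, e, hbd, hbe, hde, rfl⟩ := Finset.card_eq_three.mp ht
  simp only [mem_insert, mem_singleton, not_or] at hat
  obtain ⟨hab, had, hae⟩ := hat
  have hl := (rel_Rl h).lt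
  have hf := (rel_Rl h).free
  have i0 := (rel_Rl h).z
  have i1 := (rel_Rl h).o
  have i2 := (rel_Rl h).t
  have T := table4 ⟨rel arc a b, hl a b⟩ ⟨rel arc a d, hl a d⟩ ⟨rel arc a e, hl a e⟩ ⟨rel arc b d, hl b d⟩
    ⟨rel arc b e, hl b e⟩ ⟨rel arc d e, hl d e⟩
  simp only [tb, cyb, Bool.or_eq_true, Bool.and_eq_true, beq_iff_eq, and_assoc] at T
  rcases T with T | T | T | T | T | T | T | T | T | T
  · exact ⟨{a, b, d}, edge_of h hab had hbd T, by intro y hy; simp only [mem_insert, mem_singleton] at hy ⊢; tauto⟩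
  · exact ⟨{a, b, e}, edge_of h hab hae hbe T, by intro y hy; simp only [mem_insert, mem_singleton] at hy ⊢; tauto⟩
  · exact ⟨{a, d, e}, edge_of h had hae hde T, by intro y hy; simp only [mem_insert, mem_singleton] at hy ⊢; tauto⟩
  · exact ⟨{b, d, e}, edge_of h hbd hbe hde T, by intro y hy; simp only [mem_insert, mem_singleton] at hy ⊢; tauto⟩
  · obtain ⟨t1, t2, t3, t4, t5, t6⟩ := T
    exact absurd ⟨t1, t2, t3, i2 _ _ t4, t5, t6⟩ (hf a b d e)
  · obtain ⟨t1, t2, t3, t4, t5, t6⟩ := T
    exact absurd ⟨t4, i2 _ _ t3, i2 _ _ t2, i2 _ _ t1, t5, i0 _ _ t6⟩ (hf a e d b)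
  · obtain ⟨t1, t2, t3, t4, t5, t6⟩ := T
    exact absurd ⟨t1, t2, i2 _ _ t3, i2 _ _ t4, t5, t6⟩ (hf a b e d)
  · obtain ⟨t1, t2, t3, t4, t5, t6⟩ := T
    exact absurd ⟨t4, t3, i2 _ _ t2, i2 _ _ t1, t5, i0 _ _ t6⟩ (hf a d e b)
  · obtain ⟨t1, t2, t3, t4, t5, t6⟩ := T
    exact absurd ⟨t1, i2 _ _ t2, t3, i2 _ _ t4, t5, t6⟩ (hf a d b e)
  · obtain ⟨t1, t2, t3, t4, t5, t6⟩ := T
    exact absurd ⟨t4, i2 _ _ t3, t2, i2 _ _ t1, t5, i0 _ _ t6⟩ (hf a e b d)

/-- **Main theorem.** Every Fon-Der-Flaass family on `n` vertices has at least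
`2 n ^ 3 / 27 - n ^ 2 / 2 + n / 3 + e / 2` members, where `e` is the number of arcs. -/
theorem result (n : ℕ) (arc : Fin n → Fin n → Prop) (h : C4Free arc) :
    2 / 27 * (n : ℝ) ^ 3 - (n : ℝ) ^ 2 / 2 + (n : ℝ) / 3 + (arcs arc : ℝ) / 2 ≤ ((family arc).card : ℝ) := by
  rcases Nat.eq_zero_or_pos n with hn | hn
  · subst hn
    have h0 : arcs arc = 0 := by
      unfold arcs
      rw [Finset.card_eq_zero, Finset.eq_empty_iff_forall_notMem]
      exact fun p => p.1.elim0
    rw [h0]
    simp
  · have h1 := main (rel_Rl h) (x := (conf h hn).x) (fun v => ((conf h hn).hx v).le) (conf h hn).hx1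
    have h2 := total_le h hn
    have hn' : (0 : ℝ) < n := by exact_mod_cast hn
    have h3 : pp (conf h hn).x (rel arc) = ((n : ℝ)⁻¹) ^ 3 * ∑ a, ∑ b, ∑ g, Fv (rel arc) a b g := by
      unfold pp
      simp only [Finset.mul_sum]
      refine Finset.sum_congr rfl fun a _ => Finset.sum_congr rfl fun b _ => Finset.sum_congr rfl fun g _ => ?_
      show (n : ℝ)⁻¹ * (n : ℝ)⁻¹ * (n : ℝ)⁻¹ * Fv (rel arc) a b g = _
      ring
    rw [h3] at h1
    have h4 : 4 / 9 * (n : ℝ) ^ 3 ≤ ∑ a, ∑ b, ∑ g, Fv (rel arc) a b g := by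
      have h5 := mul_le_mul_of_nonneg_right h1 (pow_nonneg hn'.le 3)
      have h6 : ((n : ℝ)⁻¹) ^ 3 * (∑ a, ∑ b, ∑ g, Fv (rel arc) a b g) * (n : ℝ) ^ 3 =
          ∑ a, ∑ b, ∑ g, Fv (rel arc) a b g := by
        rw [mul_right_comm, ← mul_pow, inv_mul_cancel₀ hn'.ne', one_pow, one_mul]
      rw [h6] at h5
      exact h5
    linarith

end Pool.Agent.L0h25.FDF.Theorem
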